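import Mathlib

/-! Power series converging on the unit disc, and their values on the upper half plane. -/

set_option autoImplicit false

open PowerSeries Complex Filter Topology
open scoped Real

namespace Pool.Agent.H185Z.L7

/-- convergence on the open unit disc -/
def Conv (A : ℂ⟦X⟧) : Prop := ∀ q : ℂ, ‖q‖ < 1 → Summable (fun n => coeff n A * q ^ n)

/-- the sum -/
noncomputable def ev (A : ℂ⟦X⟧) (q : ℂ) : ℂ := ∑' n, coeff n A * q ^ n

lemma Conv.hasSum {A : ℂ⟦X⟧} (h : Conv A) {q : ℂ} (hq : ‖q‖ < 1) :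
    HasSum (fun n => coeff n A * q ^ n) (ev A q) := (h q hq).hasSum

lemma Conv.norm {A : ℂ⟦X⟧} (h : Conv A) {q : ℂ} (hq : ‖q‖ < 1) :
    Summable (fun n => ‖coeff n A * q ^ n‖) := summable_norm_iff.mpr (h q hq)

lemma conv_of_hasSum {A : ℂ⟦X⟧} {F : ℂ → ℂ}
    (h : ∀ q : ℂ, ‖q‖ < 1 → HasSum (fun n => coeff n A * q ^ n) (F q)) :
    Conv A ∧ ∀ q : ℂ, ‖q‖ < 1 → ev A q = F q :=
  ⟨fun q hq => (h q hq).summable, fun q hq => (h q hq).tsum_eq⟩

lemma hasSum_C (c q : ℂ) : HasSum (fun n => coeff n (C c : ℂ⟦X⟧) * q ^ n) c := by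
  have := hasSum_single (f := fun n => coeff n (C c : ℂ⟦X⟧) * q ^ n) 0
    (fun n hn => by simp [coeff_C, hn])
  simpa using this

lemma conv_C (c : ℂ) : Conv (C c) := fun q _ => (hasSum_C c q).summable
lemma ev_C (c q : ℂ) : ev (C c) q = c := (hasSum_C c q).tsum_eq

lemma conv_one : Conv 1 := by simpa using conv_C 1
lemma ev_one (q : ℂ) : ev 1 q = 1 := by simpa using ev_C 1 q
lemma conv_zero : Conv 0 := by simpa using conv_C 0
lemma ev_zero (q : ℂ) : ev 0 q = 0 := by simpa using ev_C 0 q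

lemma hasSum_X (q : ℂ) : HasSum (fun n => coeff n (X : ℂ⟦X⟧) * q ^ n) q := by
  have := hasSum_single (f := fun n => coeff n (X : ℂ⟦X⟧) * q ^ n) 1
    (fun n hn => by simp [coeff_X, hn])
  simpa using this

lemma conv_X : Conv X := fun q _ => (hasSum_X q).summable
lemma ev_X (q : ℂ) : ev X q = q := (hasSum_X q).tsum_eq

lemma Conv.add {A B : ℂ⟦X⟧} (hA : Conv A) (hB : Conv B) : Conv (A + B) := fun q hq => by
  simpa [add_mul] using (hA q hq).add (hB q hq)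

lemma ev_add {A B : ℂ⟦X⟧} (hA : Conv A) (hB : Conv B) {q : ℂ} (hq : ‖q‖ < 1) :
    ev (A + B) q = ev A q + ev B q := by
  have := (hA.hasSum hq).add (hB.hasSum hq)
  refine HasSum.tsum_eq ?_
  simpa [add_mul] using this

lemma Conv.neg {A : ℂ⟦X⟧} (hA : Conv A) : Conv (-A) := fun q hq => by
  simpa using (hA q hq).neg

lemma ev_neg (A : ℂ⟦X⟧) (q : ℂ) : ev (-A) q = - ev A q := by
  simp [ev, tsum_neg]

lemma Conv.sub {A B : ℂ⟦X⟧} (hA : Conv A) (hB : Conv B) : Conv (A - B) := by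
  rw [sub_eq_add_neg]; exact hA.add hB.neg

lemma ev_sub {A B : ℂ⟦X⟧} (hA : Conv A) (hB : Conv B) {q : ℂ} (hq : ‖q‖ < 1) :
    ev (A - B) q = ev A q - ev B q := by
  rw [sub_eq_add_neg, ev_add hA hB.neg hq, ev_neg, sub_eq_add_neg]

lemma mul_aux (A B : ℂ⟦X⟧) (q : ℂ) (n : ℕ) :
    coeff n (A * B) * q ^ n =
      ∑ kl ∈ Finset.HasAntidiagonal.antidiagonal n, (coeff kl.1 A * q ^ kl.1) * (coeff kl.2 B * q ^ kl.2) := by
  rw [coeff_mul, Finset.sum_mul]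
  refine Finset.sum_congr rfl fun kl h => ?_
  rw [← Finset.HasAntidiagonal.mem_antidiagonal.mp h, pow_add]; ring

lemma Conv.mul {A B : ℂ⟦X⟧} (hA : Conv A) (hB : Conv B) : Conv (A * B) := fun q hq => by
  simp_rw [mul_aux]
  exact (summable_norm_sum_mul_antidiagonal_of_summable_norm (hA.norm hq) (hB.norm hq)).of_norm

lemma ev_mul {A B : ℂ⟦X⟧} (hA : Conv A) (hB : Conv B) {q : ℂ} (hq : ‖q‖ < 1) :
    ev (A * B) q = ev A q * ev B q := by
  unfold ev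
  simp_rw [mul_aux]
  exact (tsum_mul_tsum_eq_tsum_sum_antidiagonal_of_summable_norm (hA.norm hq) (hB.norm hq)).symm

lemma Conv.pow {A : ℂ⟦X⟧} (hA : Conv A) (n : ℕ) : Conv (A ^ n) := by
  induction n with
  | zero => simpa using conv_one
  | succ n ih => rw [pow_succ]; exact ih.mul hA

lemma ev_pow {A : ℂ⟦X⟧} (hA : Conv A) (n : ℕ) {q : ℂ} (hq : ‖q‖ < 1) :
    ev (A ^ n) q = ev A q ^ n := by
  induction n with
  | zero => simpa using ev_one q
  | succ n ih => rw [pow_succ, ev_mul (hA.pow n) hA hq, ih, pow_succ]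

lemma Conv.bound {A : ℂ⟦X⟧} (hA : Conv A) {q : ℂ} (hq : ‖q‖ < 1) :
    ∃ r : ℝ, ‖q‖ < r ∧ r < 1 ∧ ∃ u : ℕ → ℝ, Summable u ∧
      ∀ n (w : ℂ), w ∈ Metric.ball (0 : ℂ) r → ‖coeff n A * w ^ n‖ ≤ u n := by
  obtain ⟨r, h1, h2⟩ := exists_between hq
  have hr : 0 ≤ r := (norm_nonneg q).trans h1.le
  refine ⟨r, h1, h2, _, hA.norm (q := (r : ℂ)) (by simpa [abs_of_nonneg hr] using h2), ?_⟩
  intro n w hw
  rw [norm_mul, norm_mul, norm_pow, norm_pow]
  have : ‖w‖ ≤ ‖(r : ℂ)‖ := by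
    simpa [abs_of_nonneg hr] using (mem_ball_zero_iff.mp hw).le
  gcongr

lemma Conv.deriv_aux {A : ℂ⟦X⟧} (hA : Conv A) {q : ℂ} (hq : ‖q‖ < 1) :
    DifferentiableAt ℂ (ev A) q ∧
      HasSum (fun n => coeff n (d⁄dX ℂ A) * q ^ n) (deriv (ev A) q) := by
  obtain ⟨r, h1, h2, u, hu, hb⟩ := hA.bound hq
  have hmem : q ∈ Metric.ball (0 : ℂ) r := mem_ball_zero_iff.mpr h1
  have hd : ∀ n : ℕ, DifferentiableOn ℂ (fun w : ℂ => coeff n A * w ^ n) (Metric.ball 0 r) :=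
    fun n => by fun_prop
  refine ⟨(differentiableOn_tsum_of_summable_norm hu hd Metric.isOpen_ball hb).differentiableAt
    (Metric.isOpen_ball.mem_nhds hmem), ?_⟩
  have h := hasSum_deriv_of_summable_norm hu hd Metric.isOpen_ball hb hmem
  rw [← hasSum_nat_add_iff' 1] at h
  simp only [Finset.range_one, Finset.sum_singleton, pow_zero, mul_one, deriv_const', sub_zero] at h
  have e : (fun n => coeff n (d⁄dX ℂ A) * q ^ n) =
      fun n => deriv (fun w : ℂ => coeff (n + 1) A * w ^ (n + 1)) q := by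
    funext n
    rw [coeff_derivative, deriv_const_mul _ (by fun_prop)]
    simp; ring
  rw [e]; exact h

lemma Conv.deriv {A : ℂ⟦X⟧} (hA : Conv A) : Conv (d⁄dX ℂ A) :=
  fun _ hq => (hA.deriv_aux hq).2.summable

lemma Conv.hasDerivAt {A : ℂ⟦X⟧} (hA : Conv A) {q : ℂ} (hq : ‖q‖ < 1) :
    HasDerivAt (ev A) (ev (d⁄dX ℂ A) q) q := by
  have h := hA.deriv_aux hq
  rw [show ev (d⁄dX ℂ A) q = _ from h.2.tsum_eq]
  exact h.1.hasDerivAt

lemma Conv.differentiableOn {A : ℂ⟦X⟧} (hA : Conv A) :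
    DifferentiableOn ℂ (ev A) (Metric.ball 0 1) := fun _ hq =>
  (hA.hasDerivAt (mem_ball_zero_iff.mp hq)).differentiableAt.differentiableWithinAt

lemma ev_at_zero (A : ℂ⟦X⟧) : ev A 0 = coeff 0 A := by
  unfold ev
  rw [tsum_eq_single 0 (fun n hn => by simp [hn])]; simp

lemma Conv.of_X_mul {A : ℂ⟦X⟧} (h : Conv (X * A)) : Conv A := by
  intro q hq
  rcases eq_or_ne q 0 with rfl | h0
  · exact summable_of_ne_finset_zero (s := {0}) (fun n hn => by
      have : n ≠ 0 := by simpa using hn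
      simp [this])
  · have h1 := (summable_nat_add_iff 1).mpr (h q hq)
    have h2 := h1.mul_right q⁻¹
    refine h2.congr fun n => ?_
    rw [coeff_succ_X_mul, pow_succ]; field_simp

lemma iteratedDeriv_ev {A : ℂ⟦X⟧} (hA : Conv A) (n : ℕ) :
    iteratedDeriv n (ev A) 0 = n.factorial * coeff n A := by
  induction n generalizing A with
  | zero => simp [ev_at_zero]
  | succ n ih =>
    rw [iteratedDeriv_succ']
    have h : deriv (ev A) =ᶠ[𝓝 0] ev (d⁄dX ℂ A) := by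
      filter_upwards [Metric.ball_mem_nhds (0 : ℂ) one_pos] with q hq
      exact (hA.hasDerivAt (mem_ball_zero_iff.mp hq)).deriv
    rw [h.iteratedDeriv_eq, ih hA.deriv, coeff_derivative, Nat.factorial_succ]
    push_cast; ring

lemma eq_zero_of_ev {A : ℂ⟦X⟧} (hA : Conv A) (h : ∀ q : ℂ, ‖q‖ < 1 → q ≠ 0 → ev A q = 0) :
    A = 0 := by
  have hc : ContinuousAt (ev A) 0 := (hA.hasDerivAt (by simp)).continuousAt
  have h1 : ev A =ᶠ[𝓝[≠] 0] fun _ => 0 := by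
    filter_upwards [self_mem_nhdsWithin, mem_nhdsWithin_of_mem_nhds
      (Metric.ball_mem_nhds (0 : ℂ) one_pos)] with q h0 hq
    exact h q (mem_ball_zero_iff.mp hq) h0
  have h0 : ev A 0 = 0 :=
    tendsto_nhds_unique (hc.tendsto.mono_left nhdsWithin_le_nhds)
      (tendsto_const_nhds.congr' h1.symm)
  have h2 : ev A =ᶠ[𝓝 0] fun _ => 0 := by
    filter_upwards [Metric.ball_mem_nhds (0 : ℂ) one_pos] with q hq
    rcases eq_or_ne q 0 with rfl | hq0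
    · exact h0
    · exact h q (mem_ball_zero_iff.mp hq) hq0
  ext n
  have := iteratedDeriv_ev hA n
  rw [h2.iteratedDeriv_eq] at this
  have h3 : iteratedDeriv n (fun _ : ℂ => (0 : ℂ)) 0 = 0 := by simp
  rw [h3] at this
  have h4 : (n.factorial : ℂ) ≠ 0 := by exact_mod_cast n.factorial_ne_zero
  simpa [h4] using this.symm

lemma exists_taylor {F : ℂ → ℂ} (hF : DifferentiableOn ℂ F (Metric.ball 0 1)) :
    ∃ A : ℂ⟦X⟧, Conv A ∧ (∀ q : ℂ, ‖q‖ < 1 → ev A q = F q) := by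
  refine ⟨mk fun n => (n.factorial : ℂ)⁻¹ * iteratedDeriv n F 0, conv_of_hasSum fun q hq => ?_⟩
  have := hasSum_taylorSeries_on_ball hF (mem_ball_zero_iff.mpr hq)
  have e : (fun n => coeff n (mk fun n => (n.factorial : ℂ)⁻¹ * iteratedDeriv n F 0) * q ^ n) =
      fun n => (n.factorial : ℂ)⁻¹ • (q - 0) ^ n • iteratedDeriv n F 0 := by
    funext n
    simp; ring
  rw [e]; exact this

lemma Conv.of_mul_eq_one {A B : ℂ⟦X⟧} (hA : Conv A) (h0 : ∀ q : ℂ, ‖q‖ < 1 → ev A q ≠ 0)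
    (hAB : A * B = 1) : Conv B := by
  obtain ⟨B', hB', hev⟩ := exists_taylor (F := fun q => (ev A q)⁻¹)
    (hA.differentiableOn.inv fun q hq => h0 q (mem_ball_zero_iff.mp hq))
  have h1 : A * B' - 1 = 0 := eq_zero_of_ev ((hA.mul hB').sub conv_one) fun q hq _ => by
    rw [ev_sub (hA.mul hB') conv_one hq, ev_mul hA hB' hq, hev q hq, ev_one,
      mul_inv_cancel₀ (h0 q hq), sub_self]
  have : B = B' := by
    have h2 : A * B' = 1 := sub_eq_zero.mp h1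
    calc B = B * (A * B') := by rw [h2, mul_one]
      _ = (A * B) * B' := by ring
      _ = B' := by rw [hAB, one_mul]
  rwa [this]

lemma hasSum_expand {A : ℂ⟦X⟧} (hA : Conv A) (p : ℕ) (hp : p ≠ 0) {q : ℂ} (hq : ‖q‖ < 1) :
    HasSum (fun n => coeff n (expand p hp A) * q ^ n) (ev A (q ^ p)) := by
  have hq' : ‖q ^ p‖ < 1 := by rw [norm_pow]; exact pow_lt_one₀ (norm_nonneg _) hq hp
  have hinj : Function.Injective (fun m : ℕ => p * m) := fun a b h => by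
    simpa [hp] using h
  rw [← hinj.hasSum_iff]
  · convert hA.hasSum hq' using 2 with n
    simp [pow_mul]
  · intro n hn
    rw [coeff_expand_of_not_dvd, zero_mul]
    rintro ⟨m, rfl⟩
    exact hn ⟨m, rfl⟩

lemma Conv.expand {A : ℂ⟦X⟧} (hA : Conv A) (p : ℕ) (hp : p ≠ 0) : Conv (expand p hp A) :=
  fun _ hq => (hasSum_expand hA p hp hq).summable

lemma ev_expand {A : ℂ⟦X⟧} (hA : Conv A) (p : ℕ) (hp : p ≠ 0) {q : ℂ} (hq : ‖q‖ < 1) :
    ev (expand p hp A) q = ev A (q ^ p) := (hasSum_expand hA p hp hq).tsum_eq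

/-- The operator `U_p`. -/
noncomputable def Uop {R : Type*} [Semiring R] (p : ℕ) (A : R⟦X⟧) : R⟦X⟧ := mk fun n => coeff (p * n) A

lemma hasSum_Uop {A : ℂ⟦X⟧} (hA : Conv A) {p : ℕ} (hp : p ≠ 0) {ζ w : ℂ}
    (hζ : IsPrimitiveRoot ζ p) (hw : ‖w‖ < 1) :
    HasSum (fun n => coeff n (Uop p A) * (w ^ p) ^ n)
      ((p : ℂ)⁻¹ * ∑ j ∈ Finset.range p, ev A (ζ ^ j * w)) := by
  have hn : ‖ζ‖ = 1 := hζ.norm'_eq_one hp
  have h1 : HasSum (fun n => ∑ j ∈ Finset.range p, coeff n A * (ζ ^ j * w) ^ n)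
      (∑ j ∈ Finset.range p, ev A (ζ ^ j * w)) :=
    hasSum_sum fun j _ => hA.hasSum (by rw [norm_mul, norm_pow, hn]; simpa using hw)
  have h2 := h1.mul_left (p : ℂ)⁻¹
  have hp' : (p : ℂ) ≠ 0 := by exact_mod_cast hp
  have hinj : Function.Injective (fun m : ℕ => p * m) := fun a b h => by
    simpa [hp] using h
  rw [← hinj.hasSum_iff] at h2
  · refine (congrArg (fun f => HasSum f _) (funext fun n => ?_)).mpr h2
    simp only [Uop, coeff_mk, Function.comp]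
    have : ∀ j ∈ Finset.range p, coeff (p * n) A * (ζ ^ j * w) ^ (p * n) =
        coeff (p * n) A * (w ^ p) ^ n := fun j _ => by
      rw [mul_pow, ← pow_mul, mul_comm j, mul_assoc, pow_mul, hζ.pow_eq_one, one_pow, one_mul,
        pow_mul]
    rw [Finset.sum_congr rfl this]
    simp; field_simp
  · intro n hn'
    have hnd : ¬ p ∣ n := by
      rintro ⟨m, rfl⟩
      exact hn' ⟨m, rfl⟩
    have : ∑ j ∈ Finset.range p, coeff n A * (ζ ^ j * w) ^ n =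
        coeff n A * w ^ n * ∑ j ∈ Finset.range p, (ζ ^ n) ^ j := by
      rw [Finset.mul_sum]
      refine Finset.sum_congr rfl fun j _ => ?_
      rw [mul_pow, ← pow_mul, ← pow_mul, mul_comm j]; ring
    rw [this]
    have h3 : ζ ^ n ≠ 1 := fun h => hnd ((hζ.pow_eq_one_iff_dvd n).mp h)
    have h4 : ∑ j ∈ Finset.range p, (ζ ^ n) ^ j = 0 := by
      have h5 := mul_geom_sum (ζ ^ n) p
      rw [← pow_mul, mul_comm n, pow_mul, hζ.pow_eq_one, one_pow, sub_self] at h5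
      exact (mul_eq_zero.mp h5).resolve_left (sub_ne_zero.mpr h3)
    rw [h4]; simp

lemma Conv.uop {A : ℂ⟦X⟧} (hA : Conv A) {p : ℕ} (hp : p ≠ 0) : Conv (Uop p A) := by
  intro q hq
  obtain ⟨w, hw⟩ := IsAlgClosed.exists_pow_nat_eq q (Nat.pos_of_ne_zero hp)
  have hw1 : ‖w‖ < 1 := by
    by_contra h
    have : 1 ≤ ‖w‖ ^ p := one_le_pow₀ (not_lt.mp h)
    rw [← norm_pow, hw] at this
    linarith
  rw [← hw]
  exact (hasSum_Uop hA hp (Complex.isPrimitiveRoot_exp p hp) hw1).summable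

/-- `q = exp (2 π i a τ)` -/
noncomputable def ee (x : ℂ) : ℂ := cexp (2 * π * I * x)

lemma ee_add (x y : ℂ) : ee (x + y) = ee x * ee y := by
  unfold ee; rw [mul_add, Complex.exp_add]

lemma ee_ne_zero (x : ℂ) : ee x ≠ 0 := exp_ne_zero _

lemma ee_zero : ee 0 = 1 := by simp [ee]

lemma ee_int (n : ℤ) : ee n = 1 := by
  unfold ee; rw [mul_comm]; exact exp_int_mul_two_pi_mul_I n

lemma ee_nat_mul (n : ℕ) (x : ℂ) : ee (n * x) = ee x ^ n := by
  unfold ee; rw [← Complex.exp_nat_mul]; congr 1; ring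

lemma norm_ee (x : ℂ) : ‖ee x‖ = Real.exp (-(2 * π * x.im)) := by
  unfold ee; rw [norm_exp]; congr 1; simp

lemma norm_ee_lt {x : ℂ} (hx : 0 < x.im) : ‖ee x‖ < 1 := by
  rw [norm_ee, Real.exp_lt_one_iff]
  have := Real.pi_pos
  have : 0 < 2 * π * x.im := by positivity
  linarith

lemma hasDerivAt_ee (a x : ℂ) :
    HasDerivAt (fun y => ee (a * y)) (2 * π * I * a * ee (a * x)) x := by
  unfold ee
  have h : HasDerivAt (fun y : ℂ => 2 * π * I * (a * y)) (2 * π * I * a) x := by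
    simpa using ((hasDerivAt_id x).const_mul a).const_mul (2 * π * I)
  exact h.cexp.congr_deriv (by ring)

lemma exists_ee {q : ℂ} (hq : ‖q‖ < 1) (h0 : q ≠ 0) : ∃ τ : ℂ, 0 < τ.im ∧ ee τ = q := by
  have h2 : (2 * π * I : ℂ) ≠ 0 := by simp [Real.pi_ne_zero]
  have h1 : ee (log q / (2 * π * I)) = q := by
    unfold ee; rw [mul_div_cancel₀ _ h2, exp_log h0]
  refine ⟨_, ?_, h1⟩
  rw [← h1, norm_ee, Real.exp_lt_one_iff] at hq
  have := Real.pi_pos
  by_contra h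
  have : 2 * π * (log q / (2 * π * I)).im ≤ 0 :=
    mul_nonpos_of_nonneg_of_nonpos (by positivity) (not_lt.mp h)
  linarith

/-- the function `q ^ a * A (q)` on the upper half plane -/
noncomputable def fn (a : ℂ) (A : ℂ⟦X⟧) (τ : ℂ) : ℂ := ee (a * τ) * ev A (ee τ)

/-- the operator `q d/dq` on `q ^ a * A` -/
noncomputable def Dop {R : Type*} [CommRing R] (a : R) (A : R⟦X⟧) : R⟦X⟧ :=
  C a * A + X * d⁄dX R A

lemma Conv.dop {A : ℂ⟦X⟧} (hA : Conv A) (a : ℂ) : Conv (Dop a A) :=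
  ((conv_C a).mul hA).add (conv_X.mul hA.deriv)

lemma hasDerivAt_fn {A : ℂ⟦X⟧} (hA : Conv A) (a : ℂ) {τ : ℂ} (hτ : 0 < τ.im) :
    HasDerivAt (fn a A) (2 * π * I * fn a (Dop a A) τ) τ := by
  have hq := norm_ee_lt hτ
  have h1 := hasDerivAt_ee a τ
  have h2 : HasDerivAt ee (2 * π * I * ee τ) τ := by simpa using hasDerivAt_ee 1 τ
  have h3 := (hA.hasDerivAt hq).comp τ h2
  have h4 := h1.mul h3
  refine h4.congr_deriv ?_
  unfold fn Dop
  rw [ev_add ((conv_C a).mul hA) (conv_X.mul hA.deriv) hq, ev_mul (conv_C a) hA hq,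
    ev_mul conv_X hA.deriv hq, ev_C, ev_X]
  simp only [Function.comp]; ring

lemma fn_mul {A B : ℂ⟦X⟧} (hA : Conv A) (hB : Conv B) (a b : ℂ) {τ : ℂ} (hτ : 0 < τ.im) :
    fn (a + b) (A * B) τ = fn a A τ * fn b B τ := by
  unfold fn; rw [ev_mul hA hB (norm_ee_lt hτ), add_mul, ee_add]; ring

lemma fn_add {A B : ℂ⟦X⟧} (hA : Conv A) (hB : Conv B) (a : ℂ) {τ : ℂ} (hτ : 0 < τ.im) :
    fn a (A + B) τ = fn a A τ + fn a B τ := by
  unfold fn; rw [ev_add hA hB (norm_ee_lt hτ)]; ring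

lemma fn_sub {A B : ℂ⟦X⟧} (hA : Conv A) (hB : Conv B) (a : ℂ) {τ : ℂ} (hτ : 0 < τ.im) :
    fn a (A - B) τ = fn a A τ - fn a B τ := by
  unfold fn; rw [ev_sub hA hB (norm_ee_lt hτ)]; ring

lemma fn_C_mul {A : ℂ⟦X⟧} (hA : Conv A) (c a : ℂ) {τ : ℂ} (hτ : 0 < τ.im) :
    fn a (C c * A) τ = c * fn a A τ := by
  unfold fn; rw [ev_mul (conv_C c) hA (norm_ee_lt hτ), ev_C]; ring

lemma fn_X_pow_mul {A : ℂ⟦X⟧} (hA : Conv A) (a : ℂ) (n : ℕ) {τ : ℂ} (hτ : 0 < τ.im) :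
    fn a (X ^ n * A) τ = fn (a + n) A τ := by
  unfold fn
  rw [ev_mul (conv_X.pow n) hA (norm_ee_lt hτ), ev_pow conv_X n (norm_ee_lt hτ), ev_X, add_mul,
    ee_add, ee_nat_mul]; ring

lemma fn_pow {A : ℂ⟦X⟧} (hA : Conv A) (a : ℂ) (n : ℕ) {τ : ℂ} (hτ : 0 < τ.im) :
    fn (n * a) (A ^ n) τ = fn a A τ ^ n := by
  unfold fn; rw [ev_pow hA n (norm_ee_lt hτ), mul_assoc, ee_nat_mul, mul_pow]

lemma fn_zero_C (c τ : ℂ) : fn 0 (C c) τ = c := by
  unfold fn; rw [ev_C, zero_mul, ee_zero, one_mul]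

lemma fn_expand {A : ℂ⟦X⟧} (hA : Conv A) (p : ℕ) (hp : p ≠ 0) (a : ℂ) {τ : ℂ} (hτ : 0 < τ.im) :
    fn (p * a) (expand p hp A) τ = fn a A (p * τ) := by
  unfold fn; rw [ev_expand hA p hp (norm_ee_lt hτ), ee_nat_mul]; congr 2; ring

lemma eq_zero_of_fn {A : ℂ⟦X⟧} (hA : Conv A) (a : ℂ) (h : ∀ τ : ℂ, 0 < τ.im → fn a A τ = 0) :
    A = 0 := eq_zero_of_ev hA fun q hq h0 => by
  obtain ⟨τ, hτ, rfl⟩ := exists_ee hq h0
  exact (mul_eq_zero.mp (h τ hτ)).resolve_left (ee_ne_zero _)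

lemma fn_Uop {A : ℂ⟦X⟧} (hA : Conv A) {p : ℕ} (hp : p ≠ 0) (h3 : Nat.Coprime 3 p) (e : ℕ)
    {τ : ℂ} (hτ : 0 < τ.im) :
    (p : ℂ)⁻¹ * ∑ j ∈ Finset.range p, fn (-(p * e / 3)) A ((τ + 3 * j) / p) =
      fn (-(e / 3)) (Uop p A) τ := by
  have hp' : (p : ℂ) ≠ 0 := by exact_mod_cast hp
  have hζ : IsPrimitiveRoot (ee (3 / p)) p := by
    have h := (Complex.isPrimitiveRoot_exp p hp).pow_of_coprime 3 h3
    convert h using 1
    unfold ee; rw [← Complex.exp_nat_mul]; congr 1; push_cast; ring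
  have him : 0 < (τ / p).im := by
    rw [div_natCast_im]
    have : (0 : ℝ) < p := by exact_mod_cast Nat.pos_of_ne_zero hp
    positivity
  have h1 := (hasSum_Uop hA hp hζ (norm_ee_lt him)).tsum_eq
  rw [← ee_nat_mul, mul_div_cancel₀ _ hp'] at h1
  unfold fn
  rw [show ev (Uop p A) (ee τ) = _ from h1, ← mul_assoc, mul_comm (ee _), mul_assoc]
  congr 1
  rw [Finset.mul_sum]
  refine Finset.sum_congr rfl fun j _ => ?_
  have e1 : -((p : ℂ) * e / 3) * ((τ + 3 * j) / p) = -(e / 3) * τ + ((-(e * j : ℤ) : ℤ) : ℂ) := by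
    push_cast; field_simp; ring
  have e2 : (τ + 3 * j) / p = (j : ℂ) * (3 / p) + τ / p := by field_simp; ring
  rw [e1, ee_add, ee_int, mul_one, e2, ee_add, ee_nat_mul]

end Pool.Agent.H185Z.L7
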