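import Pool.Agent.H185Z.L7.Conv

/-! Transformation laws of `η (τ) η (7 τ)`. -/

set_option autoImplicit false

open PowerSeries Complex Filter Topology ModularForm
open scoped Real

namespace Pool.Agent.H185Z.L7

/-- Moebius map of an integer matrix -/
noncomputable def mob (a b c d : ℤ) (τ : ℂ) : ℂ := (a * τ + b) / (c * τ + d)

lemma den_ne {a b c d : ℤ} (h : a * d - b * c ≠ 0) {τ : ℂ} (hτ : 0 < τ.im) :
    (c : ℂ) * τ + d ≠ 0 := by
  intro h0
  have h1 := congrArg Complex.im h0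
  have h2 := congrArg Complex.re h0
  simp at h1 h2
  rcases h1 with h1 | h1
  · subst h1
    simp at h2
    subst h2
    simp at h
  · linarith

lemma im_mob (a b c d : ℤ) (τ : ℂ) :
    (mob a b c d τ).im = (a * d - b * c : ℤ) * τ.im / normSq ((c : ℂ) * τ + d) := by
  unfold mob
  rw [div_im]
  simp
  ring

lemma im_mob_pos {a b c d : ℤ} (h : 0 < a * d - b * c) {τ : ℂ} (hτ : 0 < τ.im) :
    0 < (mob a b c d τ).im := by
  rw [im_mob]
  have h1 : (0 : ℝ) < (a * d - b * c : ℤ) := by exact_mod_cast h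
  have h2 := normSq_pos.mpr (den_ne h.ne' hτ)
  positivity

lemma den_mob {a' b' c' d' : ℤ} (c d : ℤ) {τ : ℂ} (h : (c' : ℂ) * τ + d' ≠ 0) :
    (c : ℂ) * mob a' b' c' d' τ + d =
      (((c * a' + d * c' : ℤ) : ℂ) * τ + (c * b' + d * d' : ℤ)) / (c' * τ + d') := by
  unfold mob; rw [eq_div_iff h, add_mul, mul_assoc, div_mul_cancel₀ _ h]; push_cast; ring

lemma mob_mob {a' b' c' d' : ℤ} (a b c d : ℤ) {τ : ℂ} (h : (c' : ℂ) * τ + d' ≠ 0) :
    mob a b c d (mob a' b' c' d' τ) =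
      mob (a * a' + b * c') (a * b' + b * d') (c * a' + d * c') (c * b' + d * d') τ := by
  rw [mob, den_mob a b h, den_mob c d h, div_div_div_cancel_right₀ h]; rfl

lemma sl2_induction (P : ℤ → ℤ → ℤ → ℤ → Prop) (h1 : P 1 0 0 1)
    (hT : ∀ a b c d, a * d - b * c = 1 → P a b c d → P a (b + a) c (d + c))
    (hT' : ∀ a b c d, a * d - b * c = 1 → P a b c d → P a (b - a) c (d - c))
    (hS : ∀ a b c d, a * d - b * c = 1 → P a b c d → P b (-a) d (-c)) :
    ∀ a b c d, a * d - b * c = 1 → P a b c d := by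
  have hk : ∀ (k : ℤ) a b c d, a * d - b * c = 1 → P a b c d → P a (b + k * a) c (d + k * c) := by
    intro k a b c d h hP
    induction k using Int.induction_on with
    | zero => simpa using hP
    | succ k ih =>
      have := hT _ _ _ _ (by linear_combination h) ih
      convert this using 1 <;> ring
    | pred k ih =>
      have := hT' _ _ _ _ (by linear_combination h) ih
      convert this using 1 <;> ring
  have key : ∀ n : ℕ, ∀ a b c d, c.natAbs = n → a * d - b * c = 1 → P a b c d := by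
    intro n
    induction n using Nat.strong_induction_on with
    | _ n ih =>
      intro a b c d hn h
      rcases eq_or_ne c 0 with rfl | hc
      · have had : a * d = 1 := by linear_combination h
        rcases Int.eq_one_or_neg_one_of_mul_eq_one' had with ⟨rfl, rfl⟩ | ⟨rfl, rfl⟩
        · simpa using hk b 1 0 0 1 (by norm_num) h1
        · have h2 := hS _ _ _ _ (by norm_num) (hS _ _ _ _ (by norm_num) h1)
          simpa using hk (-b) _ _ _ _ (by norm_num) h2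
      · have hlt : (-(d % c)).natAbs < n := by
          rw [Int.natAbs_neg, ← hn]
          have h1 := Int.emod_nonneg d hc
          have h2 := Int.emod_lt_abs d hc
          zify
          rwa [abs_of_nonneg h1]
        have hd : d % c + d / c * c = d := by
          have := Int.emod_add_mul_ediv d c
          linarith
        have h2 := ih _ hlt (-(b - d / c * a)) a (-(d % c)) c rfl (by linear_combination h + a * hd)
        have h3 := hS _ _ _ _ (by linear_combination h + a * hd) h2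
        have h4 := hk (d / c) _ _ _ _ (by linear_combination h + a * hd) h3
        convert h4 using 1
        · ring
        · linarith
  exact fun a b c d h => key _ a b c d rfl h

/-- Euler's function as a power series -/
noncomputable def Phi (R : Type*) [CommRing R] : R⟦X⟧ := pentagonalSeries R

lemma tlu_iter {ι : Type*} {l : Filter ι} [l.NeBot] {F : ι → ℂ → ℂ} {f : ℂ → ℂ} {U : Set ℂ}
    (hU : IsOpen U) (h : TendstoLocallyUniformlyOn F f l U)
    (hF : ∀ i, DifferentiableOn ℂ (F i) U) (n : ℕ) :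
    TendstoLocallyUniformlyOn (fun i => iteratedDeriv n (F i)) (iteratedDeriv n f) l U ∧
      ∀ i, DifferentiableOn ℂ (iteratedDeriv n (F i)) U := by
  induction n with
  | zero => simpa using ⟨h, hF⟩
  | succ n ih =>
    simp only [iteratedDeriv_succ]
    exact ⟨ih.1.deriv (Eventually.of_forall ih.2) hU, fun i => (ih.2 i).deriv hU⟩

lemma conv_prod (s : Finset ℕ) : Conv (∏ n ∈ s, (1 - X ^ (n + 1) : ℂ⟦X⟧)) ∧
    ∀ q : ℂ, ‖q‖ < 1 → ev (∏ n ∈ s, (1 - X ^ (n + 1) : ℂ⟦X⟧)) q = ∏ n ∈ s, (1 - q ^ (n + 1)) := by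
  induction s using Finset.induction_on with
  | empty => simpa using ⟨conv_one, fun q _ => ev_one q⟩
  | insert a s ha ih =>
    have h1 : Conv (1 - X ^ (a + 1)) := conv_one.sub (conv_X.pow _)
    rw [Finset.prod_insert ha]
    refine ⟨h1.mul ih.1, fun q hq => ?_⟩
    rw [ev_mul h1 ih.1 hq, ih.2 q hq, Finset.prod_insert ha, ev_sub conv_one (conv_X.pow _) hq,
      ev_one, ev_pow conv_X _ hq, ev_X]

lemma conv_Phi : Conv (Phi ℂ) ∧ ∀ q : ℂ, ‖q‖ < 1 → ev (Phi ℂ) q = ∏' n, (1 - q ^ (n + 1)) := by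
  obtain ⟨A, hA, hev⟩ := exists_taylor differentiableOn_tprod_one_sub_pow
  suffices Phi ℂ = A by rw [this]; exact ⟨hA, hev⟩
  ext n
  have h := multipliableLocallyUniformlyOn_one_sub_pow.hasProdLocallyUniformlyOn
  rw [hasProdLocallyUniformlyOn_iff_tendstoLocallyUniformlyOn] at h
  have h2 := (tlu_iter Metric.isOpen_ball h (fun s => by
    simpa [Finset.prod_fn] using
      DifferentiableOn.finsetProd (fun _ _ ↦ by fun_prop)) n).1.tendsto_at
      (Metric.mem_ball_self one_pos)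
  have h3 : iteratedDeriv n (fun q : ℂ => ∏' n, (1 - q ^ (n + 1))) 0 = n.factorial * coeff n A := by
    rw [← iteratedDeriv_ev hA]
    apply Filter.EventuallyEq.iteratedDeriv_eq
    filter_upwards [Metric.ball_mem_nhds (0 : ℂ) one_pos] with q hq
    exact (hev q (mem_ball_zero_iff.mp hq)).symm
  have h4 : ∀ᶠ s : Finset ℕ in atTop, iteratedDeriv n (fun q : ℂ => ∏ n ∈ s, (1 - q ^ (n + 1))) 0 =
      n.factorial * coeff n (Phi ℂ) := by
    filter_upwards [coeff_prod_one_sub_X_pow_eventually_eq ℂ n] with s hs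
    unfold Phi
    rw [← hs, ← iteratedDeriv_ev (conv_prod s).1]
    apply Filter.EventuallyEq.iteratedDeriv_eq
    filter_upwards [Metric.ball_mem_nhds (0 : ℂ) one_pos] with q hq
    exact ((conv_prod s).2 q (mem_ball_zero_iff.mp hq)).symm
  have h5 := tendsto_nhds_unique (h2.congr' h4) tendsto_const_nhds
  rw [h3] at h5
  have h6 : (n.factorial : ℂ) ≠ 0 := by exact_mod_cast n.factorial_ne_zero
  exact (mul_left_cancel₀ h6 h5).symm

lemma eta_eq_fn {τ : ℂ} (hτ : 0 < τ.im) : η τ = fn (1 / 24) (Phi ℂ) τ := by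
  unfold ModularForm.eta fn
  rw [conv_Phi.2 _ (norm_ee_lt hτ)]
  congr 1
  · unfold ee Function.Periodic.qParam; congr 1; push_cast; ring
  · simp only [eta_q_eq_pow, ee]

lemma ev_Phi_ne {q : ℂ} (hq : ‖q‖ < 1) : ev (Phi ℂ) q ≠ 0 := by
  rcases eq_or_ne q 0 with rfl | h0
  · rw [conv_Phi.2 _ hq]; simp
  · obtain ⟨τ, hτ, rfl⟩ := exists_ee hq h0
    have := eta_ne_zero (z := τ) hτ
    rw [eta_eq_fn hτ] at this
    exact right_ne_zero_of_mul this

lemma fn_add_int (a : ℂ) (A : ℂ⟦X⟧) (τ : ℂ) (n : ℤ) : fn a A (τ + n) = ee (a * n) * fn a A τ := by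
  unfold fn; rw [ee_add, ee_int, mul_one, mul_add, ee_add]; ring

lemma eta_add_int {τ : ℂ} (hτ : 0 < τ.im) (n : ℤ) : η (τ + n) = ee (n / 24) * η τ := by
  rw [eta_eq_fn hτ, eta_eq_fn (by simpa using hτ), fn_add_int]; congr 2; ring

lemma eta_S {τ : ℂ} (hτ : 0 < τ.im) : η (-1 / τ) = (sqrt I)⁻¹ * (sqrt τ * η τ) := by
  simpa using eta_comp_eq_csqrt_I_inv (x := τ) hτ

lemma sqrt_sq' (z : ℂ) : sqrt z ^ 2 = z := by
  unfold Complex.sqrt
  exact_mod_cast Complex.cpow_nat_inv_pow z (n := 2) two_ne_zero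

lemma ne_zero_of_im {τ : ℂ} (hτ : 0 < τ.im) : τ ≠ 0 := by
  rintro rfl; simp at hτ

lemma eta_S_sq {τ : ℂ} (hτ : 0 < τ.im) : η (-1 / τ) ^ 2 = -I * τ * η τ ^ 2 := by
  rw [eta_S hτ, mul_pow, mul_pow, inv_pow, sqrt_sq', sqrt_sq', inv_I]; ring

/-- cube roots of unity -/
noncomputable def om (x : ZMod 3) : ℂ := ZMod.stdAddChar x

lemma om_add (x y : ZMod 3) : om (x + y) = om x * om y := by
  unfold om; rw [AddChar.map_add_eq_mul]

lemma om_zero : om 0 = 1 := by unfold om; rw [AddChar.map_zero_eq_one]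

lemma om_int (n : ℤ) : om n = ee (n / 3) := by
  unfold om ee; rw [ZMod.stdAddChar_coe]; congr 1; push_cast; ring

lemma om_neg_mul (x : ZMod 3) : om (-x) * om x = 1 := by rw [← om_add, neg_add_cancel, om_zero]

lemma om_ne (x : ZMod 3) : om x ≠ 0 := right_ne_zero_of_mul (by rw [om_neg_mul]; exact one_ne_zero)

lemma om_cube (x : ZMod 3) : om x ^ 3 = 1 := by
  have : x + x + x = 0 := by
    have : (3 : ZMod 3) = 0 := rfl
    linear_combination x * this
  rw [← om_zero, ← this, om_add, om_add]; ring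

lemma norm_om (x : ZMod 3) : ‖om x‖ = 1 := by
  have h := congrArg norm (om_cube x)
  rw [norm_pow, norm_one] at h
  exact (pow_eq_one_iff_of_nonneg (norm_nonneg _) three_ne_zero).mp h

/-- exponent of the multiplier of `η ^ 8` -/
def EE (a b c d : ZMod 3) : ZMod 3 := (a + d) * c - b * d * (c ^ 2 - 1)

lemma EE_T : ∀ a b c d : ZMod 3, a * d - b * c = 1 → EE a (b + a) c (d + c) = EE a b c d + 1 := by
  decide
lemma EE_T' : ∀ a b c d : ZMod 3, a * d - b * c = 1 → EE a (b - a) c (d - c) = EE a b c d + -1 := by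
  decide
lemma EE_S : ∀ a b c d : ZMod 3, a * d - b * c = 1 → EE b (-a) d (-c) = EE a b c d := by
  decide

lemma det_cast {a b c d : ℤ} (h : a * d - b * c = 1) (R : Type*) [CommRing R] :
    (a : R) * d - b * c = 1 := by exact_mod_cast congrArg (Int.cast : ℤ → R) h

lemma eta8_add_int {τ : ℂ} (hτ : 0 < τ.im) (n : ℤ) : η (τ + n) ^ 8 = om n * η τ ^ 8 := by
  rw [eta_add_int hτ, mul_pow, ← ee_nat_mul, om_int]; congr 2; push_cast; ring

lemma eta8_law : ∀ a b c d : ℤ, a * d - b * c = 1 → ∀ τ : ℂ, 0 < τ.im →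
    η (mob a b c d τ) ^ 8 = om (EE a b c d) * (c * τ + d) ^ 4 * η τ ^ 8 := by
  refine sl2_induction _ ?_ ?_ ?_ ?_
  · intro τ _
    have : EE ((1 : ℤ) : ZMod 3) ((0 : ℤ) : ZMod 3) ((0 : ℤ) : ZMod 3) ((1 : ℤ) : ZMod 3) = 0 := by
      decide
    rw [this, om_zero]; simp [mob]
  · intro a b c d h ih τ hτ
    have h1 := ih (τ + (1 : ℤ)) (by simpa using hτ)
    rw [eta8_add_int hτ] at h1
    have e : mob a (b + a) c (d + c) τ = mob a b c d (τ + (1 : ℤ)) := by
      unfold mob; push_cast; congr 1 <;> ring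
    rw [e, h1]; push_cast
    rw [EE_T _ _ _ _ (det_cast h _), om_add]; ring
  · intro a b c d h ih τ hτ
    have h1 := ih (τ + (-1 : ℤ)) (by simpa using hτ)
    rw [eta8_add_int hτ] at h1
    have e : mob a (b - a) c (d - c) τ = mob a b c d (τ + (-1 : ℤ)) := by
      unfold mob; push_cast; congr 1 <;> ring
    rw [e, h1]; push_cast
    rw [EE_T' _ _ _ _ (det_cast h _), om_add]; ring
  · intro a b c d h ih τ hτ
    have h0 := ne_zero_of_im hτ
    have him : 0 < (-1 / τ).im := by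
      have := im_mob_pos (a := 0) (b := -1) (c := 1) (d := 0) (by norm_num) hτ
      simpa [mob] using this
    have h1 := ih (-1 / τ) him
    have h2 : η (-1 / τ) ^ 8 = τ ^ 4 * η τ ^ 8 := by
      rw [show 8 = 2 * 4 from rfl, pow_mul, eta_S_sq hτ, pow_mul, mul_pow, mul_pow,
        show (-I) ^ 4 = I ^ 4 by ring, I_pow_four, one_mul]
    have e : mob b (-a) d (-c) τ = mob a b c d (-1 / τ) := by
      have := mob_mob (a' := 0) (b' := -1) (c' := 1) (d' := 0) a b c d (τ := τ) (by simpa using h0)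
      simpa [mob] using this.symm
    rw [e, h1, h2]; push_cast
    rw [EE_S _ _ _ _ (det_cast h _)]; field_simp; ring

/-- `η (τ) η (7 τ)` -/
noncomputable def e7 (τ : ℂ) : ℂ := η τ * η (7 * τ)

lemma im7 {τ : ℂ} (hτ : 0 < τ.im) : 0 < (7 * τ).im := by simpa using hτ

lemma e7_ne {τ : ℂ} (hτ : 0 < τ.im) : e7 τ ≠ 0 :=
  mul_ne_zero (eta_ne_zero hτ) (eta_ne_zero (im7 hτ))

lemma seven_mob (a b c d : ℤ) (τ : ℂ) :
    7 * mob a b (7 * c) d τ = mob a (7 * b) c d (7 * τ) := by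
  unfold mob; push_cast; rw [← mul_div_assoc]; congr 1 <;> ring

lemma eta8_law7 {a b c d : ℤ} (h : a * d - b * (7 * c) = 1) {τ : ℂ} (hτ : 0 < τ.im) :
    η (7 * mob a b (7 * c) d τ) ^ 8 =
      om (EE a b (7 * c : ℤ) d) * ((7 * c : ℤ) * τ + d) ^ 4 * η (7 * τ) ^ 8 := by
  rw [seven_mob, eta8_law _ _ _ _ (by linear_combination h) _ (im7 hτ)]
  have h7 : (7 : ZMod 3) = 1 := rfl
  push_cast
  rw [h7, one_mul, one_mul]; ring

/-- `√7 / i` -/
noncomputable def lam : ℂ := -I * (√7 : ℝ)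

lemma lam_sq : lam ^ 2 = -7 := by
  unfold lam
  rw [mul_pow, ← ofReal_pow, Real.sq_sqrt (by norm_num)]; simp

lemma lam_ne : lam ≠ 0 := by
  intro h; have := lam_sq; rw [h] at this; norm_num at this

lemma e7_W {τ : ℂ} (hτ : 0 < τ.im) : e7 (-1 / (7 * τ)) = lam * τ * e7 τ := by
  have h0 := ne_zero_of_im hτ
  unfold e7
  rw [show 7 * (-1 / (7 * τ)) = -1 / τ by field_simp, eta_S hτ, eta_S (im7 hτ)]
  have h1 : sqrt (7 * τ) = (√7 : ℝ) * sqrt τ := by
    unfold Complex.sqrt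
    rw [cpow_def_of_ne_zero (by simpa using h0), cpow_def_of_ne_zero h0,
      show (7 : ℂ) = ((7 : ℝ) : ℂ) by simp, log_ofReal_mul (by norm_num) h0, add_mul,
      Complex.exp_add, Real.sqrt_eq_rpow, Real.rpow_def_of_pos (by norm_num)]
    push_cast; congr 2; ring
  have h2 := sqrt_sq' τ
  have h3 : (sqrt I)⁻¹ ^ 2 = -I := by rw [inv_pow, sqrt_sq', inv_I]
  rw [h1]; unfold lam
  linear_combination ((√7 : ℝ) * sqrt τ ^ 2 * η τ * η (7 * τ)) * h3 +
    (-I * (√7 : ℝ) * η τ * η (7 * τ)) * h2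

lemma e7_add_int {τ : ℂ} (hτ : 0 < τ.im) (n : ℤ) : e7 (τ + n) = om n * e7 τ := by
  unfold e7
  rw [eta_add_int hτ, show 7 * (τ + n) = 7 * τ + (7 * n : ℤ) by push_cast; ring,
    eta_add_int (im7 hτ), om_int, show (n : ℂ) / 3 = n / 24 + (7 * n : ℤ) / 24 by push_cast; ring,
    ee_add]; ring

/-- the quadratic character modulo 7 -/
def chi (x : ZMod 7) : ℤ := if x = 0 then 0 else if x ^ 3 = 1 then 1 else -1

lemma chi_mul : ∀ x y : ZMod 7, chi (x * y) = chi x * chi y := by decide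
lemma chi_sq : ∀ x y : ZMod 7, x * y = 1 → chi y * chi y = 1 := by decide

/-- the law of `e7 ^ 3` -/
def Law3 (a b c d : ℤ) : Prop := 7 ∣ c ∧ a * d - b * c = 1 ∧ ∀ τ : ℂ, 0 < τ.im →
  e7 (mob a b c d τ) ^ 3 = chi d * (c * τ + d) ^ 3 * e7 τ ^ 3

lemma Law3.mul {a b c d a' b' c' d' : ℤ} (h : Law3 a b c d) (h' : Law3 a' b' c' d') :
    Law3 (a * a' + b * c') (a * b' + b * d') (c * a' + d * c') (c * b' + d * d') := by
  obtain ⟨h1, h2, h3⟩ := h
  obtain ⟨h1', h2', h3'⟩ := h'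
  refine ⟨(h1.mul_right _).add (h1'.mul_left _), by linear_combination (a' * d' - b' * c') * h2 + h2',
    fun τ hτ => ?_⟩
  have hd := den_ne (a := a') (b := b') (c := c') (d := d') (by omega) hτ
  rw [← mob_mob a b c d hd, h3 _ (im_mob_pos (by omega) hτ), h3' τ hτ, den_mob c d hd]
  have hc : (c : ZMod 7) = 0 := (ZMod.intCast_zmod_eq_zero_iff_dvd c 7).mpr h1
  have : chi ((c * b' + d * d' : ℤ) : ZMod 7) = chi d * chi d' := by
    push_cast; rw [hc, zero_mul, zero_add, chi_mul]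
  rw [this]; push_cast; field_simp

lemma law3_T (k : ℤ) : Law3 1 k 0 1 := by
  refine ⟨by simp, by simp, fun τ hτ => ?_⟩
  have : chi ((1 : ℤ) : ZMod 7) = 1 := by decide
  rw [this, show mob 1 k 0 1 τ = τ + k by simp [mob], e7_add_int hτ, mul_pow, om_cube]; simp

lemma law3_neg : Law3 (-1) 0 0 (-1) := by
  refine ⟨by simp, by simp, fun τ hτ => ?_⟩
  have : chi ((-1 : ℤ) : ZMod 7) = -1 := by decide
  rw [this, show mob (-1) 0 0 (-1) τ = τ by simp [mob]]; push_cast; ring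

lemma im_W {τ : ℂ} (hτ : 0 < τ.im) : 0 < (-1 / (7 * τ)).im := by
  have := im_mob_pos (a := 0) (b := -1) (c := 7) (d := 0) (by norm_num) hτ
  simpa [mob] using this

lemma law3_U (k : ℤ) : Law3 1 0 (7 * k) 1 := by
  refine ⟨by simp, by simp, fun τ hτ => ?_⟩
  have h0 := ne_zero_of_im hτ
  have : chi ((1 : ℤ) : ZMod 7) = 1 := by decide
  have hd := den_ne (a := 1) (b := 0) (c := 7 * k) (d := 1) (by simp) hτ
  have hW := im_W hτ
  have hW' : 0 < (-1 / (7 * τ) + (-k : ℤ)).im := by simpa using hW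
  have e : mob 1 0 (7 * k) 1 τ = -1 / (7 * (-1 / (7 * τ) + (-k : ℤ))) := by
    have e1 : 7 * (-1 / (7 * τ) + (-k : ℤ)) = -(((7 * k : ℤ) : ℂ) * τ + (1 : ℤ)) / τ := by
      push_cast; field_simp; ring
    rw [e1]; unfold mob; field_simp; simp
  rw [this, e, e7_W hW', e7_add_int hW, e7_W hτ]
  have h3 := om_cube (((-k : ℤ) : ZMod 3))
  have h4 := lam_sq
  have e2 : lam * (-1 / (7 * τ) + (-k : ℤ)) * (om ((-k : ℤ) : ZMod 3) * (lam * τ * e7 τ)) =
      om ((-k : ℤ) : ZMod 3) * ((((7 * k : ℤ) : ℂ) * τ + (1 : ℤ)) * e7 τ) := by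
    have e3 : lam * (-1 / (7 * τ) + (-k : ℤ)) * (om ((-k : ℤ) : ZMod 3) * (lam * τ * e7 τ)) =
      lam ^ 2 * ((-1 / (7 * τ) + (-k : ℤ)) * τ) * om ((-k : ℤ) : ZMod 3) * e7 τ := by ring
    rw [e3, h4]; push_cast; field_simp; ring
  rw [e2, mul_pow, h3]; push_cast; ring

lemma e7_8_law {a b c d : ℤ} (h : a * d - b * (7 * c) = 1) {τ : ℂ} (hτ : 0 < τ.im) :
    e7 (mob a b (7 * c) d τ) ^ 8 =
      om (EE a b (7 * c : ℤ) d) ^ 2 * ((7 * c : ℤ) * τ + d) ^ 8 * e7 τ ^ 8 := by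
  unfold e7
  rw [mul_pow, eta8_law7 h hτ, eta8_law _ _ _ _ h τ hτ]; ring

lemma differentiableAt_e7 {τ : ℂ} (hτ : 0 < τ.im) : DifferentiableAt ℂ e7 τ :=
  (differentiableAt_eta_of_mem_upperHalfPlaneSet hτ).mul
    ((differentiableAt_eta_of_mem_upperHalfPlaneSet (im7 hτ)).comp τ (by fun_prop))

lemma law3_ell {a b d t : ℤ} (h : a * d - b * 7 = 1) (ht : a + d = t) (ht2 : t ^ 2 = 1)
    (hchi : chi d = -t) : Law3 a b 7 d := by
  refine ⟨by simp, h, ?_⟩
  have hS : IsPreconnected {τ : ℂ | 0 < τ.im} := (convex_halfSpace_im_gt 0).isPreconnected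
  set f : ℂ → ℂ := fun τ => e7 (mob a b 7 d τ) ^ 3 with hf
  set g : ℂ → ℂ := fun τ => chi d * ((7 : ℤ) * τ + d) ^ 3 * e7 τ ^ 3 with hg
  have hden : ∀ τ : ℂ, 0 < τ.im → ((7 : ℤ) : ℂ) * τ + d ≠ 0 := fun τ hτ =>
    den_ne (a := a) (b := b) (by omega) hτ
  have hfc : ContinuousOn f {τ : ℂ | 0 < τ.im} := fun τ hτ => by
    have h1 : ContinuousAt (mob a b 7 d) τ := by
      unfold mob
      exact ContinuousAt.div (by fun_prop) (by fun_prop) (hden τ hτ)
    exact (((differentiableAt_e7 (im_mob_pos (by omega) hτ)).continuousAt.comp h1).pow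
      3).continuousWithinAt
  have hgc : ContinuousOn g {τ : ℂ | 0 < τ.im} := fun τ hτ =>
    (ContinuousAt.mul (by fun_prop) ((differentiableAt_e7 hτ).continuousAt.pow 3)).continuousWithinAt
  have ht2' : (t : ℂ) ^ 2 = 1 := by exact_mod_cast ht2
  have ht0 : (t : ℂ) ≠ 0 := by intro h0; rw [h0] at ht2'; norm_num at ht2'
  have hg0 : ∀ {τ : ℂ}, τ ∈ {τ : ℂ | 0 < τ.im} → g τ ≠ 0 := fun {τ} hτ => by
    simp only [hg, hchi]
    exact mul_ne_zero (mul_ne_zero (by simpa using ht0) (pow_ne_zero _ (hden τ hτ)))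
      (pow_ne_zero _ (e7_ne hτ))
  set ζ : ℂ := (t + (√3 : ℝ) * I) / 2 with hζ
  have h3 : ((√3 : ℝ) : ℂ) ^ 2 = 3 := by rw [← ofReal_pow, Real.sq_sqrt (by norm_num)]; simp
  have hζ2 : ζ ^ 2 - t * ζ + 1 = 0 := by
    rw [hζ]; linear_combination (-1 / 4 : ℂ) * ht2' + (I ^ 2 / 4) * h3 + (3 / 4 : ℂ) * I_sq
  have hζ3 : ζ ^ 3 = -t := by linear_combination (ζ + t) * hζ2 + ζ * ht2'
  set τ0 : ℂ := (ζ - d) / 7 with hτ0
  have him : 0 < τ0.im := by
    rw [hτ0, hζ]; simp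
  have hd0 : ((7 : ℤ) : ℂ) * τ0 + d = ζ := by rw [hτ0]; push_cast; ring
  have hfix : mob a b 7 d τ0 = τ0 := by
    unfold mob
    rw [div_eq_iff (hden τ0 him), hd0, hτ0]
    have h1 : (a : ℂ) * d - b * 7 = 1 := by exact_mod_cast h
    have h2 : (a : ℂ) + d = t := by exact_mod_cast ht
    linear_combination (-1 / 7 : ℂ) * hζ2 - (1 / 7 : ℂ) * h1 + (ζ / 7) * h2
  have hfg : f τ0 = g τ0 := by
    simp only [hf, hg, hfix, hd0, hζ3, hchi]; push_cast
    linear_combination (-e7 τ0 ^ 3) * ht2'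
  have h8 : Set.EqOn ((f ^ 4) ^ 2) ((g ^ 4) ^ 2) {τ : ℂ | 0 < τ.im} := fun τ hτ => by
    have h1 := e7_8_law (a := a) (b := b) (c := 1) (d := d) (by simpa using h) hτ
    have h2 := om_cube (EE a b (7 * 1 : ℤ) d)
    simp only [mul_one] at h1 h2
    simp only [hf, hg, Pi.pow_apply, hchi]
    have e1 : ((e7 (mob a b 7 d τ) ^ 3) ^ 4) ^ 2 = (e7 (mob a b 7 d τ) ^ 8) ^ 3 := by ring
    rw [e1, h1]
    have e2 : (((-t : ℤ) : ℂ)) ^ 8 = 1 := by
      push_cast; rw [show (-(t : ℂ)) ^ 8 = ((t : ℂ) ^ 2) ^ 4 by ring, ht2']; simp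
    calc _ = (om (EE a b (7 : ℤ) d) ^ 3) ^ 2 * (((7 : ℤ) * τ + d) ^ 8 * e7 τ ^ 8) ^ 3 := by ring
      _ = (((-t : ℤ) : ℂ)) ^ 8 * (((7 : ℤ) * τ + d) ^ 8 * e7 τ ^ 8) ^ 3 := by rw [h2, e2]; simp
      _ = _ := by ring
  have h4 := hS.eq_of_sq_eq (hfc.pow 4) (hgc.pow 4) h8 (fun hx => pow_ne_zero _ (hg0 hx)) him
    (by simp [hfg])
  have h4' : Set.EqOn ((f ^ 2) ^ 2) ((g ^ 2) ^ 2) {τ : ℂ | 0 < τ.im} := fun τ hτ => by
    have := h4 hτ
    simp only [Pi.pow_apply] at this ⊢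
    linear_combination this
  have h2 := hS.eq_of_sq_eq (hfc.pow 2) (hgc.pow 2) h4' (fun hx => pow_ne_zero _ (hg0 hx)) him
    (by simp [hfg])
  have h1 := hS.eq_of_sq_eq hfc hgc h2 hg0 him hfg
  exact fun τ hτ => h1 hτ

lemma Law3.congr {a b c d a' b' c' d' : ℤ} (h : Law3 a b c d) (ha : a = a') (hb : b = b')
    (hc : c = c') (hd : d = d') : Law3 a' b' c' d' := by
  subst ha hb hc hd; exact h

lemma law3_base (j j' : ℤ) (hj : j = 1 ∨ j = -1 ∨ j = 2 ∨ j = -2 ∨ j = 3 ∨ j = -3)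
    (h : 7 ∣ 1 + j * j') : Law3 (-j') (-1) (1 + j * j') j := by
  rcases hj with rfl | rfl | rfl | rfl | rfl | rfl
  · obtain ⟨k, rfl⟩ : ∃ k, j' = -1 + 7 * k := ⟨(j' + 1) / 7, by omega⟩
    exact ((law3_T (-1)).mul (law3_U k)).congr (by ring) (by ring) (by ring) (by ring)
  · obtain ⟨k, rfl⟩ : ∃ k, j' = 1 + 7 * k := ⟨(j' - 1) / 7, by omega⟩
    exact ((law3_neg.mul (law3_T 1)).mul (law3_U k)).congr (by ring) (by ring) (by ring) (by ring)
  · obtain ⟨k, rfl⟩ : ∃ k, j' = 3 + 7 * k := ⟨(j' - 3) / 7, by omega⟩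
    exact ((law3_ell (a := -3) (b := -1) (d := 2) (t := -1) (by norm_num) (by norm_num)
      (by norm_num) (by decide)).mul (law3_U k)).congr (by ring) (by ring) (by ring) (by ring)
  · obtain ⟨k, rfl⟩ : ∃ k, j' = -3 + 7 * k := ⟨(j' + 3) / 7, by omega⟩
    exact ((law3_ell (a := 3) (b := -1) (d := -2) (t := 1) (by norm_num) (by norm_num)
      (by norm_num) (by decide)).mul (law3_U k)).congr (by ring) (by ring) (by ring) (by ring)
  · obtain ⟨k, rfl⟩ : ∃ k, j' = 2 + 7 * k := ⟨(j' - 2) / 7, by omega⟩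
    exact ((law3_ell (a := -2) (b := -1) (d := 3) (t := 1) (by norm_num) (by norm_num)
      (by norm_num) (by decide)).mul (law3_U k)).congr (by ring) (by ring) (by ring) (by ring)
  · obtain ⟨k, rfl⟩ : ∃ k, j' = -2 + 7 * k := ⟨(j' + 2) / 7, by omega⟩
    exact ((law3_ell (a := 2) (b := -1) (d := -3) (t := -1) (by norm_num) (by norm_num)
      (by norm_num) (by decide)).mul (law3_U k)).congr (by ring) (by ring) (by ring) (by ring)

lemma law3_all : ∀ a b c d : ℤ, a * d - b * c = 1 → (7 ∣ c → Law3 a b c d) ∧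
    ∀ j : ℤ, 7 ∣ d - j * c → Law3 (j * a - b) a (j * c - d) c := by
  refine sl2_induction _ ?_ ?_ ?_ ?_
  · exact ⟨fun _ => law3_T 0, fun j hj => by omega⟩
  · intro a b c d h ih
    refine ⟨fun hc => ((ih.1 hc).mul (law3_T 1)).congr (by ring) (by ring) (by ring) (by ring),
      fun j hj => ?_⟩
    exact (ih.2 (j - 1) (by convert hj using 1; ring)).congr (by ring) (by ring) (by ring) (by ring)
  · intro a b c d h ih
    refine ⟨fun hc => ((ih.1 hc).mul (law3_T (-1))).congr (by ring) (by ring) (by ring) (by ring),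
      fun j hj => ?_⟩
    exact (ih.2 (j + 1) (by convert hj using 1; ring)).congr (by ring) (by ring) (by ring) (by ring)
  · intro a b c d h ih
    refine ⟨fun hd => ((ih.2 0 (by simpa using hd)).mul law3_neg).congr (by ring) (by ring)
      (by ring) (by ring), fun j' hj => ?_⟩
    have h7 := det_cast h (ZMod 7)
    have hj7 : -(c : ZMod 7) - j' * d = 0 := by
      exact_mod_cast (ZMod.intCast_zmod_eq_zero_iff_dvd _ 7).mpr hj
    by_cases hc : (7 : ℤ) ∣ c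
    · have hc7 : (c : ZMod 7) = 0 := (ZMod.intCast_zmod_eq_zero_iff_dvd c 7).mpr hc
      have : (j' : ZMod 7) = 0 := by
        linear_combination (-(a : ZMod 7)) * hj7 - j' * h7 - (a + j' * b) * hc7
      obtain ⟨k, rfl⟩ := (ZMod.intCast_zmod_eq_zero_iff_dvd j' 7).mp this
      exact ((ih.1 hc).mul (law3_U k)).congr (by push_cast; ring) (by ring) (by push_cast; ring)
        (by ring)
    · have hc7 : (c : ZMod 7) ≠ 0 := fun h0 => hc ((ZMod.intCast_zmod_eq_zero_iff_dvd c 7).mp h0)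
      have key : ∀ c d j' : ZMod 7, c ≠ 0 → -c - j' * d = 0 →
          ∃ j : ℤ, (j = 1 ∨ j = -1 ∨ j = 2 ∨ j = -2 ∨ j = 3 ∨ j = -3) ∧ d - j * c = 0 ∧
            1 + j * j' = 0 := by
        intro c d j' h1 h2
        have : ∀ c d j' : ZMod 7, c ≠ 0 → -c - j' * d = 0 →
          (d - (1 : ℤ) * c = 0 ∧ 1 + (1 : ℤ) * j' = 0) ∨ (d - (-1 : ℤ) * c = 0 ∧ 1 + (-1 : ℤ) * j' = 0) ∨
          (d - (2 : ℤ) * c = 0 ∧ 1 + (2 : ℤ) * j' = 0) ∨ (d - (-2 : ℤ) * c = 0 ∧ 1 + (-2 : ℤ) * j' = 0) ∨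
          (d - (3 : ℤ) * c = 0 ∧ 1 + (3 : ℤ) * j' = 0) ∨
          (d - (-3 : ℤ) * c = 0 ∧ 1 + (-3 : ℤ) * j' = 0) := by decide
        rcases this c d j' h1 h2 with h | h | h | h | h | h
        exacts [⟨_, by simp, h⟩, ⟨_, by simp, h⟩, ⟨_, by simp, h⟩, ⟨_, by simp, h⟩, ⟨_, by simp, h⟩,
          ⟨_, by simp, h⟩]
      obtain ⟨j, hj1, hj2, hj3⟩ := key _ _ _ hc7 hj7
      have hj2' : (7 : ℤ) ∣ d - j * c :=
        (ZMod.intCast_zmod_eq_zero_iff_dvd _ 7).mp (by exact_mod_cast hj2)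
      have hj3' : (7 : ℤ) ∣ 1 + j * j' :=
        (ZMod.intCast_zmod_eq_zero_iff_dvd _ 7).mp (by exact_mod_cast hj3)
      exact ((ih.2 j hj2').mul (law3_base j j' hj1 hj3')).congr (by ring) (by ring) (by ring)
        (by ring)

lemma chi_sq' {a b c d : ℤ} (h : a * d - b * (7 * c) = 1) :
    ((chi d : ℤ) : ℂ) * chi d = 1 := by
  have h7 := det_cast h (ZMod 7)
  have : (a : ZMod 7) * d = 1 := by
    have h0 : (7 : ZMod 7) = 0 := rfl
    push_cast at h7
    linear_combination h7 + b * c * h0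
  exact_mod_cast chi_sq _ _ this

lemma e7_law {a b c d : ℤ} (h : a * d - b * (7 * c) = 1) {τ : ℂ} (hτ : 0 < τ.im) :
    e7 (mob a b (7 * c) d τ) =
      om (EE a b (7 * c : ℤ) d) * (chi d * ((7 * c : ℤ) * τ + d)) * e7 τ := by
  have h3 := ((law3_all _ _ _ _ h).1 (by simp)).2.2 τ hτ
  have h8 := e7_8_law h hτ
  have hne := e7_ne (im_mob_pos (a := a) (b := b) (c := 7 * c) (d := d) (by omega) hτ)
  have hc := chi_sq' h
  have ho := om_cube (EE a b (7 * c : ℤ) d)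
  apply mul_left_cancel₀ (pow_ne_zero 8 hne)
  have e : e7 (mob a b (7 * c) d τ) ^ 8 * e7 (mob a b (7 * c) d τ) =
    (e7 (mob a b (7 * c) d τ) ^ 3) ^ 3 := by ring
  rw [e, h3, h8]
  linear_combination ((chi d : ℤ) * (((7 * c : ℤ) * τ + d) ^ 9 * e7 τ ^ 9)) * hc -
    ((chi d : ℤ) * (((7 * c : ℤ) * τ + d) ^ 9 * e7 τ ^ 9)) * ho

end Pool.Agent.H185Z.L7
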