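import Pool.Agent.H185Z.L7.Seven

/-! Identification of the sequence and the final congruence. -/

set_option autoImplicit false

open PowerSeries

namespace Pool.Agent.H185Z.L7

/-- the summand -/
def aa (n j : ℕ) : ℚ := (n.choose j : ℚ) ^ 2 * (2 * j).choose n * (n + j).choose j

/-- the base term -/
def bb (n j : ℕ) : ℚ := ((n + 2).choose j : ℚ) ^ 2 * (2 * j).choose n * (n + j).choose j

/-- the certificate -/
def GG (n j : ℕ) : ℚ := (44 - 78 * j + 22 * j ^ 2 + 72 * n - 91 * n * j + 15 * n * j ^ 2 +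
  39 * n ^ 2 - 26 * n ^ 2 * j + 7 * n ^ 3) * (j ^ 2 * (2 * j - n) * (2 * j - 1 - n) * bb n j)

lemma ch1 (n j : ℕ) : ((n + 1).choose j : ℚ) * (n + 1 - j) = n.choose j * (n + 1) := by
  rcases le_or_gt j (n + 1) with h | h
  · have := Nat.choose_mul_succ_eq n j
    have h2 := congrArg (Nat.cast : ℕ → ℚ) this
    push_cast [Nat.cast_sub h] at h2
    linear_combination -h2
  · rw [Nat.choose_eq_zero_of_lt h, Nat.choose_eq_zero_of_lt (by omega)]; simp

lemma ch2 (n j : ℕ) : (n.choose (j + 1) : ℚ) * (j + 1) = n.choose j * (n - j) := by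
  rcases le_or_gt j n with h | h
  · have h2 := congrArg (Nat.cast : ℕ → ℚ) (Nat.choose_succ_right_eq n j)
    push_cast [Nat.cast_sub h] at h2
    exact h2
  · rw [Nat.choose_eq_zero_of_lt h, Nat.choose_eq_zero_of_lt (by omega)]; simp

lemma wz (n j : ℕ) : ((n : ℚ) + 1) ^ 2 * (n + 2) ^ 2 * ((n + 2) ^ 3 * aa (n + 2) j -
    (2 * (n + 1) + 1) * (13 * (n + 1) ^ 2 + 13 * (n + 1) + 4) * aa (n + 1) j -
    3 * (n + 1) * (9 * (n + 1) ^ 2 - 1) * aa n j) = GG n (j + 1) - GG n j := by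
  have n1 : (n : ℚ) + 1 ≠ 0 := by positivity
  have n2 : (n : ℚ) + 2 ≠ 0 := by positivity
  have j1 : (j : ℚ) + 1 ≠ 0 := by positivity
  have a1 : ((n + 1).choose j : ℚ) = (n + 2).choose j * (n + 2 - j) / (n + 2) := by
    have := ch1 (n + 1) j
    push_cast at this
    rw [eq_div_iff n2]; linear_combination -this
  have a0 : (n.choose j : ℚ) = (n + 1).choose j * (n + 1 - j) / (n + 1) := by
    rw [eq_div_iff n1]; linear_combination -ch1 n j
  have b1 : ((2 * j).choose (n + 1) : ℚ) = (2 * j).choose n * (2 * j - n) / (n + 1) := by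
    have := ch2 (2 * j) n
    push_cast at this
    rw [eq_div_iff n1]; linear_combination this
  have b2 : ((2 * j).choose (n + 2) : ℚ) = (2 * j).choose (n + 1) * (2 * j - n - 1) / (n + 2) := by
    have := ch2 (2 * j) (n + 1)
    push_cast at this
    rw [eq_div_iff n2]; linear_combination this
  have c1 : ((n + 1 + j).choose j : ℚ) = (n + j).choose j * (n + j + 1) / (n + 1) := by
    have := ch1 (n + j) j
    push_cast at this
    rw [eq_div_iff n1, show n + 1 + j = n + j + 1 by ring]; linear_combination this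
  have c2 : ((n + 2 + j).choose j : ℚ) = (n + 1 + j).choose j * (n + j + 2) / (n + 2) := by
    have := ch1 (n + 1 + j) j
    push_cast at this
    rw [eq_div_iff n2, show n + 2 + j = n + 1 + j + 1 by ring]; linear_combination this
  have d1 : ((n + 2).choose (j + 1) : ℚ) = (n + 2).choose j * (n + 2 - j) / (j + 1) := by
    have := ch2 (n + 2) j
    push_cast at this
    rw [eq_div_iff j1]; linear_combination this
  have d2 : (2 * ((j : ℚ) + 1) - n) * (2 * (j + 1) - 1 - n) * (2 * (j + 1)).choose n =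
      (2 * j).choose n * (2 * j + 1) * (2 * j + 2) := by
    have h1 := ch1 (2 * j) n
    have h2 := ch1 (2 * j + 1) n
    push_cast at h1 h2
    rw [show 2 * (j + 1) = 2 * j + 1 + 1 by ring]
    linear_combination (2 * (j : ℚ) + 1 - n) * h2 + (2 * j + 2) * h1
  have d3 : ((n + (j + 1)).choose (j + 1) : ℚ) = (n + j).choose j * (n + j + 1) / (j + 1) := by
    have h := congrArg (Nat.cast : ℕ → ℚ) (Nat.add_one_mul_choose_eq (n + j) j)
    push_cast at h
    rw [eq_div_iff j1, show n + (j + 1) = n + j + 1 by ring]; linear_combination -h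
  have e : ((j : ℚ) + 1) ^ 2 * (2 * (j + 1) - n) * (2 * (j + 1) - 1 - n) * bb n (j + 1) =
      2 * (n + 2 - j) ^ 2 * (2 * j + 1) * (n + j + 1) * bb n j := by
    unfold bb
    rw [eq_div_iff j1] at d1 d3
    apply mul_left_cancel₀ j1
    calc _ = (((n + 2).choose (j + 1) : ℚ) * (j + 1)) ^ 2 *
        ((2 * ((j : ℚ) + 1) - n) * (2 * (j + 1) - 1 - n) * (2 * (j + 1)).choose n) *
        (((n + (j + 1)).choose (j + 1) : ℚ) * (j + 1)) := by ring
      _ = _ := by rw [d1, d2, d3]; ring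
  unfold GG
  push_cast
  rw [e]
  unfold aa bb
  rw [c2, c1, b2, b1, a0, a1]
  field_simp
  ring

/-- the level seven sequence -/
def TT (n : ℕ) : ℚ := ∑ j ∈ Finset.range (n + 1), aa n j

lemma TT_ext (n k : ℕ) : ∑ j ∈ Finset.range (n + 1 + k), aa n j = TT n := by
  induction k with
  | zero => rfl
  | succ k ih =>
    rw [← add_assoc, Finset.sum_range_succ, ih, aa, Nat.choose_eq_zero_of_lt (by omega)]; simp

lemma TT_rec (n : ℕ) : ((n : ℚ) + 2) ^ 3 * TT (n + 2) =
    (2 * (n + 1) + 1) * (13 * (n + 1) ^ 2 + 13 * (n + 1) + 4) * TT (n + 1) +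
    3 * (n + 1) * (9 * (n + 1) ^ 2 - 1) * TT n := by
  have h := Finset.sum_congr rfl fun j (_ : j ∈ Finset.range (n + 3)) => wz n j
  rw [Finset.sum_range_sub (fun j => GG n j), ← Finset.mul_sum, Finset.sum_sub_distrib,
    Finset.sum_sub_distrib, ← Finset.mul_sum, ← Finset.mul_sum, ← Finset.mul_sum,
    TT_ext n 2, TT_ext (n + 1) 1, TT_ext (n + 2) 0] at h
  have h1 : GG n (n + 3) = 0 := by
    unfold GG bb; rw [Nat.choose_eq_zero_of_lt (by omega)]; simp
  have h2 : GG n 0 = 0 := by unfold GG; simp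
  rw [h1, h2, sub_zero] at h
  have h3 : ((n : ℚ) + 1) ^ 2 * (n + 2) ^ 2 ≠ 0 := by positivity
  linear_combination (mul_eq_zero.mp h).resolve_left h3

/-- generating series of `tau` -/
noncomputable def FF : ℚ⟦X⟧ := mk fun n => (tau n : ℚ)

lemma FF_ode : (1 - 26 * X - 27 * X ^ 2) * Dop 0 (Dop 0 FF) - (13 * X + 27 * X ^ 2) * Dop 0 FF -
    (2 * X + 6 * X ^ 2) * FF = 0 := by
  have e : (1 - 26 * X - 27 * X ^ 2) * Dop 0 (Dop 0 FF) - (13 * X + 27 * X ^ 2) * Dop 0 FF -
      (2 * X + 6 * X ^ 2) * FF = Dop 0 (Dop 0 FF) -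
      X * (C 26 * Dop 0 (Dop 0 FF) + C 13 * Dop 0 FF + C 2 * FF +
        X * (C 27 * Dop 0 (Dop 0 FF) + C 27 * Dop 0 FF + C 6 * FF)) := by
    simp only [map_ofNat]; ring
  rw [e]
  ext n
  rcases n with _ | _ | n
  · rw [map_sub, coeff_zero_X_mul, coeff_Dop]; simp
  · simp only [map_sub, map_add, coeff_succ_X_mul, coeff_zero_X_mul, coeff_C_mul, coeff_Dop, FF,
      coeff_mk, tau_zero, zero_add, tau_one]
    simp
  · have h := congrArg (Int.cast : ℤ → ℚ) (tau_rec n)
    simp only [map_sub, map_add, coeff_succ_X_mul, coeff_C_mul, coeff_Dop, FF, coeff_mk, map_zero]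
    push_cast at h ⊢
    rw [show n + 1 + 1 = n + 2 by ring]
    linear_combination h

lemma sq_ode : Dop 0 (Dop 0 (Dop 0 (FF ^ 2))) =
    X * (C 26 * Dop 0 (Dop 0 (Dop 0 (FF ^ 2))) + C 39 * Dop 0 (Dop 0 (FF ^ 2)) +
      C 21 * Dop 0 (FF ^ 2) + C 4 * FF ^ 2 + X * (C 27 * Dop 0 (Dop 0 (Dop 0 (FF ^ 2))) +
        C 81 * Dop 0 (Dop 0 (FF ^ 2)) + C 78 * Dop 0 (FF ^ 2) + C 24 * FF ^ 2)) := by
  have hm : ∀ A B : ℚ⟦X⟧, Dop 0 (A * B) = Dop 0 A * B + A * Dop 0 B :=
    Dop_mul (by simp)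
  have hX : Dop 0 (X : ℚ⟦X⟧) = X := by simp [Dop]
  have hc : ∀ c : ℚ, Dop 0 (C c : ℚ⟦X⟧) = 0 := Dop_C
  have h1 := FF_ode
  have h2 := congrArg (Dop 0) FF_ode
  rw [← map_ofNat C 26, ← map_ofNat C 27, ← map_ofNat C 13, ← map_ofNat C 2, ← map_ofNat C 6,
    ← map_one C, ← map_zero C] at h2
  simp only [sq, hm, Dop_add, Dop_sub, hX, hc] at h2 ⊢
  simp only [map_ofNat, map_one, map_zero] at h2 ⊢
  linear_combination 2 * FF * h2 + 6 * Dop 0 FF * h1

lemma FF_sq (n : ℕ) : coeff n (FF ^ 2) = TT n := by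
  have h0 : coeff 0 (FF ^ 2) = TT 0 := by
    simp [sq, FF, TT, aa, tau_zero]
  have h1 : coeff 1 (FF ^ 2) = TT 1 := by
    simp [sq, FF, TT, aa, tau_zero, tau_one, coeff_mul, Finset.Nat.antidiagonal_succ,
      Finset.sum_range_succ]
    norm_num
  induction n using Nat.twoStepInduction with
  | zero => exact h0
  | one => exact h1
  | more n ih0 ih1 =>
    have h := congrArg (coeff (n + 2)) sq_ode
    simp only [map_add, coeff_succ_X_mul, coeff_C_mul, coeff_Dop, ih0, ih1] at h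
    have h3 : ((n : ℚ) + 2) ^ 3 ≠ 0 := by positivity
    apply mul_left_cancel₀ h3
    rw [TT_rec]
    push_cast at h
    linear_combination h

theorem main (t : ℕ → ℚ) (h0 : t 0 = 1)
    (h : ∀ n : ℕ, ∑ j ∈ Finset.range (n + 1), t j * t (n - j) =
        ((∑ j ∈ Finset.range (n + 1),
            (n.choose j) ^ 2 * (2 * j).choose n * (n + j).choose j : ℕ) : ℚ))
    (p : ℕ) (hp : p.Prime) (hs : IsSquare ((p : ZMod 7))) (n : ℕ) (hn : 0 < n) :
    t (p * n) - t n = 0 ∨ (2 : ℤ) ≤ padicValRat p (t (p * n) - t n) := by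
  have h1 : (mk t : ℚ⟦X⟧) ^ 2 = FF ^ 2 := by
    ext m
    rw [FF_sq, sq, coeff_mul, Finset.Nat.sum_antidiagonal_eq_sum_range_succ
      (fun i j => coeff i (mk t) * coeff j (mk t))]
    simp only [coeff_mk, h m, TT, aa]
    push_cast; rfl
  have h2 : mk t = FF := by
    rcases sq_eq_sq_iff_eq_or_eq_neg.mp h1 with h | h
    · exact h
    · have := congrArg (coeff 0) h
      simp [FF, h0, tau_zero] at this
      norm_num at this
  have ht : ∀ m, t m = tau m := fun m => by simpa [FF] using congrArg (coeff m) h2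
  obtain ⟨n, rfl⟩ : ∃ k, n = k + 1 := ⟨n - 1, by omega⟩
  have hd : (p : ℤ) ^ 2 ∣ tau (p * n + p) - tau (n + 1) := by
    by_cases h7 : p = 7
    · subst h7; exact tau_seven n
    · have hne : (p : ZMod 7) ≠ 0 := fun h0 => h7
        ((Nat.prime_dvd_prime_iff_eq (by norm_num) hp).mp ((ZMod.natCast_eq_zero_iff p 7).mp h0)).symm
      have hc : ∀ x : ZMod 7, x ≠ 0 → IsSquare x → chi x = 1 := by
        rintro x hx ⟨y, rfl⟩
        revert y; decide
      refine tau_split hp ?_ (hc _ hne hs) n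
      rintro rfl
      revert hs; decide
  rw [ht, ht, mul_add, mul_one, ← Int.cast_sub]
  rcases eq_or_ne (tau (p * n + p) - tau (n + 1)) 0 with hz | hz
  · left; rw [hz]; simp
  · right
    have := Fact.mk hp
    rw [padicValRat.of_int]
    exact_mod_cast ((padicValInt_dvd_iff 2 _).mp hd).resolve_left hz

end Pool.Agent.H185Z.L7
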