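import Pool.Agent.H185Z.L7.Law

/-! The formal series of level 7 and their transformation laws. -/

set_option autoImplicit false

open PowerSeries Complex Filter Topology ModularForm
open scoped Real

namespace Pool.Agent.H185Z.L7

section general
variable {R : Type*} [CommRing R]

lemma coeff_Dop (a : R) (A : R⟦X⟧) (n : ℕ) : coeff n (Dop a A) = (a + n) * coeff n A := by
  unfold Dop
  rcases n with _ | n
  · simp
  · rw [map_add, coeff_C_mul, coeff_succ_X_mul, coeff_derivative]; push_cast; ring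

lemma Dop_mul {a b c : R} (h : c = a + b) (A B : R⟦X⟧) :
    Dop c (A * B) = Dop a A * B + A * Dop b B := by
  unfold Dop; rw [h, Derivation.leibniz, map_add]; simp only [smul_eq_mul]; ring

lemma Dop_add (a : R) (A B : R⟦X⟧) : Dop a (A + B) = Dop a A + Dop a B := by
  unfold Dop; rw [map_add]; ring

lemma Dop_sub (a : R) (A B : R⟦X⟧) : Dop a (A - B) = Dop a A - Dop a B := by
  unfold Dop; rw [map_sub]; ring

lemma Dop_neg (a : R) (A : R⟦X⟧) : Dop a (-A) = -Dop a A := by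
  unfold Dop; rw [map_neg]; ring

lemma Dop_C (c : R) : Dop 0 (C c : R⟦X⟧) = 0 := by simp [Dop]

lemma Dop_C_mul (a c : R) (A : R⟦X⟧) : Dop a (C c * A) = C c * Dop a A := by
  rw [Dop_mul (a := 0) (b := a) (by simp), Dop_C]; simp

lemma Dop_X : Dop (-1) (X : R⟦X⟧) = 0 := by simp [Dop]

lemma Dop_pow (a : R) (A : R⟦X⟧) (n : ℕ) :
    Dop (n * a) (A ^ n) * A = n * A ^ n * Dop a A := by
  induction n with
  | zero => simp [Dop]
  | succ n ih =>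
    rw [pow_succ, Dop_mul (a := n * a) (b := a) (by push_cast; ring)]
    push_cast
    linear_combination A * ih

lemma map_Dop {S : Type*} [CommRing S] (f : R →+* S) (a : R) (A : R⟦X⟧) :
    map f (Dop a A) = Dop (f a) (map f A) := by
  ext n; simp [coeff_Dop]

/-- the first three coefficients -/
def E3 (A : R⟦X⟧) (a b c : R) : Prop := coeff 0 A = a ∧ coeff 1 A = b ∧ coeff 2 A = c

lemma E3.mul {A B : R⟦X⟧} {a b c a' b' c' : R} (h : E3 A a b c) (h' : E3 B a' b' c') :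
    E3 (A * B) (a * a') (a * b' + b * a') (a * c' + b * b' + c * a') := by
  obtain ⟨rfl, rfl, rfl⟩ := h
  obtain ⟨rfl, rfl, rfl⟩ := h'
  refine ⟨?_, ?_, ?_⟩ <;>
    simp [coeff_mul, Finset.Nat.antidiagonal_succ, add_assoc]

lemma E3.add {A B : R⟦X⟧} {a b c a' b' c' : R} (h : E3 A a b c) (h' : E3 B a' b' c') :
    E3 (A + B) (a + a') (b + b') (c + c') := by
  obtain ⟨rfl, rfl, rfl⟩ := h
  obtain ⟨rfl, rfl, rfl⟩ := h'
  refine ⟨?_, ?_, ?_⟩ <;> simp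

lemma E3.neg {A : R⟦X⟧} {a b c : R} (h : E3 A a b c) : E3 (-A) (-a) (-b) (-c) := by
  obtain ⟨rfl, rfl, rfl⟩ := h
  refine ⟨?_, ?_, ?_⟩ <;> simp

lemma E3.dop {A : R⟦X⟧} {a b c : R} (h : E3 A a b c) (s : R) :
    E3 (Dop s A) (s * a) ((s + 1) * b) ((s + 2) * c) := by
  obtain ⟨rfl, rfl, rfl⟩ := h
  refine ⟨?_, ?_, ?_⟩ <;> simp [coeff_Dop]

lemma E3.congr {A B : R⟦X⟧} {a b c a' b' c' : R} (h : E3 A a b c) (hA : A = B) (ha : a = a')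
    (hb : b = b') (hc : c = c') : E3 B a' b' c' := by
  subst hA ha hb hc; exact h

lemma E3_C (c : R) : E3 (C c) c 0 0 := by refine ⟨?_, ?_, ?_⟩ <;> simp [coeff_C]
lemma E3_X : E3 (X : R⟦X⟧) 0 1 0 := by refine ⟨?_, ?_, ?_⟩ <;> simp [coeff_X]
lemma E3_self (A : R⟦X⟧) : E3 A (coeff 0 A) (coeff 1 A) (coeff 2 A) := ⟨rfl, rfl, rfl⟩

lemma E3.inv {A B : R⟦X⟧} {b c : R} (h : E3 A 1 b c) (hAB : A * B = 1) :
    E3 B 1 (-b) (b ^ 2 - c) := by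
  have h1 := h.mul (E3_self B)
  rw [hAB] at h1
  obtain ⟨h2, h3, h4⟩ := h1
  simp only [coeff_one] at h2 h3 h4
  norm_num at h2 h3 h4
  refine ⟨by simpa using h2.symm, ?_, ?_⟩
  · linear_combination -h3 + b * h2
  · linear_combination -h4 + b * h3 + (c - b ^ 2) * h2

lemma E3.expand7 {A : R⟦X⟧} {a b c : R} (h : E3 A a b c) :
    E3 (expand 7 (by norm_num) A) a 0 0 := by
  refine ⟨?_, ?_, ?_⟩
  · rw [← h.1]; simp
  · exact coeff_expand_of_not_dvd _ _ _ (by norm_num)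
  · exact coeff_expand_of_not_dvd _ _ _ (by norm_num)

lemma E3.sq {A : R⟦X⟧} {b c : R} (h : E3 A 1 b c) : E3 (A ^ 2) 1 (2 * b) (2 * c + b ^ 2) :=
  (h.mul h).congr (by ring) (by ring) (by ring) (by ring)

variable (R)

lemma E3_Phi : E3 (Phi R) 1 (-1) (-1) := by
  have h0 := coeff_pentagonalSeries_pentagonal R 0
  have h1 := coeff_pentagonalSeries_pentagonal R 1
  have h2 := coeff_pentagonalSeries_pentagonal R (-1)
  rw [show pentagonal 0 = 0 by simp [pentagonal_def]] at h0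
  rw [show pentagonal 1 = 1 by simp [pentagonal_def]] at h1
  rw [show pentagonal (-1) = 2 by simp [pentagonal_def]] at h2
  exact ⟨by simpa [Phi] using h0, by simpa [Phi] using h1, by simpa [Phi] using h2⟩

lemma map_Phi : map (Int.castRingHom R) (Phi ℤ) = Phi R := by
  ext n
  simp only [Phi, pentagonalSeries, coeff_map, coeff_mk]
  split_ifs <;> simp

/-- inverse of Euler's function -/
noncomputable def Phii : R⟦X⟧ := map (Int.castRingHom R) (invOfUnit (Phi ℤ) 1)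

lemma Phi_mul_Phii : Phi R * Phii R = 1 := by
  rw [← map_Phi, Phii, ← map_mul, mul_invOfUnit _ _ (by simpa using (E3_Phi ℤ).1), map_one]

lemma map_Phii : map (Int.castRingHom R) (Phii ℤ) = Phii R := by
  ext n; simp [Phii]

/-- substitution of the seventh power -/
noncomputable def V7 : R⟦X⟧ →ₐ[R] R⟦X⟧ := expand 7 (by norm_num)

/-- `q (η(τ)/η(7τ))^4` -/
noncomputable def S0 : R⟦X⟧ := Phi R ^ 4 * V7 R (Phii R) ^ 4
/-- its inverse -/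
noncomputable def R0 : R⟦X⟧ := V7 R (Phi R) ^ 4 * Phii R ^ 4
/-- `q u` -/
noncomputable def U0 : R⟦X⟧ := S0 R + 13 * X + 49 * X ^ 2 * R0 R
/-- `q σ` -/
noncomputable def Sg : R⟦X⟧ := S0 R - 49 * X ^ 2 * R0 R
/-- `η(τ) η(7τ)` -/
noncomputable def ph : R⟦X⟧ := Phi R * V7 R (Phi R)
/-- its inverse -/
noncomputable def phi : R⟦X⟧ := Phii R * V7 R (Phii R)
/-- the weight two Eisenstein series -/
noncomputable def Z0 : R⟦X⟧ := -(Dop (-1) (S0 R)) * R0 R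
/-- `Z / e ^ 2` -/
noncomputable def v0 : R⟦X⟧ := Z0 R * phi R ^ 2
/-- the weight three form -/
noncomputable def g0 : R⟦X⟧ := Sg R * ph R ^ 3
/-- the cube root of `u` -/
noncomputable def y0 : R⟦X⟧ := map (Int.castRingHom R) (U0 ℤ * invOfUnit (v0 ℤ) 1)

lemma V7_mul : V7 R (Phi R) * V7 R (Phii R) = 1 := by rw [← map_mul, Phi_mul_Phii, map_one]

lemma S0_mul_R0 : S0 R * R0 R = 1 := by
  unfold S0 R0
  calc _ = (Phi R * Phii R) ^ 4 * (V7 R (Phi R) * V7 R (Phii R)) ^ 4 := by ring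
    _ = 1 := by rw [Phi_mul_Phii, V7_mul]; simp

lemma ph_mul_phi : ph R * phi R = 1 := by
  unfold ph phi
  calc _ = (Phi R * Phii R) * (V7 R (Phi R) * V7 R (Phii R)) := by ring
    _ = 1 := by rw [Phi_mul_Phii, V7_mul]; simp

lemma map_V7 (A : ℤ⟦X⟧) :
    map (Int.castRingHom R) (V7 ℤ A) = V7 R (map (Int.castRingHom R) A) := map_expand _ _ _ _

lemma map_S0 : map (Int.castRingHom R) (S0 ℤ) = S0 R := by
  simp only [S0, map_mul, map_pow, map_V7, map_Phi, map_Phii]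
lemma map_R0 : map (Int.castRingHom R) (R0 ℤ) = R0 R := by
  simp only [R0, map_mul, map_pow, map_V7, map_Phi, map_Phii]
lemma map_U0 : map (Int.castRingHom R) (U0 ℤ) = U0 R := by
  simp only [U0, map_mul, map_pow, map_add, map_S0, map_R0, map_X, map_ofNat]
lemma map_Sg : map (Int.castRingHom R) (Sg ℤ) = Sg R := by
  simp only [Sg, map_mul, map_pow, map_sub, map_S0, map_R0, map_X, map_ofNat]
lemma map_ph : map (Int.castRingHom R) (ph ℤ) = ph R := by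
  simp only [ph, map_mul, map_V7, map_Phi]
lemma map_phi : map (Int.castRingHom R) (phi ℤ) = phi R := by
  simp only [phi, map_mul, map_V7, map_Phii]
lemma map_Z0 : map (Int.castRingHom R) (Z0 ℤ) = Z0 R := by
  simp only [Z0, map_mul, map_neg, map_Dop, map_S0, map_R0, map_one]
lemma map_v0 : map (Int.castRingHom R) (v0 ℤ) = v0 R := by
  simp only [v0, map_mul, map_pow, map_Z0, map_phi]
lemma map_g0 : map (Int.castRingHom R) (g0 ℤ) = g0 R := by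
  simp only [g0, map_mul, map_pow, map_Sg, map_ph]
lemma map_y0 : map (Int.castRingHom R) (y0 ℤ) = y0 R := by
  ext n; simp [y0]

lemma E3_Phii : E3 (Phii R) 1 1 2 :=
  ((E3_Phi R).inv (Phi_mul_Phii R)).congr rfl rfl (by ring) (by ring)
lemma E3_S0 : E3 (S0 R) 1 (-4) 2 :=
  ((E3_Phi R).sq.sq.mul (E3_Phii R).expand7.sq.sq).congr (by unfold S0 V7; ring) (by ring)
    (by ring) (by ring)
lemma E3_R0 : E3 (R0 R) 1 4 14 :=
  ((E3_S0 R).inv (S0_mul_R0 R)).congr rfl rfl (by ring) (by ring)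
lemma E3_U0 : E3 (U0 R) 1 9 51 :=
  (((E3_S0 R).add ((E3_C 13).mul E3_X)).add (((E3_C 49).mul (E3_X.mul E3_X)).mul (E3_R0 R))).congr
    (by unfold U0; simp only [map_ofNat]; ring) (by ring) (by ring) (by ring)
lemma E3_Sg : E3 (Sg R) 1 (-4) (-47) :=
  ((E3_S0 R).add (((E3_C 49).mul (E3_X.mul E3_X)).mul (E3_R0 R)).neg).congr
    (by unfold Sg; simp only [map_ofNat]; ring) (by ring) (by ring) (by ring)
lemma E3_ph : E3 (ph R) 1 (-1) (-1) :=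
  ((E3_Phi R).mul (E3_Phi R).expand7).congr rfl (by ring) (by ring) (by ring)
lemma E3_phi : E3 (phi R) 1 1 2 :=
  ((E3_ph R).inv (ph_mul_phi R)).congr rfl rfl (by ring) (by ring)
lemma E3_Z0 : E3 (Z0 R) 1 4 12 :=
  (((E3_S0 R).dop (-1)).neg.mul (E3_R0 R)).congr rfl (by ring) (by ring) (by ring)
lemma E3_v0 : E3 (v0 R) 1 6 25 :=
  ((E3_Z0 R).mul (E3_phi R).sq).congr rfl (by ring) (by ring) (by ring)
lemma E3_g0 : E3 (g0 R) 1 (-7) (-35) :=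
  ((E3_Sg R).mul ((E3_ph R).sq.mul (E3_ph R))).congr (by unfold g0; ring) (by ring) (by ring)
    (by ring)

lemma v0_mul_y0 : v0 R * y0 R = U0 R := by
  rw [← map_v0, y0, ← map_mul, mul_left_comm, mul_invOfUnit _ _ (by simpa using (E3_v0 ℤ).1),
    mul_one, map_U0]

lemma Z0_eq : Z0 R = v0 R * ph R ^ 2 := by
  unfold v0
  linear_combination (-Z0 R * (ph R * phi R + 1)) * ph_mul_phi R

lemma D_S0 : Dop (-1) (S0 R) = -Z0 R * S0 R := by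
  unfold Z0; linear_combination (-Dop (-1) (S0 R)) * S0_mul_R0 R

lemma D_R0 : Dop 1 (R0 R) = Z0 R * R0 R := by
  have h := Dop_mul (c := 0) (a := -1) (b := 1) (by simp) (S0 R) (R0 R)
  rw [S0_mul_R0, ← map_one C, Dop_C, D_S0] at h
  linear_combination (-R0 R) * h + (Z0 R * R0 R - Dop 1 (R0 R)) * S0_mul_R0 R

lemma D_X2R0 : Dop (-1) (49 * X ^ 2 * R0 R) = 49 * X ^ 2 * (Z0 R * R0 R) := by
  rw [show (49 * X ^ 2 * R0 R : R⟦X⟧) = C 49 * (X * (X * R0 R)) by rw [map_ofNat]; ring,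
    Dop_C_mul, Dop_mul (a := -1) (b := 0) (by simp), Dop_mul (a := -1) (b := 1) (by simp), Dop_X,
    D_R0, map_ofNat]; ring

lemma D_U0 : Dop (-1) (U0 R) = -Z0 R * Sg R := by
  unfold U0 Sg
  rw [Dop_add, Dop_add, D_S0, D_X2R0, ← map_ofNat C 13, Dop_C_mul, Dop_X]; ring

lemma D_Sg : Dop (-1) (Sg R) = -Z0 R * (U0 R - 13 * X) := by
  unfold U0 Sg
  rw [Dop_sub, D_S0, D_X2R0]; ring

lemma Sg_sq : Sg R ^ 2 = (U0 R + X) * (U0 R - 27 * X) := by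
  unfold U0 Sg
  linear_combination (-196 * X ^ 2) * S0_mul_R0 R

end general

lemma conv_Phii : Conv (Phii ℂ) :=
  conv_Phi.1.of_mul_eq_one (fun _ hq => ev_Phi_ne hq) (Phi_mul_Phii ℂ)

lemma Conv.v7 {A : ℂ⟦X⟧} (h : Conv A) : Conv (V7 ℂ A) := h.expand 7 _

lemma conv_ofNat (n : ℕ) [n.AtLeastTwo] : Conv (OfNat.ofNat n) := by
  rw [← map_ofNat C n]; exact conv_C _

lemma conv_S0 : Conv (S0 ℂ) := (conv_Phi.1.pow 4).mul (conv_Phii.v7.pow 4)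
lemma conv_R0 : Conv (R0 ℂ) := (conv_Phi.1.v7.pow 4).mul (conv_Phii.pow 4)
lemma conv_X2R0 : Conv (49 * X ^ 2 * R0 ℂ) := ((conv_ofNat 49).mul (conv_X.pow 2)).mul conv_R0
lemma conv_U0 : Conv (U0 ℂ) := (conv_S0.add ((conv_ofNat 13).mul conv_X)).add conv_X2R0
lemma conv_Sg : Conv (Sg ℂ) := conv_S0.sub conv_X2R0
lemma conv_ph : Conv (ph ℂ) := conv_Phi.1.mul conv_Phi.1.v7
lemma conv_phi : Conv (phi ℂ) := conv_Phii.mul conv_Phii.v7
lemma conv_Z0 : Conv (Z0 ℂ) := (conv_S0.dop _).neg.mul conv_R0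
lemma conv_v0 : Conv (v0 ℂ) := conv_Z0.mul (conv_phi.pow 2)
lemma conv_g0 : Conv (g0 ℂ) := conv_Sg.mul (conv_ph.pow 3)

lemma fn_mul' {A B : ℂ⟦X⟧} (hA : Conv A) (hB : Conv B) {a b c : ℂ} (h : c = a + b) {τ : ℂ}
    (hτ : 0 < τ.im) : fn c (A * B) τ = fn a A τ * fn b B τ := by rw [h, fn_mul hA hB a b hτ]

lemma fn_inv {A B : ℂ⟦X⟧} (hA : Conv A) (hB : Conv B) (hAB : A * B = 1) (a : ℂ) {τ : ℂ}
    (hτ : 0 < τ.im) : fn (-a) B τ = (fn a A τ)⁻¹ := by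
  apply eq_inv_of_mul_eq_one_right
  rw [← fn_mul' hA hB (c := 0) (by ring) hτ, hAB, ← map_one C, fn_zero_C]

lemma eta7_eq_fn {τ : ℂ} (hτ : 0 < τ.im) : η (7 * τ) = fn (7 / 24) (V7 ℂ (Phi ℂ)) τ := by
  rw [eta_eq_fn (im7 hτ)]
  have := fn_expand conv_Phi.1 7 (by norm_num) (1 / 24) hτ
  push_cast at this
  rw [← this]; congr 1; ring

lemma fn_ph {τ : ℂ} (hτ : 0 < τ.im) : fn (1 / 3) (ph ℂ) τ = e7 τ := by
  unfold ph e7
  rw [eta7_eq_fn hτ, eta_eq_fn hτ, fn_mul' conv_Phi.1 conv_Phi.1.v7 (a := 1 / 24) (b := 7 / 24) (by ring) hτ]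

lemma fn_S0 {τ : ℂ} (hτ : 0 < τ.im) : fn (-1) (S0 ℂ) τ = η τ ^ 4 / η (7 * τ) ^ 4 := by
  unfold S0
  rw [eta7_eq_fn hτ, eta_eq_fn hτ, div_eq_mul_inv, ← inv_pow,
    ← fn_inv conv_Phi.1.v7 conv_Phii.v7 (V7_mul ℂ) _ hτ, ← fn_pow conv_Phi.1 _ _ hτ,
    ← fn_pow conv_Phii.v7 _ _ hτ,
    fn_mul' (conv_Phi.1.pow 4) (conv_Phii.v7.pow 4) (a := (4 : ℕ) * (1 / 24))
      (b := (4 : ℕ) * -(7 / 24)) (by push_cast; ring) hτ]

lemma fn_S0_ne {τ : ℂ} (hτ : 0 < τ.im) : fn (-1) (S0 ℂ) τ ≠ 0 := by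
  rw [fn_S0 hτ]
  exact div_ne_zero (pow_ne_zero _ (eta_ne_zero hτ)) (pow_ne_zero _ (eta_ne_zero (im7 hτ)))

lemma fn_S0_g {a b c d : ℤ} (h : a * d - b * (7 * c) = 1) {τ : ℂ} (hτ : 0 < τ.im) :
    fn (-1) (S0 ℂ) (mob a b (7 * c) d τ) = fn (-1) (S0 ℂ) τ := by
  have e : ∀ x : ℂ, 0 < x.im → fn (-1) (S0 ℂ) x = e7 x ^ 4 / η (7 * x) ^ 8 := fun x hx => by
    have := eta_ne_zero (z := 7 * x) (im7 hx)
    rw [fn_S0 hx]; unfold e7; field_simp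
  rw [e _ (im_mob_pos (by omega) hτ), e _ hτ, e7_law h hτ, eta8_law7 h hτ]
  have h1 := chi_sq' h
  have h2 := om_cube (EE a b (7 * c : ℤ) d)
  have h3 := om_ne (EE a b (7 * c : ℤ) d)
  have h4 := den_ne (a := a) (b := b) (c := 7 * c) (d := d) (by omega) hτ
  have h5 := eta_ne_zero (z := 7 * τ) (im7 hτ)
  generalize ((7 * c : ℤ) : ℂ) * τ + d = D at h4 ⊢
  field_simp
  linear_combination ((chi d : ℤ) ^ 4 * e7 τ ^ 4) * h2 + (e7 τ ^ 4 * ((chi d : ℤ) ^ 2 + 1)) * h1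

lemma fn_S0_W {τ : ℂ} (hτ : 0 < τ.im) :
    fn (-1) (S0 ℂ) (-1 / (7 * τ)) = 49 * (fn (-1) (S0 ℂ) τ)⁻¹ := by
  have h0 := ne_zero_of_im hτ
  rw [fn_S0 hτ, fn_S0 (im_W hτ), show 7 * (-1 / (7 * τ)) = -1 / τ by field_simp,
    show 4 = 2 * 2 from rfl, pow_mul, pow_mul, eta_S_sq hτ, eta_S_sq (im7 hτ)]
  have h5 := eta_ne_zero (z := 7 * τ) (im7 hτ)
  have h6 := eta_ne_zero (z := τ) hτ
  field_simp
  ring

lemma fn_X2R0 {τ : ℂ} (hτ : 0 < τ.im) :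
    fn (-1) (49 * X ^ 2 * R0 ℂ) τ = 49 * (fn (-1) (S0 ℂ) τ)⁻¹ := by
  rw [← map_ofNat C 49, mul_assoc, fn_C_mul ((conv_X.pow 2).mul conv_R0) _ _ hτ,
    fn_X_pow_mul conv_R0 _ _ hτ, ← fn_inv conv_S0 conv_R0 (S0_mul_R0 ℂ) _ hτ]
  congr 2; push_cast; ring

lemma fn_X {τ : ℂ} (hτ : 0 < τ.im) (c : ℂ) : fn (-1) (C c * X) τ = c := by
  have := fn_X_pow_mul (conv_C c) (-1) 1 hτ
  rw [pow_one, mul_comm] at this
  rw [this]; simpa using fn_zero_C c τ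

lemma fn_U0 {τ : ℂ} (hτ : 0 < τ.im) :
    fn (-1) (U0 ℂ) τ = fn (-1) (S0 ℂ) τ + 13 + 49 * (fn (-1) (S0 ℂ) τ)⁻¹ := by
  unfold U0
  rw [fn_add (conv_S0.add ((conv_ofNat 13).mul conv_X)) conv_X2R0 _ hτ, fn_X2R0 hτ,
    fn_add conv_S0 ((conv_ofNat 13).mul conv_X) _ hτ, ← map_ofNat C 13, fn_X hτ]

lemma fn_Sg {τ : ℂ} (hτ : 0 < τ.im) :
    fn (-1) (Sg ℂ) τ = fn (-1) (S0 ℂ) τ - 49 * (fn (-1) (S0 ℂ) τ)⁻¹ := by
  unfold Sg
  rw [fn_sub conv_S0 conv_X2R0 _ hτ, fn_X2R0 hτ]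

/-- a convergent series with a transformation law -/
structure LF (k : ℤ) (i : ZMod 3) (ε a : ℂ) (A : ℂ⟦X⟧) : Prop where
  conv : Conv A
  law : Law k i ε (fn a A)

lemma LF.congr {k k' : ℤ} {i i' : ZMod 3} {ε ε' a a' : ℂ} {A A' : ℂ⟦X⟧} (h : LF k i ε a A)
    (hk : k = k') (hi : i = i') (hε : ε = ε') (ha : a = a') (hA : A = A') : LF k' i' ε' a' A' := by
  subst hk hi hε ha hA; exact h

lemma LF.mul {k k' : ℤ} {i i' : ZMod 3} {ε ε' a a' : ℂ} {A A' : ℂ⟦X⟧} (h : LF k i ε a A)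
    (h' : LF k' i' ε' a' A') : LF (k + k') (i + i') (ε * ε') (a + a') (A * A') :=
  ⟨h.1.mul h'.1, (h.2.mul h'.2).congr rfl rfl rfl fun _ hτ => (fn_mul h.1 h'.1 _ _ hτ).symm⟩

lemma LF.add {k : ℤ} {i : ZMod 3} {ε a : ℂ} {A A' : ℂ⟦X⟧} (h : LF k i ε a A)
    (h' : LF k i ε a A') : LF k i ε a (A + A') :=
  ⟨h.1.add h'.1, (h.2.add h'.2).congr rfl rfl rfl fun _ hτ => (fn_add h.1 h'.1 _ hτ).symm⟩

lemma LF.smul {k : ℤ} {i : ZMod 3} {ε a : ℂ} {A : ℂ⟦X⟧} (h : LF k i ε a A) (c : ℂ) :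
    LF k i ε a (C c * A) :=
  ⟨(conv_C c).mul h.1, (h.2.smul c).congr rfl rfl rfl fun _ hτ => (fn_C_mul h.1 _ _ hτ).symm⟩

lemma LF.pow {k : ℤ} {i : ZMod 3} {ε a : ℂ} {A : ℂ⟦X⟧} (h : LF k i ε a A) (n : ℕ) :
    LF (n * k) (n * i) (ε ^ n) (n * a) (A ^ n) :=
  ⟨h.1.pow n, (h.2.pow n).congr rfl rfl rfl fun _ hτ => (fn_pow h.1 _ _ hτ).symm⟩

lemma LF.dop {i : ZMod 3} {ε a : ℂ} {A : ℂ⟦X⟧} (h : LF 0 i ε a A) :
    LF 2 i (-ε) a (Dop a A) := ⟨h.1.dop a, h.2.dop h.1⟩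

lemma LF.dop2 {i : ZMod 3} {ε a : ℂ} {A : ℂ⟦X⟧} (h : LF (-1) i ε a A) :
    LF 3 i ε a (Dop a (Dop a A)) := ⟨(h.1.dop a).dop a, h.2.dop2 h.1⟩

lemma LF.of_X_mul {k : ℤ} {i : ZMod 3} {ε a : ℂ} {A : ℂ⟦X⟧} (h : LF k i ε a (X * A)) :
    LF k i ε (a + 1) A :=
  ⟨h.1.of_X_mul, h.2.congr rfl rfl rfl fun _ hτ => by
    simpa using fn_X_pow_mul h.1.of_X_mul a 1 hτ⟩

lemma lf_X : LF 0 0 1 (-1) X :=
  ⟨conv_X, (law_const 1).congr rfl rfl rfl fun _ hτ => by simpa using (fn_X hτ 1).symm⟩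

lemma lf_U0 : LF 0 0 1 (-1) (U0 ℂ) := by
  refine ⟨conv_U0, fun a b c d h τ hτ => ?_, fun τ hτ => ?_⟩
  · rw [fn_U0 hτ, fn_U0 (im_mob_pos (by omega) hτ), fn_S0_g h hτ]; simp [om_zero]
  · have := fn_S0_ne hτ
    rw [fn_U0 hτ, fn_U0 (im_W hτ), fn_S0_W hτ]; field_simp; ring

lemma lf_Sg : LF 0 0 (-1) (-1) (Sg ℂ) := by
  refine ⟨conv_Sg, fun a b c d h τ hτ => ?_, fun τ hτ => ?_⟩
  · rw [fn_Sg hτ, fn_Sg (im_mob_pos (by omega) hτ), fn_S0_g h hτ]; simp [om_zero]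
  · have := fn_S0_ne hτ
    rw [fn_Sg hτ, fn_Sg (im_W hτ), fn_S0_W hτ]; field_simp; ring

lemma lf_ph : LF 1 1 1 (1 / 3) (ph ℂ) := by
  refine ⟨conv_ph, fun a b c d h τ hτ => ?_, fun τ hτ => ?_⟩
  · rw [fn_ph hτ, fn_ph (im_mob_pos (by omega) hτ), e7_law h hτ]; simp
  · rw [fn_ph hτ, fn_ph (im_W hτ), e7_W hτ]; simp

lemma lf_phi : LF (-1) (-1) 1 (-(1 / 3)) (phi ℂ) :=
  ⟨conv_phi, lf_ph.2.inv.congr rfl rfl (by simp) fun _ hτ =>
    (fn_inv conv_ph conv_phi (ph_mul_phi ℂ) _ hτ).symm⟩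

lemma lf_Z0 : LF 2 0 1 0 (Z0 ℂ) := by
  have h1 := (lf_U0.add (lf_X.smul (-13))).mul lf_Sg.dop
  have h2 := lf_Sg.mul lf_U0.dop
  have h3 := ((h1.smul (-1)).congr (k' := 2) (i' := 0) (ε' := 1) (a' := -2) (by simp) (by simp)
    (by simp) (by ring) rfl).add (h2.congr (by simp) (by simp) (by simp) (by ring) rfl)
  have h4 : LF 2 0 1 (-2) (X * (X * Z0 ℂ)) := (h3.smul (1 / 196)).congr rfl rfl rfl rfl (by
    have e : (C (1 / 196 : ℂ) : ℂ⟦X⟧) * 196 = 1 := by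
      rw [← map_ofNat C 196, ← map_mul]; simp
    rw [D_Sg, D_U0, map_neg, map_neg, map_one, map_ofNat]
    linear_combination (X ^ 2 * Z0 ℂ) * e - (C (1 / 196 : ℂ) * Z0 ℂ) * Sg_sq ℂ)
  exact h4.of_X_mul.of_X_mul.congr rfl rfl rfl (by ring) rfl

lemma lf_v0 : LF 0 1 1 (-(2 / 3)) (v0 ℂ) :=
  (lf_Z0.mul (lf_phi.pow 2)).congr (by simp) (by decide) (by simp) (by push_cast; ring) rfl

lemma lf_g0 : LF 3 0 (-1) 0 (g0 ℂ) :=
  (lf_Sg.mul (lf_ph.pow 3)).congr (by simp) (by decide) (by simp) (by push_cast; ring) rfl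

end Pool.Agent.H185Z.L7
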