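import Pool.Agent.H185Z.L7.Eta

/-! Transformation laws under the Fricke group of level 7, Liouville principle, Hecke operator. -/

set_option autoImplicit false

open PowerSeries Complex Filter Topology
open scoped Real

namespace Pool.Agent.H185Z.L7

/-- transformation law of weight `k`, cubic character `i` and Fricke sign `ε` -/
structure Law (k : ℤ) (i : ZMod 3) (ε : ℂ) (f : ℂ → ℂ) : Prop where
  g : ∀ a b c d : ℤ, a * d - b * (7 * c) = 1 → ∀ τ : ℂ, 0 < τ.im → f (mob a b (7 * c) d τ) =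
    om (i * EE a b (7 * c : ℤ) d) * (chi d * ((7 * c : ℤ) * τ + d)) ^ k * f τ
  w : ∀ τ : ℂ, 0 < τ.im → f (-1 / (7 * τ)) = ε * (lam * τ) ^ k * f τ

lemma jf_ne {a b c d : ℤ} (h : a * d - b * (7 * c) = 1) {τ : ℂ} (hτ : 0 < τ.im) :
    ((chi d : ℤ) : ℂ) * (((7 * c : ℤ) : ℂ) * τ + d) ≠ 0 :=
  mul_ne_zero (left_ne_zero_of_mul (by rw [chi_sq' h]; exact one_ne_zero))
    (den_ne (a := a) (b := b) (by omega) hτ)

lemma lt_ne {τ : ℂ} (hτ : 0 < τ.im) : lam * τ ≠ 0 := mul_ne_zero lam_ne (ne_zero_of_im hτ)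

lemma Law.mul {k k' : ℤ} {i i' : ZMod 3} {ε ε' : ℂ} {f f' : ℂ → ℂ} (h : Law k i ε f)
    (h' : Law k' i' ε' f') : Law (k + k') (i + i') (ε * ε') (fun τ => f τ * f' τ) where
  g a b c d hd τ hτ := by
    rw [h.g a b c d hd τ hτ, h'.g a b c d hd τ hτ, add_mul i, om_add, zpow_add₀ (jf_ne hd hτ)]; ring
  w τ hτ := by
    rw [h.w τ hτ, h'.w τ hτ, zpow_add₀ (lt_ne hτ)]; ring

lemma Law.inv {k : ℤ} {i : ZMod 3} {ε : ℂ} {f : ℂ → ℂ} (h : Law k i ε f) :
    Law (-k) (-i) ε⁻¹ (fun τ => (f τ)⁻¹) where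
  g a b c d hd τ hτ := by
    rw [h.g a b c d hd τ hτ, zpow_neg, neg_mul, eq_inv_of_mul_eq_one_left (om_neg_mul _), mul_inv,
      mul_inv]
  w τ hτ := by
    rw [h.w τ hτ, zpow_neg, mul_inv, mul_inv]

lemma Law.add {k : ℤ} {i : ZMod 3} {ε : ℂ} {f f' : ℂ → ℂ} (h : Law k i ε f)
    (h' : Law k i ε f') : Law k i ε (fun τ => f τ + f' τ) where
  g a b c d hd τ hτ := by rw [h.g a b c d hd τ hτ, h'.g a b c d hd τ hτ]; ring
  w τ hτ := by rw [h.w τ hτ, h'.w τ hτ]; ring

lemma Law.smul {k : ℤ} {i : ZMod 3} {ε : ℂ} {f : ℂ → ℂ} (h : Law k i ε f) (x : ℂ) :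
    Law k i ε (fun τ => x * f τ) where
  g a b c d hd τ hτ := by rw [h.g a b c d hd τ hτ]; ring
  w τ hτ := by rw [h.w τ hτ]; ring

lemma law_const (x : ℂ) : Law 0 0 1 (fun _ => x) where
  g a b c d _ τ _ := by simp [om_zero]
  w τ _ := by simp

lemma Law.congr {k k' : ℤ} {i i' : ZMod 3} {ε ε' : ℂ} {f f' : ℂ → ℂ} (h : Law k i ε f)
    (hk : k = k') (hi : i = i') (hε : ε = ε') (hf : ∀ τ : ℂ, 0 < τ.im → f τ = f' τ) :
    Law k' i' ε' f' where
  g a b c d hd τ hτ := by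
    rw [← hk, ← hi, ← hf τ hτ, ← hf _ (im_mob_pos (by omega) hτ), h.g a b c d hd τ hτ]
  w τ hτ := by
    rw [← hk, ← hε, ← hf τ hτ, ← hf _ (im_W hτ), h.w τ hτ]

lemma Law.pow {k : ℤ} {i : ZMod 3} {ε : ℂ} {f : ℂ → ℂ} (h : Law k i ε f) (n : ℕ) :
    Law (n * k) (n * i) (ε ^ n) (fun τ => f τ ^ n) := by
  induction n with
  | zero => exact (law_const 1).congr (by simp) (by simp) (by simp) (by simp)
  | succ n ih =>
    exact (ih.mul h).congr (by push_cast; ring) (by push_cast; ring) (by ring)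
      (fun τ _ => by ring)

lemma hasDerivAt_mob (a b c d : ℤ) {τ : ℂ} (h : (c : ℂ) * τ + d ≠ 0) :
    HasDerivAt (mob a b c d) (((a * d - b * c : ℤ) : ℂ) / (c * τ + d) ^ 2) τ := by
  have h1 : HasDerivAt (fun τ : ℂ => (a : ℂ) * τ + b) a τ := by
    simpa using ((hasDerivAt_id τ).const_mul (a : ℂ)).add_const (b : ℂ)
  have h2 : HasDerivAt (fun τ : ℂ => (c : ℂ) * τ + d) c τ := by
    simpa using ((hasDerivAt_id τ).const_mul (c : ℂ)).add_const (d : ℂ)
  exact (h1.div h2 h).congr_deriv (by push_cast; ring)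

lemma H_mem_nhds {τ : ℂ} (hτ : 0 < τ.im) : {x : ℂ | 0 < x.im} ∈ 𝓝 τ :=
  (isOpen_lt continuous_const Complex.continuous_im).mem_nhds hτ

lemma deriv_law0 {f f' : ℂ → ℂ} (hf : ∀ τ : ℂ, 0 < τ.im → HasDerivAt f (f' τ) τ)
    {a b c d : ℤ} (h : 0 < a * d - b * c) {μ : ℂ}
    (hl : ∀ τ : ℂ, 0 < τ.im → f (mob a b c d τ) = μ * f τ) {τ : ℂ} (hτ : 0 < τ.im) :
    f' (mob a b c d τ) * (a * d - b * c : ℤ) = μ * (c * τ + d) ^ 2 * f' τ := by
  have hd := den_ne h.ne' hτ
  have h1 := (hf _ (im_mob_pos h hτ)).comp τ (hasDerivAt_mob a b c d hd)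
  have h2 : HasDerivAt (f ∘ mob a b c d) (μ * f' τ) τ :=
    ((hf τ hτ).const_mul μ).congr_of_eventuallyEq (by
      filter_upwards [H_mem_nhds hτ] with x hx using hl x hx)
  have h3 := h1.unique h2
  rw [← mul_div_assoc, div_eq_iff (pow_ne_zero 2 hd)] at h3
  rw [h3]; ring

lemma deriv_law1 {f f' f'' : ℂ → ℂ} (hf : ∀ τ : ℂ, 0 < τ.im → HasDerivAt f (f' τ) τ)
    (hf' : ∀ τ : ℂ, 0 < τ.im → HasDerivAt f' (f'' τ) τ)
    {a b c d : ℤ} (h : 0 < a * d - b * c) {μ : ℂ}
    (hl : ∀ τ : ℂ, 0 < τ.im → f (mob a b c d τ) * (c * τ + d) = μ * f τ) {τ : ℂ}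
    (hτ : 0 < τ.im) :
    f'' (mob a b c d τ) * (a * d - b * c : ℤ) ^ 2 = μ * (c * τ + d) ^ 3 * f'' τ := by
  have h2 : ∀ τ : ℂ, HasDerivAt (fun τ : ℂ => (c : ℂ) * τ + d) c τ := fun τ => by
    simpa using ((hasDerivAt_id τ).const_mul (c : ℂ)).add_const (d : ℂ)
  have s1 : ∀ τ : ℂ, 0 < τ.im → f' (mob a b c d τ) * (a * d - b * c : ℤ) / (c * τ + d) +
      f (mob a b c d τ) * c = μ * f' τ := by
    intro τ hτ
    have hd := den_ne h.ne' hτ
    have h1 := ((hf _ (im_mob_pos h hτ)).comp τ (hasDerivAt_mob a b c d hd)).mul (h2 τ)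
    have h3 : HasDerivAt (f ∘ mob a b c d * fun τ : ℂ => (c : ℂ) * τ + d) (μ * f' τ) τ :=
      ((hf τ hτ).const_mul μ).congr_of_eventuallyEq (by
        filter_upwards [H_mem_nhds hτ] with x hx using hl x hx)
    rw [← h1.unique h3]
    simp only [Function.comp]
    generalize (c : ℂ) * τ + d = D at hd ⊢
    field_simp
  have hd := den_ne h.ne' hτ
  have h1 := ((((hf' _ (im_mob_pos h hτ)).comp τ (hasDerivAt_mob a b c d hd)).mul_const
    ((a * d - b * c : ℤ) : ℂ)).div (h2 τ) hd).add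
    (((hf _ (im_mob_pos h hτ)).comp τ (hasDerivAt_mob a b c d hd)).mul_const (c : ℂ))
  have h3 := ((hf' τ hτ).const_mul μ).congr_of_eventuallyEq (f₁ := fun τ : ℂ =>
    f' (mob a b c d τ) * (a * d - b * c : ℤ) / (c * τ + d) + f (mob a b c d τ) * c) (by
        filter_upwards [H_mem_nhds hτ] with x hx using s1 x hx)
  have h4 := h1.unique h3
  simp only [Function.comp] at h4
  generalize (c : ℂ) * τ + d = D at hd h4 ⊢
  rw [mul_comm μ (D ^ 3), mul_assoc, ← h4]
  field_simp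
  ring

lemma mob_W (τ : ℂ) : mob 0 (-1) 7 0 τ = -1 / (7 * τ) := by simp [mob]

lemma tpi_ne : (2 * π * I : ℂ) ≠ 0 := by simp [Real.pi_ne_zero]

lemma Law.dop {i : ZMod 3} {ε a : ℂ} {A : ℂ⟦X⟧} (hA : Conv A) (h : Law 0 i ε (fn a A)) :
    Law 2 i (-ε) (fn a (Dop a A)) where
  g a' b c d hd τ hτ := by
    have h1 := deriv_law0 (fun τ hτ => hasDerivAt_fn hA a hτ) (a := a') (b := b) (c := 7 * c)
      (d := d) (by omega) (μ := om (i * EE a' b (7 * c : ℤ) d))
      (fun τ hτ => by rw [h.g a' b c d hd τ hτ]; simp) hτ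
    rw [hd] at h1
    apply mul_left_cancel₀ tpi_ne
    have h2 := chi_sq' hd
    rw [zpow_ofNat]
    linear_combination h1 - (om (i * EE a' b (7 * c : ℤ) d) * ((7 * c : ℤ) * τ + d) ^ 2 *
      (2 * π * I * fn a (Dop a A) τ)) * h2
  w τ hτ := by
    have h1 := deriv_law0 (fun τ hτ => hasDerivAt_fn hA a hτ) (a := 0) (b := -1) (c := 7)
      (d := 0) (by omega) (μ := ε)
      (fun τ hτ => by rw [mob_W, h.w τ hτ]; simp) hτ
    rw [mob_W] at h1
    apply mul_left_cancel₀ tpi_ne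
    rw [zpow_ofNat]
    push_cast at h1
    linear_combination (1 / 7 : ℂ) * h1 + (ε * τ ^ 2 * (2 * π * I * fn a (Dop a A) τ)) * lam_sq

lemma Law.dop2 {i : ZMod 3} {ε a : ℂ} {A : ℂ⟦X⟧} (hA : Conv A) (h : Law (-1) i ε (fn a A)) :
    Law 3 i ε (fn a (Dop a (Dop a A))) where
  g a' b c d hd τ hτ := by
    have h2 := chi_sq' hd
    have h1 := deriv_law1 (fun τ hτ => hasDerivAt_fn hA a hτ)
      (fun τ hτ => (hasDerivAt_fn (hA.dop a) a hτ).const_mul (2 * π * I))
      (a := a') (b := b) (c := 7 * c)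
      (d := d) (by omega) (μ := om (i * EE a' b (7 * c : ℤ) d) * chi d)
      (fun τ hτ => by
        have h3 := den_ne (a := a') (b := b) (c := 7 * c) (d := d) (by omega) hτ
        rw [h.g a' b c d hd τ hτ, zpow_neg_one, mul_inv, ← eq_inv_of_mul_eq_one_left h2]
        generalize ((7 * c : ℤ) : ℂ) * τ + d = D at h3 ⊢
        field_simp) hτ
    rw [hd] at h1
    apply mul_left_cancel₀ (mul_ne_zero tpi_ne tpi_ne)
    rw [zpow_ofNat]
    linear_combination h1 - (om (i * EE a' b (7 * c : ℤ) d) * chi d * ((7 * c : ℤ) * τ + d) ^ 3 *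
      (2 * π * I * (2 * π * I * fn a (Dop a (Dop a A)) τ))) * h2
  w τ hτ := by
    have h1 := deriv_law1 (fun τ hτ => hasDerivAt_fn hA a hτ)
      (fun τ hτ => (hasDerivAt_fn (hA.dop a) a hτ).const_mul (2 * π * I))
      (a := 0) (b := -1) (c := 7)
      (d := 0) (by omega) (μ := -ε * lam)
      (fun τ hτ => by
        have h3 := ne_zero_of_im hτ
        have h4 := lam_ne
        rw [mob_W, h.w τ hτ, zpow_neg_one]
        push_cast
        field_simp
        linear_combination (ε * fn a A τ * τ) * lam_sq) hτ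
    rw [mob_W] at h1
    apply mul_left_cancel₀ (mul_ne_zero tpi_ne tpi_ne)
    rw [zpow_ofNat]
    push_cast at h1
    linear_combination (1 / 49 : ℂ) * h1 - (ε * lam * τ ^ 3 *
      (2 * π * I * (2 * π * I * fn a (Dop a (Dop a A)) τ))) * lam_sq

lemma exists_big_im {f : ℂ → ℂ} (h : Law 0 0 1 f) {τ : ℂ} (hτ : 0 < τ.im) :
    ∃ x : ℂ, 1 / 14 ≤ x.im ∧ f x = f τ := by
  obtain ⟨γ, hγ⟩ := ModularGroup.exists_one_half_le_im_smul ⟨τ, hτ⟩
  rw [ModularGroup.im_smul_eq_div_normSq] at hγ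
  have hdet : γ 0 0 * γ 1 1 - γ 0 1 * γ 1 0 = 1 := by
    have := γ.det_coe
    rwa [Matrix.det_fin_two] at this
  have hden : UpperHalfPlane.denom (γ : GL (Fin 2) ℝ) ((⟨τ, hτ⟩ : UpperHalfPlane) : ℂ) =
      (γ 1 0 : ℤ) * τ + (γ 1 1 : ℤ) := by
    simp [UpperHalfPlane.denom]
  rw [hden] at hγ
  have hγ' : 1 / 2 ≤ τ.im / normSq ((γ 1 0 : ℤ) * τ + (γ 1 1 : ℤ)) := hγ
  generalize γ 0 0 = a, γ 0 1 = b, γ 1 0 = c, γ 1 1 = d at hdet hγ'
  by_cases hc : (7 : ℤ) ∣ c
  · obtain ⟨c, rfl⟩ := hc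
    refine ⟨mob a b (7 * c) d τ, ?_, by rw [h.g a b c d hdet τ hτ]; simp [om_zero]⟩
    rw [im_mob, hdet]
    simp only [Int.cast_one, one_mul]
    linarith
  · have h7 : IsCoprime c 7 :=
      ((Int.prime_iff_natAbs_prime.mpr (by norm_num) : Prime (7 : ℤ)).coprime_iff_not_dvd.mpr
        hc).symm
    have hcd : IsCoprime c d := ⟨-b, a, by linear_combination hdet⟩
    obtain ⟨x, y, hxy⟩ := h7.mul_right hcd
    have hd2 : x * c - (-y) * (7 * d) = 1 := by linear_combination hxy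
    have hd3 : x * c - y * (7 * (-d)) = 1 := by linear_combination hxy
    refine ⟨mob x y (7 * (-d)) c (-1 / (7 * τ)), ?_, by
      rw [h.g x y (-d) c hd3 _ (im_W hτ), h.w τ hτ]; simp [om_zero]⟩
    have h0 := ne_zero_of_im hτ
    rw [← mob_W, mob_mob _ _ _ _ (by simpa using h0), im_mob]
    have e1 : ((7 * -d * 0 + c * 7 : ℤ) : ℂ) * τ + (7 * -d * -1 + c * 0 : ℤ) =
        7 * (c * τ + d) := by push_cast; ring
    have e2 : (x * 0 + y * 7) * (7 * -d * -1 + c * 0) - (x * -1 + y * 0) * (7 * -d * 0 + c * 7) =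
        7 := by linear_combination 7 * hxy
    rw [e1, e2, map_mul]
    have e3 : normSq (7 : ℂ) = 49 := by simp [normSq_apply]; norm_num
    rw [e3]
    have e4 : ((7 : ℤ) : ℝ) * τ.im / (49 * normSq (c * τ + d)) =
        1 / 7 * (τ.im / normSq (c * τ + d)) := by
      push_cast; field_simp; ring
    rw [e4]; linarith

lemma liouville {A : ℂ⟦X⟧} (hA : Conv A) (h : Law 0 0 1 (fn 1 A)) : A = 0 := by
  have hXA := conv_X.mul hA
  have e : ∀ τ : ℂ, 0 < τ.im → ev (X * A) (ee τ) = fn 1 A τ := fun τ hτ => by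
    unfold fn; rw [ev_mul conv_X hA (norm_ee_lt hτ), ev_X, one_mul]
  have hpi := Real.pi_pos
  have h1 := eq_const_of_exists_le hXA.differentiableOn (r := Real.exp (-(2 * π * (1 / 14))))
    (Real.exp_nonneg _) (by rw [Real.exp_lt_one_iff]; linarith) (fun q hq => by
      rcases eq_or_ne q 0 with rfl | h0
      · exact ⟨0, by simpa using Real.exp_nonneg _, le_rfl⟩
      · obtain ⟨τ, hτ, rfl⟩ := exists_ee (mem_ball_zero_iff.mp hq) h0
        obtain ⟨x, hx, hfx⟩ := exists_big_im h hτ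
        refine ⟨ee x, ?_, by rw [e τ hτ, e x (by linarith), hfx]⟩
        rw [mem_closedBall_zero_iff, norm_ee, Real.exp_le_exp]
        nlinarith)
  have h2 : X * A = 0 := eq_zero_of_ev hXA fun q hq _ => by
    rw [h1 (mem_ball_zero_iff.mpr hq)]
    simp [ev_at_zero]
  exact (mul_eq_zero.mp h2).resolve_left X_ne_zero

/-- first coordinate of the line attached to a coset -/
def r1 {p : ℕ} : Option (ZMod p) → ZMod p
  | none => 0
  | some _ => 1

/-- second coordinate of the line attached to a coset -/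
def r2 {p : ℕ} : Option (ZMod p) → ZMod p
  | none => 1
  | some j => 3 * j

lemma perm_sum {p : ℕ} [Fact p.Prime] (h3 : (3 : ZMod p) ≠ 0) {a b c d : ZMod p}
    (hd : a * d - b * c ≠ 0) (T T' : Option (ZMod p) → ℂ) (μ : ℂ)
    (h : ∀ l, ∃ l', (r1 l * a + r2 l * c) * r2 l' - (r1 l * b + r2 l * d) * r1 l' = 0 ∧
      T l = μ * T' l') : ∑ l, T l = μ * ∑ l, T' l := by
  choose φ h1 h2 using h
  have hinj : Function.Injective φ := by
    intro l m hlm
    have e1 := h1 l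
    have e2 := h1 m
    rw [← hlm] at e2
    have e3 : (a * d - b * c) * (r1 l * r2 m - r2 l * r1 m) = 0 := by
      rcases hφ : φ l with _ | j
      · rw [hφ, show r1 (none : Option (ZMod p)) = 0 from rfl,
          show r2 (none : Option (ZMod p)) = 1 from rfl] at e1 e2
        linear_combination (r1 m * b + r2 m * d) * e1 - (r1 l * b + r2 l * d) * e2
      · rw [hφ, show r1 (some j) = 1 from rfl] at e1 e2
        linear_combination (r1 m * a + r2 m * c) * e1 - (r1 l * a + r2 l * c) * e2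
    have e4 := (mul_eq_zero.mp e3).resolve_left hd
    rcases l with _ | j <;> rcases m with _ | k
    · rfl
    · simp [r1, r2] at e4
    · simp [r1, r2] at e4
    · simp only [r1, r2] at e4
      have : (3 : ZMod p) * (k - j) = 0 := by linear_combination e4
      rw [sub_eq_zero.mp ((mul_eq_zero.mp this).resolve_left h3)]
  have hbij := Finite.injective_iff_bijective.mp hinj
  rw [Finset.mul_sum]
  exact Fintype.sum_bijective φ hbij _ _ h2

/-- one term of the Hecke operator -/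
noncomputable def tm (p : ℕ) (f : ℂ → ℂ) (A B D : ℤ) (τ : ℂ) : ℂ :=
  (p : ℂ) ^ 2 * ((D : ℂ) ^ 3)⁻¹ * f (mob A B 0 D τ)

/-- the term attached to a coset -/
noncomputable def tml (p : ℕ) (f : ℂ → ℂ) (τ : ℂ) : Option (ZMod p) → ℂ
  | none => tm p f p 0 1 τ
  | some j => tm p f 1 (3 * j.val) p τ

/-- the Hecke operator in weight 3 -/
noncomputable def hecke (p : ℕ) (f : ℂ → ℂ) (τ : ℂ) : ℂ :=
  (p : ℂ) ^ 2 * f (p * τ) + (p : ℂ)⁻¹ * ∑ j ∈ Finset.range p, f ((τ + 3 * j) / p)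

lemma hecke_eq (p : ℕ) [Fact p.Prime] (f : ℂ → ℂ) (τ : ℂ) : hecke p f τ = ∑ l, tml p f τ l := by
  have hp : (p : ℂ) ≠ 0 := by exact_mod_cast (Fact.out : p.Prime).ne_zero
  rw [Fintype.sum_option]
  unfold hecke
  congr 1
  · simp [tml, tm, mob]
  · rw [Finset.mul_sum]
    symm
    refine Finset.sum_nbij' (fun j => j.val) (fun n => (n : ZMod p)) (fun j _ => ?_) (by simp)
      (by simp) (fun n hn => ?_) (fun j _ => ?_)
    · simpa using ZMod.val_lt j
    · exact ZMod.val_cast_of_lt (by simpa using hn)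
    · simp only [tml, tm, mob]
      push_cast
      rw [one_mul, zero_mul, zero_add]
      congr 1
      field_simp

lemma EE_conj (p A D A' D' a b c d a' b' c' d' : ZMod 3) (hp : p ≠ 0)
    (h1 : (A = 1 ∧ D = p) ∨ (A = p ∧ D = 1)) (h2 : (A' = 1 ∧ D' = p) ∨ (A' = p ∧ D' = 1))
    (ea : A * a = a' * A') (eb : A * b = b' * D') (ec : D * c = c' * A') (ed : D * d = d' * D') :
    EE a' b' c' d' = p * EE a b c d := by
  have hp' : ∀ p : ZMod 3, p ≠ 0 → p = 1 ∨ p = -1 := by decide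
  have n1 : ∀ x y : ZMod 3, x = -y → y = -x := fun x y h => by rw [h, neg_neg]
  rcases hp' p hp with rfl | rfl <;> rcases h1 with ⟨rfl, rfl⟩ | ⟨rfl, rfl⟩ <;>
    rcases h2 with ⟨rfl, rfl⟩ | ⟨rfl, rfl⟩ <;>
    simp only [one_mul, mul_one, neg_mul, mul_neg, neg_inj] at ea eb ec ed <;>
    (try have ea := n1 _ _ ea) <;> (try have eb := n1 _ _ eb) <;> (try have ec := n1 _ _ ec) <;>
    (try have ed := n1 _ _ ed) <;> subst_vars <;> unfold EE <;> ring

lemma tm_g {i : ZMod 3} {ε : ℂ} {f : ℂ → ℂ} (h : Law 3 i ε f) {p : ℕ} (hp0 : 0 < p)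
    (hp3 : (p : ZMod 3) ≠ 0) (hp7 : chi p = 1) {A B D A' B' D' a b c d a' b' c' d' : ℤ}
    (h1 : (A = 1 ∧ D = p) ∨ (A = p ∧ D = 1)) (h2 : (A' = 1 ∧ D' = p) ∨ (A' = p ∧ D' = 1))
    (hd : a * d - b * (7 * c) = 1)
    (ea : A * a + 3 * B * (7 * c) = a' * A') (eb : A * b + 3 * B * d = a' * (3 * B') + b' * D')
    (ec : D * c = c' * A') (ed : D * d = 7 * c' * (3 * B') + d' * D') {τ : ℂ} (hτ : 0 < τ.im) :
    tm p f A (3 * B) D (mob a b (7 * c) d τ) =
      om (i * p * EE a b (7 * c : ℤ) d) * (chi d * ((7 * c : ℤ) * τ + d)) ^ (3 : ℤ) *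
        tm p f A' (3 * B') D' τ := by
  have hAD : A * D = p := by rcases h1 with ⟨rfl, rfl⟩ | ⟨rfl, rfl⟩ <;> simp
  have hAD' : A' * D' = p := by rcases h2 with ⟨rfl, rfl⟩ | ⟨rfl, rfl⟩ <;> simp
  have hp' : (0 : ℤ) < p := by exact_mod_cast hp0
  have hd' : a' * d' - b' * (7 * c') = 1 := by
    apply mul_left_cancel₀ hp'.ne'
    linear_combination (-(a' * d' - b' * (7 * c'))) * hAD' + hAD + (A * D) * hd -
      (D * d) * ea - (a' * A') * ed + (7 * (D * c)) * eb + 7 * (a' * (3 * B') + b' * D') * ec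
  have hD : (D : ℂ) ≠ 0 := by
    have : D ≠ 0 := by rintro rfl; omega
    exact_mod_cast this
  have hD' : (D' : ℂ) ≠ 0 := by
    have : D' ≠ 0 := by rintro rfl; omega
    exact_mod_cast this
  have hden := den_ne (a := a) (b := b) (c := 7 * c) (d := d) (by omega) hτ
  have hden' : ((0 : ℤ) : ℂ) * τ + D' ≠ 0 := by simpa using hD'
  have e1 : mob A (3 * B) 0 D (mob a b (7 * c) d τ) =
      mob a' b' (7 * c') d' (mob A' (3 * B') 0 D' τ) := by
    rw [mob_mob _ _ _ _ hden, mob_mob _ _ _ _ hden']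
    congr 1 <;> linarith
  have hx : 0 < (mob A' (3 * B') 0 D' τ).im := im_mob_pos (by omega) hτ
  have hchi : chi d' = chi d := by
    have c1 : chi ((1 : ℤ) : ZMod 7) = 1 := by decide
    have cD : chi D = 1 := by rcases h1 with ⟨rfl, rfl⟩ | ⟨rfl, rfl⟩ <;> simp_all
    have cD' : chi D' = 1 := by rcases h2 with ⟨rfl, rfl⟩ | ⟨rfl, rfl⟩ <;> simp_all
    have e := congrArg (Int.cast : ℤ → ZMod 7) ed
    push_cast at e
    rw [show (7 : ZMod 7) = 0 from rfl, zero_mul, zero_mul, zero_add] at e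
    have e' := congrArg chi e
    rw [chi_mul, chi_mul, cD, cD'] at e'
    linarith
  have hE : EE a' b' (7 * c' : ℤ) d' = p * EE a b (7 * c : ℤ) d := by
    have z3 : (3 : ZMod 3) = 0 := rfl
    have ea' := congrArg (Int.cast : ℤ → ZMod 3) ea
    have eb' := congrArg (Int.cast : ℤ → ZMod 3) eb
    have ec' := congrArg (Int.cast : ℤ → ZMod 3) ec
    have ed' := congrArg (Int.cast : ℤ → ZMod 3) ed
    push_cast at ea' eb' ec' ed'
    refine EE_conj p A D A' D' _ _ _ _ _ _ _ _ hp3 ?_ ?_ ?_ ?_ ?_ ?_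
    · rcases h1 with ⟨rfl, rfl⟩ | ⟨rfl, rfl⟩ <;> simp
    · rcases h2 with ⟨rfl, rfl⟩ | ⟨rfl, rfl⟩ <;> simp
    · linear_combination ea' - (B * (7 * c)) * z3
    · linear_combination eb' - (B * d - a' * B') * z3
    · push_cast; linear_combination 7 * ec'
    · linear_combination ed' + (7 * c' * B') * z3
  unfold tm
  rw [e1, h.g _ _ _ _ hd' _ hx, hchi, hE, den_mob _ _ hden', ← mul_assoc i]
  have e2 : ((7 * c' * A' + d' * 0 : ℤ) : ℂ) * τ + (7 * c' * (3 * B') + d' * D' : ℤ) =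
      D * ((7 * c : ℤ) * τ + d) := by
    rw [← ed, show 7 * c' * A' + d' * 0 = D * (7 * c) by linarith]; push_cast; ring
  rw [e2, zpow_ofNat, zpow_ofNat]
  simp only [Int.cast_zero, zero_mul, zero_add]
  field_simp

lemma tm_w {i : ZMod 3} {ε : ℂ} {f : ℂ → ℂ} (h : Law 3 i ε f) {p : ℕ} (hp0 : 0 < p)
    {A B D A' B' D' a' b' c' d' : ℤ} (hAD' : A' * D' = p) (hD : D ≠ 0)
    (hd' : a' * d' - 3 * b' * (7 * (3 * c')) = 1) (hchi : chi d' = 1)
    (ea : B = 3 * b' * A') (eb : -A = 7 * (3 * b') * B' - a' * D')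
    (ec : D = d' * A') (ed : d' * B' = 3 * c' * D') {τ : ℂ} (hτ : 0 < τ.im) :
    tm p f A B D (-1 / (7 * τ)) = ε * (lam * τ) ^ (3 : ℤ) * tm p f A' B' D' τ := by
  have hp' : (0 : ℤ) < p := by exact_mod_cast hp0
  have hD0 : (D : ℂ) ≠ 0 := by exact_mod_cast hD
  have hD' : (D' : ℂ) ≠ 0 := by
    have : D' ≠ 0 := by rintro rfl; omega
    exact_mod_cast this
  have h0 := ne_zero_of_im hτ
  have hden' : ((0 : ℤ) : ℂ) * τ + D' ≠ 0 := by simpa using hD'
  have hx : 0 < (mob A' B' 0 D' τ).im := im_mob_pos (by omega) hτ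
  have hx0 := ne_zero_of_im hx
  have e1 : mob A B 0 D (-1 / (7 * τ)) =
      mob a' (3 * b') (7 * (3 * c')) d' (-1 / (7 * mob A' B' 0 D' τ)) := by
    rw [← mob_W, ← mob_W, mob_mob _ _ _ _ (by simpa using h0),
      mob_mob _ _ _ _ (by simpa using hx0), mob_mob _ _ _ _ hden']
    congr 1 <;> linarith
  have hE : EE a' (3 * b' : ℤ) (7 * (3 * c') : ℤ) d' = 0 := by
    have z3 : (3 : ZMod 3) = 0 := rfl
    push_cast
    rw [z3]; unfold EE; ring
  unfold tm
  rw [e1, h.g _ _ _ _ hd' _ (im_W hx), hchi, hE, h.w _ hx, mul_zero, om_zero]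
  have e2 : (((7 * (3 * c') : ℤ) : ℂ) * (-1 / (7 * mob A' B' 0 D' τ)) + d') *
      mob A' B' 0 D' τ = D * τ / D' := by
    have e3 : (((7 * (3 * c') : ℤ) : ℂ) * (-1 / (7 * mob A' B' 0 D' τ)) + d') *
      mob A' B' 0 D' τ = d' * mob A' B' 0 D' τ - 3 * c' := by
      push_cast; field_simp; ring
    have ec' : (D : ℂ) = d' * A' := by exact_mod_cast ec
    have ed' : (d' : ℂ) * B' = 3 * c' * D' := by exact_mod_cast ed
    rw [e3, ec']; unfold mob
    simp only [Int.cast_zero, zero_mul, zero_add]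
    field_simp
    linear_combination ed'
  simp only [zpow_ofNat]
  have e4 := congrArg (· ^ 3) e2
  simp only [mul_pow, div_pow] at e4
  rw [eq_div_iff (pow_ne_zero 3 hD')] at e4
  generalize (((7 * (3 * c') : ℤ) : ℂ) * (-1 / (7 * mob A' B' 0 D' τ)) + d') = Y at e4 ⊢
  simp only [Int.cast_one, one_mul, mul_pow]
  field_simp
  linear_combination ((p : ℂ) ^ 2 * ε * lam ^ 3 * f (mob A' B' 0 D' τ)) * e4

lemma Law.hecke {i : ZMod 3} {ε : ℂ} {f : ℂ → ℂ} (h : Law 3 i ε f) {p : ℕ} (hp : p.Prime)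
    (hp3 : p ≠ 3) (hp7 : chi p = 1) : Law 3 (i * p) ε (hecke p f) := by
  have := Fact.mk hp
  have h3 : (3 : ZMod p) ≠ 0 := by
    intro h0
    have : p ∣ 3 := (ZMod.natCast_eq_zero_iff 3 p).mp (by exact_mod_cast h0)
    exact hp3 ((Nat.prime_dvd_prime_iff_eq hp Nat.prime_three).mp this)
  have h3' : (p : ZMod 3) ≠ 0 := by
    intro h0
    have : 3 ∣ p := (ZMod.natCast_eq_zero_iff p 3).mp h0
    exact hp3 ((Nat.prime_dvd_prime_iff_eq Nat.prime_three hp).mp this).symm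
  have h7 : (7 : ZMod p) ≠ 0 := by
    intro h0
    have : p ∣ 7 := (ZMod.natCast_eq_zero_iff 7 p).mp (by exact_mod_cast h0)
    have := (Nat.prime_dvd_prime_iff_eq hp (by norm_num)).mp this
    subst this
    revert hp7; decide
  have hv : ∀ j : ZMod p, (((j.val : ℤ)) : ZMod p) = j := fun j => by simp
  have hdv : ∀ x : ℤ, (x : ZMod p) = 0 → ∃ y, x = p * y := fun x hx =>
    (ZMod.intCast_zmod_eq_zero_iff_dvd x p).mp hx
  constructor
  · intro a b c d hd τ hτ
    rw [hecke_eq, hecke_eq]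
    have hdp := det_cast hd (ZMod p)
    refine perm_sum h3 (a := a) (b := b) (c := (7 * c : ℤ)) (d := d) (by rw [hdp]; simp) _ _ _ ?_
    push_cast at hdp
    rintro (_ | j)
    · by_cases hc : (c : ZMod p) = 0
      · obtain ⟨c', hc'⟩ := hdv c hc
        refine ⟨none, by simp [r1, r2, hc], ?_⟩
        exact tm_g h hp.pos h3' hp7 (B := 0) (B' := 0) (a' := a) (b' := p * b) (c' := c') (d' := d)
          (by simp) (by simp) hd (by ring) (by ring) (by linarith) (by ring) hτ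
      · set j' : ZMod p := d / (21 * c) with hj'
        have h21 : (21 * c : ZMod p) ≠ 0 := by
          rw [show (21 : ZMod p) = 3 * 7 by norm_num]
          exact mul_ne_zero (mul_ne_zero h3 h7) hc
        have e : (21 * c : ZMod p) * j' = d := by rw [hj']; exact mul_div_cancel₀ _ h21
        obtain ⟨d', hd'⟩ := hdv (d - 21 * c * j'.val) (by push_cast; rw [ZMod.natCast_zmod_val, e]; ring)
        refine ⟨some j', by simp only [r1, r2]; push_cast; linear_combination e, ?_⟩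
        exact tm_g h hp.pos h3' hp7 (B := 0) (B' := j'.val) (a' := p * a) (b' := b - 3 * a * j'.val)
          (c' := c) (d' := d')
          (by simp) (by simp) hd (by ring) (by ring) (by ring) (by linarith) hτ
    · by_cases hx : (a + 21 * j * c : ZMod p) = 0
      · obtain ⟨a', ha'⟩ := hdv (a + 21 * j.val * c) (by push_cast; rw [ZMod.natCast_zmod_val, hx])
        refine ⟨none, by simp only [r1, r2]; push_cast; linear_combination hx, ?_⟩
        exact tm_g h hp.pos h3' hp7 (B := j.val) (B' := 0) (a' := a') (b' := b + 3 * j.val * d)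
          (c' := c) (d' := p * d)
          (by simp) (by simp) hd (by linarith) (by ring) (by ring) (by ring) hτ
      · set j' : ZMod p := (b + 3 * j * d) / (3 * (a + 21 * j * c)) with hj'
        have e : (3 * (a + 21 * j * c) : ZMod p) * j' = b + 3 * j * d := by rw [hj']; field_simp
        obtain ⟨b', hb'⟩ := hdv (b + 3 * j.val * d - 3 * (a + 21 * j.val * c) * j'.val)
          (by push_cast; rw [ZMod.natCast_zmod_val, ZMod.natCast_zmod_val, e]; ring)
        refine ⟨some j', by simp only [r1, r2]; push_cast; linear_combination e, ?_⟩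
        exact tm_g h hp.pos h3' hp7 (B := j.val) (B' := j'.val) (a' := a + 21 * j.val * c) (b' := b')
          (c' := p * c) (d' := d - 21 * c * j'.val)
          (by simp) (by simp) hd (by ring) (by linarith) (by ring) (by ring) hτ
  · intro τ hτ
    rw [hecke_eq, hecke_eq]
    have c1 : chi ((1 : ℤ) : ZMod 7) = 1 := by decide
    have hp0 : (p : ℤ) ≠ 0 := by exact_mod_cast hp.ne_zero
    refine perm_sum h3 (a := 0) (b := -1) (c := 7) (d := 0) (by simpa using h7) _ _ _ ?_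
    rintro (_ | j)
    · refine ⟨some 0, by simp [r1, r2], ?_⟩
      exact tm_w h hp.pos (a' := 1) (b' := 0) (c' := 0) (d' := 1) (by simp) (by simp) (by simp) c1
        (by simp) (by simp) (by simp) (by simp) hτ
    · by_cases hj : j = 0
      · subst hj
        refine ⟨none, by simp [r1, r2], ?_⟩
        exact tm_w h hp.pos (a' := 1) (b' := 0) (c' := 0) (d' := 1) (by simp) hp0 (by simp) c1
          (by simp) (by simp) (by simp) (by simp) hτ
      · set j' : ZMod p := -1 / (63 * j) with hj'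
        have h63 : (63 * j : ZMod p) ≠ 0 := by
          rw [show (63 : ZMod p) = 3 * 3 * 7 by norm_num]
          exact mul_ne_zero (mul_ne_zero (mul_ne_zero h3 h3) h7) hj
        have e : (63 * j : ZMod p) * j' = -1 := by rw [hj']; exact mul_div_cancel₀ _ h63
        obtain ⟨a', ha'⟩ := hdv (1 + 63 * j.val * j'.val)
          (by push_cast; rw [ZMod.natCast_zmod_val, ZMod.natCast_zmod_val, e]; ring)
        refine ⟨some j', by simp only [r1, r2]; linear_combination e, ?_⟩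
        exact tm_w h hp.pos (a' := a') (b' := j.val) (c' := j'.val) (d' := p) (by simp) hp0
          (by linarith) (by simpa using hp7) (by ring) (by linarith) (by ring) (by ring) hτ

end Pool.Agent.H185Z.L7
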