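import Pool.Agent.H185Z.L7.Split

/-! The congruence for the prime seven. -/

set_option autoImplicit false

open PowerSeries

namespace Pool.Agent.H185Z.L7

lemma tau_lucas (m : ℕ) : ((tau (7 * m + 1) : ZMod 7) = 2 * tau (7 * m) ∧
    (tau (7 * m + 2) : ZMod 7) = tau (7 * m) ∧ (tau (7 * m + 3) : ZMod 7) = 0 ∧
    (tau (7 * m + 4) : ZMod 7) = 0 ∧ (tau (7 * m + 5) : ZMod 7) = 0) ∧
    (tau (7 * m + 6) : ZMod 7) = 0 := by
  have hr : ∀ k : ℕ, ((k : ZMod 7) + 2) ^ 2 * tau (k + 2) =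
      (26 * (k + 1) ^ 2 + 13 * (k + 1) + 2) * tau (k + 1) +
        3 * (3 * k + 2) * (3 * k + 1) * tau k := fun k => by
    have := congrArg (Int.cast : ℤ → ZMod 7) (tau_rec k)
    push_cast at this; exact this
  have z7 : (7 : ZMod 7) = 0 := rfl
  have step : ∀ m : ℕ, (tau (7 * m + 1) : ZMod 7) = 2 * tau (7 * m) →
      ((tau (7 * m + 1) : ZMod 7) = 2 * tau (7 * m) ∧
      (tau (7 * m + 2) : ZMod 7) = tau (7 * m) ∧ (tau (7 * m + 3) : ZMod 7) = 0 ∧
      (tau (7 * m + 4) : ZMod 7) = 0 ∧ (tau (7 * m + 5) : ZMod 7) = 0) ∧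
      (tau (7 * m + 6) : ZMod 7) = 0 := by
    intro m h1
    have r0 := hr (7 * m)
    have r1 := hr (7 * m + 1)
    have r2 := hr (7 * m + 2)
    have r3 := hr (7 * m + 3)
    have r4 := hr (7 * m + 4)
    simp only [add_assoc] at r1 r2 r3 r4
    push_cast at r0 r1 r2 r3 r4
    rw [z7, zero_mul] at r0 r1 r2 r3 r4
    rw [h1] at r0 r1
    generalize (tau (7 * m) : ZMod 7) = a at *
    generalize (tau (7 * m + 2) : ZMod 7) = b at *
    generalize (tau (7 * m + 3) : ZMod 7) = c at *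
    generalize (tau (7 * m + 4) : ZMod 7) = d at *
    generalize (tau (7 * m + 5) : ZMod 7) = e at *
    generalize (tau (7 * m + 6) : ZMod 7) = f at *
    have hb : b = a := by revert r0; generalize a = a; generalize b = b; revert a b; decide
    subst hb
    have hc : c = 0 := by revert r1; generalize b = b; generalize c = c; revert b c; decide
    subst hc
    have hd : d = 0 := by revert r2; generalize b = b; generalize d = d; revert b d; decide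
    subst hd
    have he : e = 0 := by revert r3; generalize e = e; revert e; decide
    subst he
    have hf : f = 0 := by revert r4; generalize f = f; revert f; decide
    exact ⟨⟨h1, rfl, rfl, rfl, rfl⟩, hf⟩
  induction m with
  | zero => exact step 0 (by simp [tau_zero, tau_one])
  | succ m ih =>
    apply step
    have r := hr (7 * m + 6)
    rw [ih.2, show 7 * m + 6 + 2 = 7 * (m + 1) + 1 by ring,
      show 7 * m + 6 + 1 = 7 * (m + 1) by ring] at r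
    push_cast at r
    rw [z7, zero_mul] at r
    revert r
    generalize (tau (7 * (m + 1) + 1) : ZMod 7) = a
    generalize (tau (7 * (m + 1)) : ZMod 7) = b
    revert a b; decide

/-- integers modulo 49 -/
abbrev RR : Type := ZMod 49

/-- `((1 - x) ^ 7 - (1 - x ^ 7)) / 7` -/
noncomputable def a7 : RR⟦X⟧ := -X + 3 * X ^ 2 - 5 * X ^ 3 + 5 * X ^ 4 - 3 * X ^ 5 + X ^ 6

/-- `a7 / (1 - x ^ 7)` -/
noncomputable def ga : RR⟦X⟧ := V7 RR (mk 1) * a7

lemma z49 : (49 : RR⟦X⟧) = 0 := by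
  rw [← map_ofNat C 49, show (49 : RR) = 0 from rfl, map_zero]

lemma ga_spec : (1 - X ^ 7) * (1 + 7 * ga) = (1 - X) ^ 7 := by
  have h : (1 - X ^ 7) * V7 RR (mk 1) = 1 := by
    have := congrArg (V7 RR) (mk_one_mul_one_sub_eq_one RR)
    rw [map_mul, map_sub, map_one, V7, expand_X] at this
    rw [mul_comm]; exact this
  unfold ga a7
  linear_combination (7 * (-X + 3 * X ^ 2 - 5 * X ^ 3 + 5 * X ^ 4 - 3 * X ^ 5 + X ^ 6)) * h

lemma Uop_ga : Uop 7 ga = 0 := by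
  unfold ga V7
  rw [Uop_expand_mul]
  have : Uop 7 a7 = 0 := by
    ext n
    have h : ∀ k : ℕ, 0 < k → k < 7 → coeff (7 * n) (X ^ k : RR⟦X⟧) = 0 := fun k h1 h2 => by
      rw [coeff_X_pow, if_neg (by omega)]
    have h1 := h 1 (by norm_num) (by norm_num)
    rw [pow_one] at h1
    simp only [Uop, a7, coeff_mk, map_add, map_sub, map_neg, ← map_ofNat C, coeff_C_mul, h1,
      h 2 (by norm_num) (by norm_num), h 3 (by norm_num) (by norm_num),
      h 4 (by norm_num) (by norm_num), h 5 (by norm_num) (by norm_num),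
      h 6 (by norm_num) (by norm_num)]
    simp
  rw [this, mul_zero]

/-- the logarithmic part -/
noncomputable def HH : RR⟦X⟧ := mk fun m => ∑ d ∈ m.divisors, coeff d ga

lemma Uop_HH : Uop 7 HH = HH := by
  ext m
  simp only [Uop, HH, coeff_mk]
  symm
  rcases eq_or_ne m 0 with rfl | hm
  · simp
  refine Finset.sum_subset (Nat.divisors_subset_of_dvd (by omega) (by simp)) fun d h1 h2 => ?_
  have h3 : 7 ∣ d := by
    by_contra h
    have hc : Nat.Coprime d 7 :=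
      ((Nat.Prime.coprime_iff_not_dvd (by norm_num)).mpr h).symm
    exact h2 (Nat.mem_divisors.mpr ⟨hc.dvd_of_dvd_mul_left (Nat.dvd_of_mem_divisors h1), hm⟩)
  obtain ⟨k, rfl⟩ := h3
  simpa [Uop] using congrArg (coeff k) Uop_ga

lemma prod_spec (N : ℕ) : (∏ n ∈ Finset.range N, (1 - X ^ (7 * (n + 1)) : RR⟦X⟧)) *
    (1 + 7 * ∑ n ∈ Finset.range N, expand (n + 1) (Nat.succ_ne_zero n) ga) =
      (∏ n ∈ Finset.range N, (1 - X ^ (n + 1) : RR⟦X⟧)) ^ 7 := by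
  induction N with
  | zero => simp
  | succ N ih =>
    have h := congrArg (expand (N + 1) (Nat.succ_ne_zero N)) ga_spec
    simp only [map_mul, map_add, map_sub, map_pow, map_one, expand_X, map_ofNat] at h
    rw [Finset.prod_range_succ, Finset.prod_range_succ, Finset.sum_range_succ, mul_pow, ← ih, ← h,
      ← pow_mul, mul_comm (N + 1) 7]
    linear_combination (-(∏ n ∈ Finset.range N, (1 - X ^ (7 * (n + 1)) : RR⟦X⟧)) *
      (1 - X ^ (7 * (N + 1))) * (∑ n ∈ Finset.range N, expand (n + 1) (Nat.succ_ne_zero n) ga) *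
      expand (N + 1) (Nat.succ_ne_zero N) ga) * z49

lemma Phi_trunc (R : Type*) [CommRing R] (N : ℕ) :
    X ^ (N + 1) ∣ Phi R - ∏ n ∈ Finset.range N, (1 - X ^ (n + 1) : R⟦X⟧) := by
  have h1 : ∀ᶠ s : Finset ℕ in Filter.atTop, ∀ n ∈ Finset.range (N + 1),
      coeff n (∏ n ∈ s, (1 - X ^ (n + 1) : R⟦X⟧)) = coeff n (Phi R) :=
    (Filter.eventually_all_finset _).mpr fun n _ => coeff_prod_one_sub_X_pow_eventually_eq R n
  obtain ⟨s, hs, hs'⟩ := (h1.and (Filter.eventually_ge_atTop (Finset.range N))).exists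
  have h2 : X ^ (N + 1) ∣ Phi R - ∏ n ∈ s, (1 - X ^ (n + 1) : R⟦X⟧) := by
    rw [X_pow_dvd_iff]
    intro m hm
    rw [map_sub, hs m (Finset.mem_range.mpr hm), sub_self]
  have h3 : ∀ t : Finset ℕ, (∀ n ∈ t, N ≤ n) →
      X ^ (N + 1) ∣ ∏ n ∈ t, (1 - X ^ (n + 1) : R⟦X⟧) - 1 := by
    intro t
    induction t using Finset.induction_on with
    | empty => simp
    | insert a t ha ih =>
      intro h
      rw [Finset.prod_insert ha]
      have e : (1 - X ^ (a + 1) : R⟦X⟧) * ∏ n ∈ t, (1 - X ^ (n + 1) : R⟦X⟧) - 1 =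
          (∏ n ∈ t, (1 - X ^ (n + 1) : R⟦X⟧) - 1) -
            X ^ (a + 1) * ∏ n ∈ t, (1 - X ^ (n + 1) : R⟦X⟧) := by ring
      rw [e]
      exact (ih fun n hn => h n (by simp [hn])).sub
        ((pow_dvd_pow _ (by have := h a (by simp); omega)).mul_right _)
  have h4 := (h3 (s \ Finset.range N) (fun n hn => by simpa using (Finset.mem_sdiff.mp hn).2)).mul_right
    (∏ n ∈ Finset.range N, (1 - X ^ (n + 1) : R⟦X⟧))
  rw [sub_mul, Finset.prod_sdiff hs', one_mul] at h4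
  simpa using h2.add h4

lemma HH_trunc (N : ℕ) :
    X ^ (N + 1) ∣ HH - ∑ n ∈ Finset.range N, expand (n + 1) (Nat.succ_ne_zero n) ga := by
  rw [X_pow_dvd_iff]
  intro m hm
  have h0 : coeff 0 ga = 0 := by simpa [Uop] using congrArg (coeff 0) Uop_ga
  rw [map_sub, sub_eq_zero, map_sum]
  simp only [HH, coeff_mk, coeff_expand]
  rcases eq_or_ne m 0 with rfl | hm0
  · simp only [Nat.divisors_zero, Finset.sum_empty, dvd_zero, if_true, Nat.zero_div, h0,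
      Finset.sum_const_zero]
  rw [← Nat.sum_div_divisors m (fun d => coeff d ga), ← Finset.sum_filter]
  refine Finset.sum_nbij' (fun d => d - 1) (fun n => n + 1) (fun d hd => ?_) (fun n hn => ?_)
    (fun d hd => ?_) (fun n _ => by simp) (fun d hd => ?_)
  · have h1 := Nat.pos_of_mem_divisors hd
    have h2 := Nat.divisor_le hd
    simp only [Finset.mem_filter, Finset.mem_range]
    rw [Nat.sub_add_cancel h1]
    exact ⟨by omega, Nat.dvd_of_mem_divisors hd⟩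
  · simp only [Finset.mem_filter] at hn
    exact Nat.mem_divisors.mpr ⟨hn.2, hm0⟩
  · have h1 := Nat.pos_of_mem_divisors hd
    omega
  · rw [Nat.sub_add_cancel (Nat.pos_of_mem_divisors hd)]

lemma Phi_seven : V7 RR (Phi RR) * (1 + 7 * HH) = Phi RR ^ 7 := by
  have key : ∀ N : ℕ, X ^ (N + 1) ∣ V7 RR (Phi RR) * (1 + 7 * HH) - Phi RR ^ 7 := by
    intro N
    obtain ⟨A, hA⟩ := Phi_trunc RR N
    obtain ⟨B, hB⟩ := HH_trunc N
    have h1 := congrArg (V7 RR) hA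
    simp only [map_sub, map_mul, map_prod, map_pow, map_one, V7, expand_X, ← pow_mul] at h1
    have h2 : X ^ (N + 1) ∣ Phi RR ^ 7 - (∏ n ∈ Finset.range N, (1 - X ^ (n + 1) : RR⟦X⟧)) ^ 7 :=
      (Dvd.intro _ hA.symm).trans (sub_dvd_pow_sub_pow _ _ 7)
    have h3 : (X : RR⟦X⟧) ^ (N + 1) ∣ X ^ (7 * (N + 1)) := pow_dvd_pow _ (by omega)
    have e : V7 RR (Phi RR) * (1 + 7 * HH) - Phi RR ^ 7 =
        X ^ (7 * (N + 1)) * (V7 RR A * (1 + 7 * HH)) +
        X ^ (N + 1) * (7 * B * ∏ n ∈ Finset.range N, (1 - X ^ (7 * (n + 1)) : RR⟦X⟧)) -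
        (Phi RR ^ 7 - (∏ n ∈ Finset.range N, (1 - X ^ (n + 1) : RR⟦X⟧)) ^ 7) := by
      rw [← prod_spec]; unfold V7
      linear_combination (1 + 7 * HH) * h1 +
        (7 * ∏ n ∈ Finset.range N, (1 - X ^ (7 * (n + 1)) : RR⟦X⟧)) * hB
    rw [e]
    exact ((h3.mul_right _).add (dvd_mul_right _ _)).sub h2
  ext n
  have := X_pow_dvd_iff.mp (key n) n (by omega)
  rwa [map_sub, sub_eq_zero] at this

lemma g0_seven : g0 RR = 1 + 7 * HH := by
  have h := V7_mul RR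
  unfold g0 Sg S0 ph
  rw [z49]
  linear_combination (-(V7 RR (Phii RR)) ^ 4 * V7 RR (Phi RR) ^ 3) * Phi_seven +
    ((1 + 7 * HH) * ((V7 RR (Phi RR) * V7 RR (Phii RR)) ^ 2 + 1) *
      (V7 RR (Phi RR) * V7 RR (Phii RR) + 1)) * h

lemma U0_seven : U0 RR = S0 RR + 13 * X := by unfold U0; rw [z49]; ring

lemma S0_seven : S0 RR ^ 7 = V7 RR (S0 RR) * (1 + 28 * (HH - V7 RR HH)) := by
  have h1 := Phi_seven
  have h2 := congrArg (V7 RR) Phi_seven
  simp only [map_mul, map_add, map_pow, map_one, map_ofNat] at h2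
  have h3 := V7_mul RR
  have h4 := congrArg (V7 RR) h3
  simp only [map_mul, map_one] at h4
  have h5 : V7 RR (Phii RR) ^ 7 = V7 RR (V7 RR (Phii RR)) * (1 - 7 * V7 RR HH) := by
    have h6 : V7 RR (Phi RR) ^ 7 * V7 RR (Phii RR) ^ 7 = 1 := by rw [← mul_pow, h3, one_pow]
    have h7 : V7 RR (Phi RR) ^ 7 * (V7 RR (V7 RR (Phii RR)) * (1 - 7 * V7 RR HH)) = 1 := by
      rw [← h2]
      linear_combination (1 - 49 * V7 RR HH ^ 2) * h4 - V7 RR HH ^ 2 * z49
    linear_combination (-V7 RR (Phii RR) ^ 7) * h7 +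
      (V7 RR (V7 RR (Phii RR)) * (1 - 7 * V7 RR HH)) * h6
  have h8 : (1 + 7 * HH) * (1 - 7 * V7 RR HH) = 1 + 7 * (HH - V7 RR HH) := by
    linear_combination (-HH * V7 RR HH) * z49
  have h9 : (1 + 7 * (HH - V7 RR HH)) ^ 4 = 1 + 28 * (HH - V7 RR HH) := by
    generalize HH - V7 RR HH = w
    linear_combination (6 * w ^ 2 + 28 * w ^ 3 + 49 * w ^ 4) * z49
  unfold S0
  simp only [map_mul, map_pow]
  rw [← h9, ← h8, mul_pow, ← pow_mul, ← pow_mul, mul_comm 4 7, pow_mul, pow_mul, ← h1, h5]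
  ring

theorem tau_seven (n : ℕ) : (7 : ℤ) ^ 2 ∣ tau (7 * n + 7) - tau (n + 1) := by
  set k1 : RR⟦X⟧ := V7 RR (S0 RR) * (28 * (HH - V7 RR HH)) with hk1
  set k2 : RR⟦X⟧ := 5 * X ^ 7 - U0 RR * X ^ 6 - 3 * U0 RR ^ 2 * X ^ 5 + 2 * U0 RR ^ 3 * X ^ 4 -
    5 * U0 RR ^ 4 * X ^ 3 - 3 * U0 RR ^ 5 * X ^ 2 - U0 RR ^ 6 * X with hk2
  have hU : U0 RR ^ 7 = V7 RR (U0 RR) + (k1 + 7 * k2) := by
    have e1 : V7 RR (U0 RR) = V7 RR (S0 RR) + 13 * X ^ 7 := by
      rw [U0_seven, map_add, map_mul, map_ofNat, V7, expand_X]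
    have e2 : S0 RR = U0 RR - 13 * X := by rw [U0_seven]; ring
    have e3 := S0_seven
    rw [e2] at e3
    rw [e1, hk1, hk2, e2]
    linear_combination e3 + (1280581 * X ^ 7 - 689544 * U0 RR * X ^ 6 + 159126 * U0 RR ^ 2 * X ^ 5 -
      20401 * U0 RR ^ 3 * X ^ 4 + 1570 * U0 RR ^ 4 * X ^ 3 - 72 * U0 RR ^ 5 * X ^ 2 +
      2 * U0 RR ^ 6 * X) * z49
  have hsq : (k1 + 7 * k2) ^ 2 = 0 := by
    rw [hk1]; linear_combination (V7 RR (S0 RR) * (4 * (HH - V7 RR HH)) + k2) ^ 2 * z49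
  have hUH : Uop 7 (1 + 7 * HH) = 1 + 7 * HH := by
    have h1 : Uop 7 (1 : RR⟦X⟧) = 1 := by
      ext m; simp [Uop, coeff_one]
    rw [Uop_add, ← map_ofNat C 7, Uop_C_mul, Uop_HH, h1]
  have hk1' : ∀ A : RR⟦X⟧, Uop 7 (V7 RR A * k1) = 0 := fun A => by
    have h1 : Uop 7 (V7 RR HH) = HH := by ext m; simp [Uop, V7]
    have : V7 RR A * k1 = V7 RR (A * S0 RR) * (C 28 * HH + C (-28) * V7 RR HH) := by
      rw [hk1, map_mul, map_neg, map_ofNat]; ring
    rw [this, V7, Uop_expand_mul, Uop_add, Uop_C_mul, Uop_C_mul, ← V7, h1, Uop_HH, map_neg]; ring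
  have hpow : V7 RR (U0 RR ^ n) * 7 = g0 RR * U0 RR ^ (7 * n) * 7 := by
    rw [pow_mul, hU, g0_seven, map_pow]
    obtain ⟨w, hw⟩ := sub_dvd_pow_sub_pow (V7 RR (U0 RR) + (k1 + 7 * k2)) (V7 RR (U0 RR)) n
    rw [hk1] at hw ⊢
    linear_combination (-7) * hw - ((V7 RR (S0 RR) * (4 * (HH - V7 RR HH)) + k2) * w +
      HH * (V7 RR (U0 RR) + (V7 RR (S0 RR) * (28 * (HH - V7 RR HH)) + 7 * k2)) ^ n) * z49
  have e : g0 RR * U0 RR ^ (7 * (n + 1)) = V7 RR (U0 RR ^ (n + 1)) * (1 + 7 * HH) +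
      (C ((n + 1 : ℕ) : RR) * (V7 RR (U0 RR ^ n) * k1) +
        C ((n + 1 : ℕ) : RR) * (C 7 * (g0 RR * U0 RR ^ (7 * n) * k2))) := by
    have e4 : g0 RR * (k1 + 7 * k2) = k1 + 7 * k2 := by
      rw [g0_seven, hk1]
      linear_combination (HH * (V7 RR (S0 RR) * (4 * (HH - V7 RR HH)) + k2)) * z49
    rw [pow_mul, hU, add_pow_sq_zero _ _ hsq, map_natCast, map_ofNat, ← g0_seven]
    simp only [map_pow] at hpow ⊢
    linear_combination (((n + 1 : ℕ) : RR⟦X⟧) * V7 RR (U0 RR) ^ n) * e4 +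
      (((n + 1 : ℕ) : RR⟦X⟧) * k2) * hpow
  have h1 := congrArg (fun A => coeff (n + 1) (Uop 7 A)) e
  simp only [Uop_add, Uop_C_mul, hk1'] at h1
  rw [V7, Uop_expand_mul, hUH, ← g0_seven, mul_comm _ (g0 RR),
    map_add, ← tau_cast, mul_zero, zero_add, coeff_C_mul, coeff_C_mul] at h1
  simp only [Uop, coeff_mk] at h1
  rw [← tau_cast] at h1
  have hc : ∀ j i : ℕ, j + i = 7 →
      coeff (7 * (n + 1)) (g0 RR * U0 RR ^ (7 * n + j) * (X : RR⟦X⟧) ^ i) =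
        ((tau (7 * n + j) : ℤ) : RR) := by
    intro j i h
    rw [show 7 * (n + 1) = 7 * n + j + i by omega, coeff_mul_X_pow, tau_cast]
  have e5 : g0 RR * U0 RR ^ (7 * n) * k2 = C 5 * (g0 RR * U0 RR ^ (7 * n + 0) * X ^ 7) -
      g0 RR * U0 RR ^ (7 * n + 1) * X ^ 6 - C 3 * (g0 RR * U0 RR ^ (7 * n + 2) * X ^ 5) +
      C 2 * (g0 RR * U0 RR ^ (7 * n + 3) * X ^ 4) - C 5 * (g0 RR * U0 RR ^ (7 * n + 4) * X ^ 3) -
      C 3 * (g0 RR * U0 RR ^ (7 * n + 5) * X ^ 2) - g0 RR * U0 RR ^ (7 * n + 6) * X ^ 1 := by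
    rw [hk2]; simp only [map_ofNat]; ring
  rw [e5] at h1
  simp only [map_add, map_sub, coeff_C_mul, hc 0 7 rfl, hc 1 6 rfl, hc 2 5 rfl, hc 3 4 rfl,
    hc 4 3 rfl, hc 5 2 rfl, hc 6 1 rfl] at h1
  obtain ⟨⟨l1, l2, l3, l4, l5⟩, l6⟩ := tau_lucas n
  obtain ⟨w, hw⟩ := (ZMod.intCast_zmod_eq_zero_iff_dvd (5 * tau (7 * n + 0) - tau (7 * n + 1) -
      3 * tau (7 * n + 2) + 2 * tau (7 * n + 3) - 5 * tau (7 * n + 4) - 3 * tau (7 * n + 5) -
      tau (7 * n + 6)) 7).mp (by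
    push_cast
    rw [l1, l2, l3, l4, l5, l6, add_zero]; ring)
  have hw' := congrArg (Int.cast : ℤ → RR) hw
  push_cast at hw' h1
  rw [hw'] at h1
  have h2 : ((tau (n + 1) : ℤ) : RR) = tau (7 * (n + 1)) := by
    have z : (49 : RR) = 0 := rfl
    linear_combination -h1 - ((n + 1 : RR) * w) * z
  have := (ZMod.intCast_eq_intCast_iff_dvd_sub _ _ _).mp h2
  rw [show 7 * n + 7 = 7 * (n + 1) by ring]
  exact_mod_cast this

end Pool.Agent.H185Z.L7
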