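import Pool.Agent.H185Z.L7.Struct

/-! The congruence for split primes. -/

set_option autoImplicit false

open PowerSeries Complex

namespace Pool.Agent.H185Z.L7

/-- fraction field of the power series -/
abbrev KK : Type := FractionRing ℂ⟦X⟧

/-- the embedding -/
noncomputable abbrev io : ℂ⟦X⟧ →+* KK := algebraMap ℂ⟦X⟧ KK

lemma io_inj : Function.Injective io := IsFractionRing.injective _ _

lemma ioX_ne : io X ≠ 0 := by
  rw [← map_zero io]; exact fun h => X_ne_zero (io_inj h)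

/-- the hauptmodul -/
noncomputable def uK : KK := io (U0 ℂ) / io X

/-- evaluation at the hauptmodul -/
noncomputable def evu : Polynomial ℂ →+* KK := Polynomial.eval₂RingHom (io.comp C) uK

lemma evu_C (c : ℂ) : evu (Polynomial.C c) = io (C c) := by simp [evu]
lemma evu_X : evu Polynomial.X = uK := by simp [evu]
lemma X_uK : io X * uK = io (U0 ℂ) := by unfold uK; rw [mul_div_cancel₀ _ ioX_ne]

lemma IsP.poly (n : ℕ) : ∀ A : ℂ⟦X⟧, IsP n A →
    ∃ P : Polynomial ℂ, P.natDegree ≤ n ∧ io A = io X ^ n * evu P := by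
  induction n with
  | zero =>
    rintro A ⟨c, rfl⟩
    exact ⟨Polynomial.C c, by simp, by simp [evu_C]⟩
  | succ n ih =>
    rintro A ⟨c, B, hB, rfl⟩
    obtain ⟨P, h1, h2⟩ := ih B hB
    refine ⟨Polynomial.C c * Polynomial.X ^ (n + 1) + P, ?_, ?_⟩
    · refine (Polynomial.natDegree_add_le _ _).trans (max_le ?_ (by omega))
      exact Polynomial.natDegree_C_mul_X_pow_le _ _
    · simp only [map_add, map_mul, map_pow, evu_C, evu_X, h2, ← X_uK]; ring

lemma exists_isP (n : ℕ) : ∀ P : Polynomial ℂ, P.natDegree ≤ n →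
    ∃ A, IsP n A ∧ io A = io X ^ n * evu P ∧ coeff 0 A = P.coeff n := by
  induction n with
  | zero =>
    intro P hP
    rw [Polynomial.eq_C_of_natDegree_le_zero hP]
    exact ⟨C (P.coeff 0), ⟨_, rfl⟩, by simp [evu_C], by simp⟩
  | succ n ih =>
    intro P hP
    obtain ⟨B, h1, h2, -⟩ := ih (P - Polynomial.C (P.coeff (n + 1)) * Polynomial.X ^ (n + 1)) (by
      rw [Polynomial.natDegree_le_iff_coeff_eq_zero] at hP ⊢
      intro N hN
      rcases eq_or_ne N (n + 1) with rfl | hne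
      · simp
      · simp [Polynomial.coeff_X_pow, hne, hP N (by omega)])
    refine ⟨_, ⟨P.coeff (n + 1), B, h1, rfl⟩, ?_, ?_⟩
    · simp only [map_add, map_sub, map_mul, map_pow, evu_C, evu_X, h2, ← X_uK]; ring
    · have := (E3_U0 ℂ).1
      simp only [coeff_zero_eq_constantCoeff] at this
      simp [this]

lemma evu_inj : Function.Injective evu := by
  rw [injective_iff_map_eq_zero]
  intro P hP
  obtain ⟨A, -, h2, h3⟩ := exists_isP _ P le_rfl
  rw [hP, mul_zero, ← map_zero io] at h2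
  rw [io_inj h2] at h3
  exact Polynomial.leadingCoeff_eq_zero.mp (by simpa using h3.symm)

lemma divide {e M : ℕ} (he : e ≤ 1) {A1 A2 : ℂ⟦X⟧} (h1 : IsP (M + e + 2) A1)
    (h2 : IsP (2 * M + e + 2) A2)
    (h : A1 ^ 2 = A2 * ((U0 ℂ + X) * (U0 ℂ - 27 * X) * U0 ℂ ^ e)) :
    ∃ B, IsP M B ∧ A1 = B * ((U0 ℂ + X) * (U0 ℂ - 27 * X) * U0 ℂ ^ e) := by
  obtain ⟨P1, d1, e1⟩ := h1.poly
  obtain ⟨P2, -, e2⟩ := h2.poly
  set D : Polynomial ℂ := (Polynomial.X - Polynomial.C (-1)) * (Polynomial.X - Polynomial.C 27) *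
    (Polynomial.X - Polynomial.C 0) ^ e with hD
  have eD : io ((U0 ℂ + X) * (U0 ℂ - 27 * X) * U0 ℂ ^ e) = io X ^ (e + 2) * evu D := by
    simp only [hD, map_add, map_sub, map_mul, map_pow, evu_X, ← X_uK, map_neg, map_one,
      map_ofNat, map_zero]
    ring
  have hP : P1 ^ 2 = P2 * D := by
    apply evu_inj
    apply mul_left_cancel₀ (pow_ne_zero (2 * (M + e + 2)) ioX_ne)
    have := congrArg io h
    rw [map_pow, map_mul, eD, e1, e2] at this
    rw [map_pow, map_mul]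
    linear_combination this
  have hr : ∀ a : ℂ, D.eval a = 0 → (Polynomial.X - Polynomial.C a) ∣ P1 := fun a ha => by
    rw [Polynomial.dvd_iff_isRoot]
    have := congrArg (Polynomial.eval a) hP
    rw [Polynomial.eval_mul, ha, mul_zero, Polynomial.eval_pow] at this
    exact pow_eq_zero_iff two_ne_zero |>.mp this
  have hc : ∀ a b : ℂ, a ≠ b →
      IsCoprime (Polynomial.X - Polynomial.C a) (Polynomial.X - Polynomial.C b) := fun a b hab =>
    Polynomial.isCoprime_X_sub_C_of_isUnit_sub (sub_ne_zero.mpr hab).isUnit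
  have hdvd : D ∣ P1 := by
    refine IsCoprime.mul_dvd ?_ (IsCoprime.mul_dvd (hc _ _ (by norm_num))
      (hr _ (by simp [hD])) (hr _ (by simp [hD]))) ?_
    · exact ((hc _ _ (by norm_num)).mul_left (hc _ _ (by norm_num))).pow_right
    · interval_cases e
      · simp
      · rw [pow_one]; exact hr _ (by simp [hD])
  obtain ⟨P, rfl⟩ := hdvd
  have hm : D.Monic := ((Polynomial.monic_X_sub_C _).mul (Polynomial.monic_X_sub_C _)).mul
    ((Polynomial.monic_X_sub_C _).pow _)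
  have hdeg : D.natDegree = e + 2 := by
    rw [hD, ((Polynomial.monic_X_sub_C _).mul (Polynomial.monic_X_sub_C _)).natDegree_mul
      ((Polynomial.monic_X_sub_C _).pow _),
      (Polynomial.monic_X_sub_C _).natDegree_mul (Polynomial.monic_X_sub_C _),
      (Polynomial.monic_X_sub_C _).natDegree_pow]
    simp only [Polynomial.natDegree_X_sub_C]; ring
  have hPd : P.natDegree ≤ M := by
    rcases eq_or_ne P 0 with rfl | h0
    · simp
    · rw [hm.natDegree_mul' h0, hdeg] at d1; omega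
  obtain ⟨B, b1, b2, -⟩ := exists_isP M P hPd
  refine ⟨B, b1, io_inj ?_⟩
  rw [map_mul, eD, b2, e1, map_mul]; ring

/-- complexification of integral series -/
noncomputable abbrev cx : ℤ⟦X⟧ →+* ℂ⟦X⟧ := map (Int.castRingHom ℂ)

lemma cx_inj : Function.Injective cx := map_injective _ (RingHom.injective_int _)

lemma integral_lemma (m : ℤ) (M : ℕ) : ∀ A T : ℤ⟦X⟧, IsP M (cx (X ^ M * A + C m * T)) →
    ∃ (c : ℤ) (T' : ℤ⟦X⟧), A = C c + C m * T' := by
  induction M with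
  | zero =>
    rintro A T ⟨c, hc⟩
    refine ⟨coeff 0 (X ^ 0 * A + C m * T), -T, ?_⟩
    have h1 : c = (coeff 0 (X ^ 0 * A + C m * T) : ℤ) := by
      have h := (congrArg (coeff 0) hc).symm
      rw [coeff_map] at h
      simpa using h
    have h2 : X ^ 0 * A + C m * T = C (coeff 0 (X ^ 0 * A + C m * T)) := by
      apply cx_inj; rw [hc, h1]; simp
    linear_combination h2
  | succ M ih =>
    rintro A T ⟨c, B, hB, hc⟩
    have hU : ∀ R : Type, ∀ [CommRing R], constantCoeff (U0 R) = 1 := fun R _ => by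
      simpa using (E3_U0 R).1
    have h1 : c = (m * coeff 0 T : ℤ) := by
      have h := (congrArg (coeff 0) hc).symm
      rw [coeff_map] at h
      simpa [hU] using h
    obtain ⟨T1, hT1⟩ := X_dvd_iff.mpr (show constantCoeff (T - C (coeff 0 T) * U0 ℤ ^ (M + 1)) = 0 by
      simp [hU])
    refine ih A T1 ?_
    have : cx (X ^ M * A + C m * T1) = B := by
      apply mul_left_cancel₀ X_ne_zero
      have h2 := congrArg cx hT1
      simp only [map_add, map_sub, map_mul, map_pow, map_U0, map_X, map_C] at hc h2 ⊢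
      rw [h1] at hc
      simp only [Int.cast_mul, map_mul, eq_intCast, map_intCast] at hc h2 ⊢
      linear_combination hc - (m : ℂ⟦X⟧) * h2
    rwa [this]

lemma map_Uop {R S : Type*} [CommRing R] [CommRing S] (f : R →+* S) (p : ℕ) (A : R⟦X⟧) :
    map f (Uop p A) = Uop p (map f A) := by
  ext n; simp [Uop]

lemma hecke_congr {p : ℕ} (hp : p.Prime) (hp3 : p ≠ 3) (hp7 : chi p = 1) {e : ℕ} (he : e ≤ 1) :
    ∃ T : ℤ⟦X⟧, Uop p (g0 ℤ * y0 ℤ ^ (p * e)) = g0 ℤ * y0 ℤ ^ e + C ((p : ℤ) ^ 2) * T := by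
  have hcop : Nat.Coprime 3 p := (Nat.coprime_primes Nat.prime_three hp).mpr hp3.symm
  obtain ⟨M0, hM0⟩ : ∃ M0, p ^ 2 = 3 * M0 + 1 := by
    have h1 : p % 3 = 1 ∨ p % 3 = 2 := by
      have : ¬ 3 ∣ p := (Nat.Prime.coprime_iff_not_dvd Nat.prime_three).mp hcop
      omega
    refine ⟨p ^ 2 / 3, ?_⟩
    have : p ^ 2 % 3 = 1 := by rcases h1 with h | h <;> simp [Nat.pow_mod, h]
    omega
  have hM0c : (p : ℂ) ^ 2 = 3 * M0 + 1 := by exact_mod_cast hM0
  have hM03 : (p : ZMod 3) ^ 2 = 1 := by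
    have : ((p ^ 2 : ℕ) : ZMod 3) = ((3 * M0 + 1 : ℕ) : ZMod 3) := by rw [hM0]
    push_cast at this
    rw [this, show (3 : ZMod 3) = 0 from rfl]; simp
  set F : ℂ⟦X⟧ := g0 ℂ * y0 ℂ ^ (p * e) with hF
  have hf : LF 3 (-(p * e)) (-1) (-(p * e / 3)) F :=
    (lf_g0.mul (lf_y0.pow (p * e))).congr (by simp) (by push_cast; ring) (by simp)
      (by push_cast; ring) rfl
  set B : ℂ⟦X⟧ := X ^ (e * M0) * Uop p F + C ((p : ℂ) ^ 2) * expand p hp.ne_zero F with hB
  have c1 := hf.1.uop hp.ne_zero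
  have c2 := hf.1.expand p hp.ne_zero
  have hS : LF 3 (-e) (-1) (-(e / 3) - (e * M0 : ℕ)) B := by
    refine ⟨((conv_X.pow _).mul c1).add ((conv_C _).mul c2),
      (hf.2.hecke hp hp3 hp7).congr rfl (by linear_combination (-(e : ZMod 3)) * hM03) rfl
        fun τ hτ => ?_⟩
    rw [hB, fn_add ((conv_X.pow _).mul c1) ((conv_C _).mul c2) _ hτ, fn_X_pow_mul c1 _ _ hτ,
      fn_C_mul c2 _ _ hτ, hecke, fn_Uop hf.1 hp.ne_zero hcop e hτ,
      ← fn_expand hf.1 p hp.ne_zero _ hτ, add_comm]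
    congr 2
    · ring
    · congr 1; push_cast; linear_combination (-(e : ℂ) / 3) * hM0c
  have z3 : (3 : ZMod 3) = 0 := rfl
  have h1 : IsP (e * M0 + e + 2) (B * g0 ℂ * v0 ℂ ^ e * phi ℂ ^ 6) := isP_of_lf _ _
    ((((hS.mul lf_g0).mul (lf_v0.pow e)).mul (lf_phi.pow 6)).congr (by simp)
      (by push_cast; linear_combination (-2) * z3) (by simp) (by push_cast; ring) rfl)
  have h2 : IsP (2 * (e * M0) + e + 2) (B ^ 2 * y0 ℂ ^ e * phi ℂ ^ 6) := isP_of_lf _ _
    ((((hS.pow 2).mul (lf_y0.pow e)).mul (lf_phi.pow 6)).congr (by simp)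
      (by push_cast; linear_combination (-2 - (e : ZMod 3)) * z3) (by simp)
      (by push_cast; ring) rfl)
  have e6 : ph ℂ ^ 6 * phi ℂ ^ 6 = 1 := by rw [← mul_pow, ph_mul_phi]; simp
  have e3 : ph ℂ ^ 3 * phi ℂ ^ 3 = 1 := by rw [← mul_pow, ph_mul_phi]; simp
  obtain ⟨B1, b1, b2⟩ := divide he h1 h2 (by
    rw [← Sg_sq, ← y0_cube, ← y0_sq]; unfold g0
    linear_combination (B ^ 2 * Sg ℂ ^ 2 * y0 ℂ ^ (4 * e) * phi ℂ ^ 6) * e6)
  have b3 : B = B1 * (g0 ℂ * y0 ℂ ^ e) := by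
    apply mul_left_cancel₀ (mul_ne_zero (ne_zero_of_E3 (E3_Sg ℂ)) (pow_ne_zero (2 * e) y0_ne))
    rw [← Sg_sq, ← y0_cube, ← y0_sq] at b2
    unfold g0 at b2 ⊢
    linear_combination (ph ℂ ^ 3) * b2 - (B * Sg ℂ * y0 ℂ ^ (2 * e)) * e6
  have hy1 : constantCoeff (y0 ℤ) = 1 := by
    have h := congrArg constantCoeff (v0_mul_y0 ℤ)
    have h1 := (E3_v0 ℤ).1
    have h2 := (E3_U0 ℤ).1
    simp only [coeff_zero_eq_constantCoeff] at h1 h2
    simpa [h1, h2] using h
  have hg1 : constantCoeff (g0 ℤ) = 1 := by simpa using (E3_g0 ℤ).1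
  set J : ℤ⟦X⟧ := invOfUnit (g0 ℤ * y0 ℤ ^ e) 1 with hJ
  have hJ1 : g0 ℤ * y0 ℤ ^ e * J = 1 := mul_invOfUnit _ _ (by simp [hy1, hg1])
  obtain ⟨c, T, hT⟩ := integral_lemma ((p : ℤ) ^ 2) (e * M0) (Uop p (g0 ℤ * y0 ℤ ^ (p * e)) * J)
    (expand p hp.ne_zero (g0 ℤ * y0 ℤ ^ (p * e)) * J) (by
      have h3 := congrArg cx hJ1
      have h4 : cx (X ^ (e * M0) * (Uop p (g0 ℤ * y0 ℤ ^ (p * e)) * J) + C ((p : ℤ) ^ 2) *
          (expand p hp.ne_zero (g0 ℤ * y0 ℤ ^ (p * e)) * J)) = B * cx J := by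
        simp only [hB, hF, map_add, map_mul cx, map_pow cx, map_X, map_C, map_Uop, map_expand,
          map_g0, map_y0]
        simp only [eq_intCast, Int.cast_pow, Int.cast_natCast]
        ring
      rw [map_mul, map_mul, map_pow, map_g0, map_y0, map_one] at h3
      rw [h4, b3, mul_assoc, h3, mul_one]
      exact b1)
  have h5 : Uop p (g0 ℤ * y0 ℤ ^ (p * e)) =
      C c * (g0 ℤ * y0 ℤ ^ e) + C ((p : ℤ) ^ 2) * (T * (g0 ℤ * y0 ℤ ^ e)) := by
    linear_combination (g0 ℤ * y0 ℤ ^ e) * hT - Uop p (g0 ℤ * y0 ℤ ^ (p * e)) * hJ1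
  have h6 : c = 1 - (p : ℤ) ^ 2 * constantCoeff T := by
    have := congrArg (coeff 0) h5
    simp [Uop, hy1, hg1] at this
    linarith
  refine ⟨(T - C (constantCoeff T)) * (g0 ℤ * y0 ℤ ^ e), ?_⟩
  rw [h5, h6, map_sub, map_mul, map_one]; ring

section ring
variable {R : Type*} [CommRing R]

lemma Uop_add (p : ℕ) (A B : R⟦X⟧) : Uop p (A + B) = Uop p A + Uop p B := by
  ext n; simp [Uop]

lemma Uop_C_mul (p : ℕ) (c : R) (A : R⟦X⟧) : Uop p (C c * A) = C c * Uop p A := by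
  ext n; simp [Uop]

lemma Uop_expand_mul {p : ℕ} (hp : p ≠ 0) (A B : R⟦X⟧) :
    Uop p (expand p hp A * B) = A * Uop p B := by
  ext n
  simp only [Uop, coeff_mk, coeff_mul]
  symm
  refine Finset.sum_of_injOn (fun x => (p * x.1, p * x.2)) ?_ ?_ ?_ ?_
  · rintro ⟨a, b⟩ - ⟨c, d⟩ - h
    simpa [hp] using h
  · rintro ⟨a, b⟩ h
    simp only [Finset.mem_coe, Finset.HasAntidiagonal.mem_antidiagonal] at h ⊢
    rw [← h]; ring
  · rintro ⟨a, b⟩ h h'
    rw [coeff_expand_of_not_dvd, zero_mul]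
    rintro ⟨k, rfl⟩
    simp only [Finset.HasAntidiagonal.mem_antidiagonal] at h
    have hk : k ≤ n := by
      by_contra hk
      have : p * n < p * k := Nat.mul_lt_mul_of_pos_left (by omega) (Nat.pos_of_ne_zero hp)
      omega
    refine h' ⟨(k, n - k), by simp [hk], ?_⟩
    simp only [Prod.mk.injEq, true_and]
    rw [Nat.mul_sub]; omega
  · rintro ⟨a, b⟩ -
    simp

lemma add_pow_sq_zero (a x : R) (hx : x ^ 2 = 0) (n : ℕ) :
    (a + x) ^ (n + 1) = a ^ (n + 1) + (n + 1 : ℕ) * a ^ n * x := by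
  induction n with
  | zero => simp
  | succ n ih =>
    rw [pow_succ, ih]; push_cast
    linear_combination ((n + 1) * a ^ n) * hx

end ring

lemma frob {p : ℕ} (hp : p.Prime) (A : ℤ⟦X⟧) :
    ∃ T : ℤ⟦X⟧, A ^ p = expand p hp.ne_zero A + C (p : ℤ) * T := by
  have := Fact.mk hp
  have h1 : map (Int.castRingHom (ZMod p)) (A ^ p - expand p hp.ne_zero A) = 0 := by
    have h := MvPowerSeries.map_frobenius_expand p hp.ne_zero
      (f := map (Int.castRingHom (ZMod p)) A)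
    rw [ZMod.frobenius_zmod, MvPowerSeries.map_id] at h
    rw [map_sub, map_pow, map_expand, sub_eq_zero]
    exact h.symm
  refine ⟨mk fun n => coeff n (A ^ p - expand p hp.ne_zero A) / p, ?_⟩
  rw [← sub_eq_iff_eq_add']
  ext n
  have h2 := congrArg (coeff n) h1
  rw [coeff_map, map_zero, eq_intCast, ZMod.intCast_zmod_eq_zero_iff_dvd] at h2
  rw [coeff_C_mul, coeff_mk, Int.mul_ediv_cancel' h2]

theorem tau_split {p : ℕ} (hp : p.Prime) (hp3 : p ≠ 3) (hp7 : chi p = 1) (n : ℕ) :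
    (p : ℤ) ^ 2 ∣ tau (p * n + p) - tau (n + 1) := by
  obtain ⟨T0, h0⟩ := hecke_congr hp hp3 hp7 (e := 0) (by simp)
  obtain ⟨T1, h1⟩ := hecke_congr hp hp3 hp7 (e := 1) (by simp)
  obtain ⟨T, h2⟩ := frob hp (y0 ℤ)
  set R := ZMod (p ^ 2)
  have hz : ((p : R)) ^ 2 = 0 := by exact_mod_cast ZMod.natCast_self (p ^ 2)
  have h0' := congrArg (map (Int.castRingHom R)) h0
  have h1' := congrArg (map (Int.castRingHom R)) h1
  have h2' := congrArg (map (Int.castRingHom R)) h2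
  have c1 : map (Int.castRingHom R) (C (p : ℤ)) = C (p : R) := by rw [map_C, map_natCast]
  have c2 : map (Int.castRingHom R) (C ((p : ℤ) ^ 2)) = 0 := by
    rw [map_C, map_pow, map_natCast, hz, map_zero]
  simp only [map_add, map_mul (map (Int.castRingHom R)), map_pow (map (Int.castRingHom R)), c1, c2,
    map_Uop, map_expand, map_g0, map_y0,
    zero_mul, add_zero, mul_zero, pow_zero, mul_one, pow_one] at h0' h1' h2'
  set x : R⟦X⟧ := C (p : R) * map (Int.castRingHom R) T with hx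
  have hx2 : x ^ 2 = 0 := by rw [hx, mul_pow, ← map_pow, hz]; simp
  have hy3 : y0 R ^ 3 = U0 R := by
    have : y0 ℤ ^ 3 = U0 ℤ := cx_inj (by rw [map_pow, map_y0, map_U0, y0_cube])
    rw [← map_y0, ← map_pow, this, map_U0]
  have h3 : Uop p (x * g0 R) = 0 := by
    rw [h2', mul_add, Uop_add, mul_comm (g0 R), Uop_expand_mul, h0', mul_comm (g0 R) x,
      mul_comm (g0 R)] at h1'
    linear_combination h1'
  have h4 : Uop p (g0 R * U0 R ^ (p * (n + 1))) = g0 R * U0 R ^ (n + 1) := by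
    rw [← hy3, ← pow_mul, show 3 * (p * (n + 1)) = p * (3 * n + 2 + 1) by ring, pow_mul, h2',
      add_pow_sq_zero _ _ hx2, mul_add, Uop_add, ← map_pow, ← map_pow, mul_comm (g0 R),
      Uop_expand_mul, h0', ← map_natCast (C : R →+* R⟦X⟧),
      show ∀ a b : R⟦X⟧, g0 R * (a * b * x) = a * (b * (x * g0 R)) from fun a b => by ring,
      Uop_C_mul, Uop_expand_mul, h3]
    ring
  have h5 := congrArg (coeff (n + 1)) h4
  rw [Uop, coeff_mk, ← tau_cast, ← tau_cast] at h5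
  have := (ZMod.intCast_eq_intCast_iff_dvd_sub _ _ _).mp h5.symm
  rw [show p * n + p = p * (n + 1) by ring]
  exact_mod_cast this

end Pool.Agent.H185Z.L7
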