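import Pool.Agent.H185Z.L7.Formal

/-! Structure of invariant functions, the differential equation and the Hecke congruence. -/

set_option autoImplicit false

open PowerSeries Complex Filter Topology

namespace Pool.Agent.H185Z.L7

/-- `A = q ^ n P (u)` for a polynomial `P` of degree at most `n` -/
def IsP : ℕ → ℂ⟦X⟧ → Prop
  | 0, A => ∃ c, A = C c
  | n + 1, A => ∃ c B, IsP n B ∧ A = C c * U0 ℂ ^ (n + 1) + X * B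

lemma isP_of_lf (n : ℕ) : ∀ A : ℂ⟦X⟧, LF 0 0 1 (-(n : ℂ)) A → IsP n A := by
  have key : ∀ (n : ℕ) (A : ℂ⟦X⟧), LF 0 0 1 (-(n : ℂ)) A →
      ∃ B, A = C (coeff 0 A) * U0 ℂ ^ n + X * B ∧ LF 0 0 1 (-(n : ℂ) + 1) B := by
    intro n A hA
    have h0 : constantCoeff (A - C (coeff 0 A) * U0 ℂ ^ n) = 0 := by
      have := (E3_U0 ℂ).1
      simp only [coeff_zero_eq_constantCoeff] at this
      simp [this]
    obtain ⟨B, hB⟩ := X_dvd_iff.mpr h0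
    refine ⟨B, by linear_combination hB, LF.of_X_mul ?_⟩
    refine (hA.add (((lf_U0.pow n).smul (-coeff 0 A)).congr (by simp) (by simp) (by simp) (by simp)
      rfl)).congr rfl rfl rfl rfl ?_
    rw [← hB, map_neg]; ring
  induction n with
  | zero =>
    intro A hA
    obtain ⟨B, h1, h2⟩ := key 0 A hA
    have : B = 0 := liouville h2.1 (h2.congr rfl rfl rfl (by simp) rfl).2
    exact ⟨coeff 0 A, by rw [h1, this]; simp⟩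
  | succ n ih =>
    intro A hA
    obtain ⟨B, h1, h2⟩ := key (n + 1) A hA
    exact ⟨_, B, ih B (h2.congr rfl rfl rfl (by push_cast; ring) rfl), h1⟩

lemma isP_two {A : ℂ⟦X⟧} (h : LF 0 0 1 (-2) A) {a b c : ℂ} (h3 : E3 A a b c) :
    A = C a * U0 ℂ ^ 2 + C (b - 18 * a) * U0 ℂ * X +
      C (c - 183 * a - 9 * (b - 18 * a)) * X ^ 2 := by
  obtain ⟨c2, B, ⟨c1, B', ⟨c0, rfl⟩, rfl⟩, rfl⟩ := isP_of_lf 2 A (by simpa using h)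
  have h4 := ((E3_C c2).mul (E3_U0 ℂ).sq).add (E3_X.mul (((E3_C c1).mul (E3_U0 ℂ)).add
    (E3_X.mul (E3_C c0))))
  simp only [zero_add, pow_one] at h3 ⊢
  obtain ⟨e1, e2, e3⟩ := h4
  rw [h3.1] at e1; rw [h3.2.1] at e2; rw [h3.2.2] at e3
  rw [show a = c2 by linear_combination e1,
    show b - 18 * c2 = c1 by linear_combination e2,
    show c - 183 * c2 - 9 * c1 = c0 by linear_combination e3]
  ring

lemma ne_zero_of_E3 {A : ℂ⟦X⟧} {b c : ℂ} (h : E3 A 1 b c) : A ≠ 0 := by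
  rintro rfl; simpa using h.1

lemma v0_cube : v0 ℂ ^ 3 = U0 ℂ ^ 2 := by
  have h := isP_two (A := v0 ℂ ^ 3) ((lf_v0.pow 3).congr (by simp) (by decide) (by simp)
    (by push_cast; ring) rfl) (((E3_v0 ℂ).sq.mul (E3_v0 ℂ)).congr (by ring) rfl rfl rfl)
  rw [h]; norm_num

lemma y0_sq : y0 ℂ ^ 2 = v0 ℂ := by
  apply mul_left_cancel₀ (pow_ne_zero 2 (ne_zero_of_E3 (E3_v0 ℂ)))
  rw [← mul_pow, v0_mul_y0, ← v0_cube]; ring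

lemma y0_cube : y0 ℂ ^ 3 = U0 ℂ := by rw [← v0_mul_y0, ← y0_sq]; ring

lemma y0_ne : y0 ℂ ≠ 0 := by
  intro h
  have := y0_cube
  rw [h] at this
  exact ne_zero_of_E3 (E3_U0 ℂ) (by rw [← this]; simp)

lemma Cmul (a b : ℂ) (h : a * b = 1) : (C a : ℂ⟦X⟧) * C b = 1 := by rw [← map_mul, h, map_one]

lemma C3 : (C (1 / 3 : ℂ) : ℂ⟦X⟧) * 3 = 1 := by
  rw [← map_ofNat C 3]; exact Cmul _ _ (by norm_num)

lemma D_y0 : Dop (-(1 / 3)) (y0 ℂ) = -C (1 / 3) * ph ℂ ^ 2 * Sg ℂ := by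
  have h := Dop_pow (-(1 / 3)) (y0 ℂ) 3
  rw [show ((3 : ℕ) : ℂ) * -(1 / 3) = -1 by push_cast; ring, y0_cube, D_U0, Z0_eq, ← y0_sq,
    ← y0_cube] at h
  apply mul_left_cancel₀ (pow_ne_zero 3 y0_ne)
  push_cast at h
  linear_combination (-C (1 / 3 : ℂ)) * h - (y0 ℂ ^ 3 * Dop (-(1 / 3)) (y0 ℂ)) * C3

lemma lf_y0 : LF 0 (-1) 1 (-(1 / 3)) (y0 ℂ) := by
  have h1 := ((lf_U0.add (lf_X.smul (-26))).mul (lf_v0.pow 2)).congr (k' := 0) (i' := -1) (ε' := 1)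
    (a' := -(7 / 3)) (by simp) (by decide) (by simp) (by push_cast; ring) rfl
  have h2 := ((lf_Sg.mul (lf_v0.dop.mul (lf_phi.pow 2))).smul (3 / 2)).congr (k' := 0) (i' := -1)
    (ε' := 1) (a' := -(7 / 3)) (by simp) (by decide) (by simp) (by push_cast; ring) rfl
  have hv : Dop (-(2 / 3)) (v0 ℂ) = -2 * C (1 / 3) * y0 ℂ * ph ℂ ^ 2 * Sg ℂ := by
    rw [← y0_sq, sq, Dop_mul (a := -(1 / 3)) (b := -(1 / 3)) (by ring), D_y0]; ring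
  have h4 : LF 0 (-1) 1 (-(7 / 3)) (X * (X * y0 ℂ)) :=
    ((h1.add h2).smul (1 / 27)).congr rfl rfl rfl rfl (by
      have e : (C (1 / 27 : ℂ) : ℂ⟦X⟧) * 27 = 1 := by
        rw [← map_ofNat C 27]; exact Cmul _ _ (by norm_num)
      have e2 : (C (3 / 2 : ℂ) : ℂ⟦X⟧) * (2 * C (1 / 3)) = 1 := by
        rw [← map_ofNat C 2, ← map_mul]; exact Cmul _ _ (by norm_num)
      have e3 : ph ℂ ^ 2 * phi ℂ ^ 2 = 1 := by rw [← mul_pow, ph_mul_phi]; simp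
      have e4 : C (3 / 2) * (Sg ℂ * (-2 * C (1 / 3) * y0 ℂ * ph ℂ ^ 2 * Sg ℂ * phi ℂ ^ 2)) =
          -y0 ℂ * Sg ℂ ^ 2 := by
        linear_combination (-y0 ℂ * Sg ℂ ^ 2 * ph ℂ ^ 2 * phi ℂ ^ 2) * e2 - y0 ℂ * Sg ℂ ^ 2 * e3
      rw [hv, e4, Sg_sq, ← y0_sq, map_neg, map_ofNat, ← y0_cube]
      linear_combination (X ^ 2 * y0 ℂ) * e)
  exact h4.of_X_mul.of_X_mul.congr rfl rfl rfl (by ring) rfl

lemma DD_phi : 9 * Dop (-(1 / 3)) (Dop (-(1 / 3)) (phi ℂ)) =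
    ph ℂ ^ 3 * y0 ℂ * (U0 ℂ - 5 * X) := by
  have h := isP_two (A := Dop (-(1 / 3)) (Dop (-(1 / 3)) (phi ℂ)) * phi ℂ ^ 3 * v0 ℂ)
    (((lf_phi.dop2.mul (lf_phi.pow 3)).mul lf_v0).congr (by simp) (by decide) (by simp)
    (by push_cast; ring) rfl)
    (((((E3_phi ℂ).dop _).dop _).mul (((E3_phi ℂ).sq.mul (E3_phi ℂ)).congr (B := phi ℂ ^ 3)
      (by ring) rfl rfl rfl)).mul (E3_v0 ℂ))
  norm_num at h
  have e : (C (1 / 9 : ℂ) : ℂ⟦X⟧) * 9 = 1 := by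
    rw [← map_ofNat C 9]; exact Cmul _ _ (by norm_num)
  have e' : (C (5 / 9 : ℂ) : ℂ⟦X⟧) * 9 = 5 := by
    rw [← map_ofNat C 9, ← map_ofNat C 5, ← map_mul]; norm_num
  have e3 : ph ℂ ^ 3 * phi ℂ ^ 3 = 1 := by rw [← mul_pow, ph_mul_phi]; simp
  apply mul_left_cancel₀ (ne_zero_of_E3 (E3_v0 ℂ))
  have hy := v0_mul_y0 ℂ
  linear_combination (9 * ph ℂ ^ 3) * h -
    (9 * v0 ℂ * Dop (-(1 / 3)) (Dop (-(1 / 3)) (phi ℂ))) * e3 + (ph ℂ ^ 3 * U0 ℂ ^ 2) * e -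
    (ph ℂ ^ 3 * U0 ℂ * X) * e' - ph ℂ ^ 3 * (U0 ℂ - 5 * X) * hy

lemma ode (k : ℕ) (K : ℂ⟦X⟧) (hK : K = C (k : ℂ)) :
    Dop (-(k + 2 : ℂ)) (Dop (-(k + 2 : ℂ)) (Sg ℂ * y0 ℂ ^ 2 * U0 ℂ ^ k * phi ℂ)) =
    g0 ℂ * U0 ℂ ^ k * ((K + 2) ^ 2 * U0 ℂ ^ 2 - (26 * (K + 1) ^ 2 + 13 * (K + 1) + 2) * U0 ℂ * X -
      3 * (3 * K + 2) * (3 * K + 1) * X ^ 2) := by
  have hU : Dop (-1) (U0 ℂ) = -y0 ℂ ^ 2 * ph ℂ ^ 2 * Sg ℂ := by rw [D_U0, Z0_eq, y0_sq]; ring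
  have hS : Dop (-1) (Sg ℂ) = -y0 ℂ ^ 2 * ph ℂ ^ 2 * (U0 ℂ - 13 * X) := by
    rw [D_Sg, Z0_eq, y0_sq]; ring
  have hB : y0 ℂ * Dop (-(k : ℂ)) (U0 ℂ ^ k) = -K * ph ℂ ^ 2 * Sg ℂ * U0 ℂ ^ k := by
    have h := Dop_pow (-1) (U0 ℂ) k
    rw [mul_neg_one, hU, ← map_natCast (C : ℂ →+* ℂ⟦X⟧) k, ← hK] at h
    apply mul_left_cancel₀ (pow_ne_zero 2 y0_ne)
    linear_combination h + Dop (-(k : ℂ)) (U0 ℂ ^ k) * y0_cube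
  have hp := ph_mul_phi ℂ
  have hi : Dop (-(1 / 3)) (phi ℂ) = -Dop (1 / 3) (ph ℂ) * phi ℂ ^ 2 := by
    have h := Dop_mul (c := 0) (a := 1 / 3) (b := -(1 / 3)) (by ring) (ph ℂ) (phi ℂ)
    rw [hp, ← map_one C, Dop_C] at h
    linear_combination (-phi ℂ) * h - Dop (-(1 / 3)) (phi ℂ) * hp
  set t : ℂ⟦X⟧ := C (1 / 3) with ht
  have h3 : t * 3 = 1 := C3
  set Q : ℂ⟦X⟧ := U0 ℂ * (U0 ℂ - 13 * X) + (K + 2 * t) * ((U0 ℂ + X) * (U0 ℂ - 27 * X)) with hQ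
  have hh : Dop (-(k + 5 / 3 : ℂ)) (Sg ℂ * y0 ℂ ^ 2 * U0 ℂ ^ k) =
      ph ℂ ^ 2 * (-(y0 ℂ * U0 ℂ ^ k * Q)) := by
    rw [Dop_mul (a := -(5 / 3)) (b := -(k : ℂ)) (by ring),
      Dop_mul (a := -1) (b := -(2 / 3)) (by ring), sq,
      Dop_mul (a := -(1 / 3)) (b := -(1 / 3)) (by ring), D_y0, hS, hQ, ← Sg_sq]
    linear_combination (Sg ℂ * y0 ℂ) * hB - (ph ℂ ^ 2 * (U0 ℂ - 13 * X) * U0 ℂ ^ k * y0 ℂ) * y0_cube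
  have hX : ∀ n : ℂ⟦X⟧, ∀ c : ℂ, n = C c → Dop (-1) (n * X) = 0 := by
    rintro _ c rfl; rw [Dop_C_mul, Dop_X, mul_zero]
  have hDQ : Dop (-2) Q = (2 * U0 ℂ - 13 * X + (K + 2 * t) * (2 * U0 ℂ - 26 * X)) *
      (-y0 ℂ ^ 2 * ph ℂ ^ 2 * Sg ℂ) := by
    have e : (K + 2 * t) = C ((k : ℂ) + 2 * (1 / 3)) := by
      rw [map_add, map_mul, map_ofNat, hK]
    rw [hQ, Dop_add, e, Dop_C_mul, Dop_mul (a := -1) (b := -1) (by ring),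
      Dop_mul (a := -1) (b := -1) (by ring), Dop_sub, Dop_sub, Dop_add, Dop_X,
      hX 13 13 (map_ofNat C 13).symm, hX 27 27 (map_ofNat C 27).symm, hU]
    ring
  have hh1 : Dop (-(k + 7 / 3 : ℂ)) (-(y0 ℂ * U0 ℂ ^ k * Q)) =
      ph ℂ ^ 2 * Sg ℂ * U0 ℂ ^ k * ((t + K) * Q +
        U0 ℂ * (2 * U0 ℂ - 13 * X + (K + 2 * t) * (2 * U0 ℂ - 26 * X))) := by
    rw [Dop_neg, Dop_mul (a := -(k + 1 / 3 : ℂ)) (b := -2) (by ring),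
      Dop_mul (a := -(1 / 3)) (b := -(k : ℂ)) (by ring), D_y0, hDQ]
    linear_combination (-Q) * hB + (ph ℂ ^ 2 * Sg ℂ * U0 ℂ ^ k *
      (2 * U0 ℂ - 13 * X + (K + 2 * t) * (2 * U0 ℂ - 26 * X))) * y0_cube
  have hw : Dop (-(k + 2 : ℂ)) (Sg ℂ * y0 ℂ ^ 2 * U0 ℂ ^ k * phi ℂ) =
      ph ℂ * (-(y0 ℂ * U0 ℂ ^ k * Q)) + Sg ℂ * y0 ℂ ^ 2 * U0 ℂ ^ k * Dop (-(1 / 3)) (phi ℂ) := by
    rw [Dop_mul (a := -(k + 5 / 3 : ℂ)) (b := -(1 / 3)) (by ring), hh]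
    linear_combination (ph ℂ * (-(y0 ℂ * U0 ℂ ^ k * Q))) * hp
  have h9 : (81 : ℂ⟦X⟧) ≠ 0 := by
    rw [← map_ofNat C 81]; intro h; simpa using congrArg constantCoeff h
  have hDD := DD_phi
  rw [hw, Dop_add, Dop_mul (a := 1 / 3) (b := -(k + 7 / 3 : ℂ)) (by ring), hh1,
    Dop_mul (a := -(k + 5 / 3 : ℂ)) (b := -(1 / 3)) (by ring), hh]
  apply mul_left_cancel₀ h9
  have e1 : Dop (1 / 3) (ph ℂ) * -(y0 ℂ * U0 ℂ ^ k * Q) +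
      ph ℂ ^ 2 * -(y0 ℂ * U0 ℂ ^ k * Q) * Dop (-(1 / 3)) (phi ℂ) = 0 := by
    rw [hi]
    linear_combination (Dop (1 / 3) (ph ℂ) * (y0 ℂ * U0 ℂ ^ k * Q) * (ph ℂ * phi ℂ + 1)) * hp
  have e2 : 81 * ((t + K) * Q +
        U0 ℂ * (2 * U0 ℂ - 13 * X + (K + 2 * t) * (2 * U0 ℂ - 26 * X))) +
        9 * (U0 ℂ * (U0 ℂ - 5 * X)) = 81 * ((K + 2) ^ 2 * U0 ℂ ^ 2 -
        (26 * (K + 1) ^ 2 + 13 * (K + 1) + 2) * U0 ℂ * X - 3 * (3 * K + 2) * (3 * K + 1) * X ^ 2) := by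
    rw [hQ]
    linear_combination (27 * (U0 ℂ * (U0 ℂ - 13 * X)) +
      (81 * K + 54 * t + 18) * ((U0 ℂ + X) * (U0 ℂ - 27 * X)) +
      54 * U0 ℂ * (2 * U0 ℂ - 26 * X)) * h3
  unfold g0
  linear_combination 81 * e1 + (ph ℂ ^ 3 * Sg ℂ * U0 ℂ ^ k) * e2 +
    (9 * Sg ℂ * y0 ℂ ^ 2 * U0 ℂ ^ k) * hDD +
    (9 * Sg ℂ * U0 ℂ ^ k * ph ℂ ^ 3 * (U0 ℂ - 5 * X)) * y0_cube

/-- the constant terms of `G u ^ n` -/
noncomputable def tau (n : ℕ) : ℤ := coeff n (g0 ℤ * U0 ℤ ^ n)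

lemma tau_cast (R : Type*) [CommRing R] (n : ℕ) : (tau n : R) = coeff n (g0 R * U0 R ^ n) := by
  rw [← map_g0, ← map_U0, ← map_pow, ← map_mul, coeff_map]; rfl

lemma tau_zero : tau 0 = 1 := by simpa [tau] using (E3_g0 ℤ).1

lemma tau_one : tau 1 = 2 := by simpa [tau] using ((E3_g0 ℤ).mul (E3_U0 ℤ)).2.1

lemma tau_rec (k : ℕ) : ((k : ℤ) + 2) ^ 2 * tau (k + 2) =
    (26 * (k + 1) ^ 2 + 13 * (k + 1) + 2) * tau (k + 1) + 3 * (3 * k + 2) * (3 * k + 1) * tau k := by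
  have h := congrArg (coeff (k + 2)) (ode k _ rfl)
  rw [coeff_Dop] at h
  have e : g0 ℂ * U0 ℂ ^ k * ((C (k : ℂ) + 2) ^ 2 * U0 ℂ ^ 2 -
      (26 * (C (k : ℂ) + 1) ^ 2 + 13 * (C (k : ℂ) + 1) + 2) * U0 ℂ * X -
      3 * (3 * C (k : ℂ) + 2) * (3 * C (k : ℂ) + 1) * X ^ 2) =
      C (((k : ℂ) + 2) ^ 2) * (g0 ℂ * U0 ℂ ^ (k + 2)) -
      C (26 * ((k : ℂ) + 1) ^ 2 + 13 * (k + 1) + 2) * (X * (g0 ℂ * U0 ℂ ^ (k + 1))) -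
      C (3 * (3 * (k : ℂ) + 2) * (3 * k + 1)) * (X * (X * (g0 ℂ * U0 ℂ ^ k))) := by
    simp only [map_add, map_mul, map_pow, map_ofNat, map_one]; ring
  rw [e, map_sub, map_sub, coeff_C_mul, coeff_C_mul, coeff_C_mul, coeff_succ_X_mul,
    coeff_succ_X_mul, coeff_succ_X_mul, ← tau_cast, ← tau_cast, ← tau_cast] at h
  have h2 : (((k : ℤ) + 2) ^ 2 * tau (k + 2) : ℤ) = (((26 * (k + 1) ^ 2 + 13 * (k + 1) + 2) *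
      tau (k + 1) + 3 * (3 * k + 2) * (3 * k + 1) * tau k : ℤ) : ℂ) := by
    push_cast at h ⊢; linear_combination -h
  exact_mod_cast h2

end Pool.Agent.H185Z.L7
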